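import Pool.Agent.Work.MP_16b4d3_co.Bin4

/-!
Every binary matroid is a minor of a member of the family.
-/

set_option autoImplicit false
set_option linter.unusedSectionVars false

namespace Pool.Agent.Work.MP_16b4d3_co.Bin

open Set Submodule Module Pool.Agent.Work.MP_5f9c07_co

variable {m n d : ℕ}

/-- Unit vector. -/
def un (m : ℕ) (j : Fin m) : Fin m → ZMod 2 := Pi.single j 1

/-- The coordinate embedding. -/
def lin (J : Fin d ⊕ (Fin n × Fin 3) ↪ Fin m) : (Fin d → ZMod 2) →ₗ[ZMod 2] (Fin m → ZMod 2) :=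
  ∑ i : Fin d, (LinearMap.toSpanSingleton (ZMod 2) (Fin m → ZMod 2) (un m (J (Sum.inl i)))).comp
    (LinearMap.proj i)

/-- The coordinate projection. -/
def prj (J : Fin d ⊕ (Fin n × Fin 3) ↪ Fin m) : Vm m →ₗ[ZMod 2] (Fin d → ZMod 2) :=
  LinearMap.pi (fun i => (LinearMap.proj (J (Sum.inl i))).comp
    (LinearMap.fst (ZMod 2) (Fin m → ZMod 2) (ZMod 2 × (Fin 3 → ZMod 2))))

/-- The element of the geometry for the `e`-th vector. -/
def elt (J : Fin d ⊕ (Fin n × Fin 3) ↪ Fin m) (w : Fin n → Fin d → ZMod 2) (e : Fin n) : Em m :=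
  Sum.inl (lin J (w e) + ∑ k : Fin 3, un m (J (Sum.inr (e, k))))

/-- The contracted elements. -/
def con (J : Fin d ⊕ (Fin n × Fin 3) ↪ Fin m) (p : Fin n × Fin 3) : Em m :=
  Sum.inl (un m (J (Sum.inr p)))

lemma un_apply (j k : Fin m) : un m j k = if k = j then 1 else 0 := by
  unfold un; rw [Pi.single_apply]

lemma lin_apply (J : Fin d ⊕ (Fin n × Fin 3) ↪ Fin m) (y : Fin d → ZMod 2) (k : Fin m) :
    lin J y k = ∑ i, y i * un m (J (Sum.inl i)) k := by
  unfold lin
  simp [LinearMap.sum_apply, Finset.sum_apply]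

lemma lin_inl (J : Fin d ⊕ (Fin n × Fin 3) ↪ Fin m) (y : Fin d → ZMod 2) (i : Fin d) :
    lin J y (J (Sum.inl i)) = y i := by
  rw [lin_apply, Finset.sum_eq_single i]
  · rw [un_apply, if_pos rfl, mul_one]
  · intro j _ hj
    rw [un_apply, if_neg, mul_zero]
    intro h
    exact hj (Sum.inl_injective (J.injective h)).symm
  · intro h
    exact absurd (Finset.mem_univ _) h

lemma lin_inr (J : Fin d ⊕ (Fin n × Fin 3) ↪ Fin m) (y : Fin d → ZMod 2) (p : Fin n × Fin 3) :
    lin J y (J (Sum.inr p)) = 0 := by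
  rw [lin_apply]
  apply Finset.sum_eq_zero
  intro j _
  rw [un_apply, if_neg, mul_zero]
  intro h
  exact absurd (J.injective h) (by simp)

lemma sum_inr (J : Fin d ⊕ (Fin n × Fin 3) ↪ Fin m) (e e' : Fin n) (l : Fin 3) :
    (∑ k : Fin 3, un m (J (Sum.inr (e, k)))) (J (Sum.inr (e', l))) = if e' = e then 1 else 0 := by
  rw [Finset.sum_apply]
  by_cases h : e' = e
  · subst h
    rw [if_pos rfl, Finset.sum_eq_single l]
    · rw [un_apply, if_pos rfl]
    · intro k _ hk
      rw [un_apply, if_neg]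
      intro h
      have := Sum.inr_injective (J.injective h)
      exact hk (Prod.mk.inj this).2.symm
    · intro h
      exact absurd (Finset.mem_univ _) h
  · rw [if_neg h]
    apply Finset.sum_eq_zero
    intro k _
    rw [un_apply, if_neg]
    intro h'
    have := Sum.inr_injective (J.injective h')
    exact h (Prod.mk.inj this).1

lemma elt_inj (J : Fin d ⊕ (Fin n × Fin 3) ↪ Fin m) (w : Fin n → Fin d → ZMod 2) :
    Function.Injective (elt J w) := by
  intro e e' h
  have h1 := Sum.inl_injective h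
  have h2 := congrFun h1 (J (Sum.inr (e, 0)))
  rw [Pi.add_apply, Pi.add_apply, lin_inr, lin_inr, zero_add, zero_add, sum_inr, sum_inr,
    if_pos rfl] at h2
  by_contra hne
  rw [if_neg hne] at h2
  exact absurd h2 (by decide)

lemma elt_ne_con (J : Fin d ⊕ (Fin n × Fin 3) ↪ Fin m) (w : Fin n → Fin d → ZMod 2)
    (e : Fin n) (p : Fin n × Fin 3) : elt J w e ≠ con J p := by
  intro h
  have h1 := Sum.inl_injective h
  have h2 : ∀ l : Fin 3, p = (e, l) := by
    intro l
    have h2 := congrFun h1 (J (Sum.inr (e, l)))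
    rw [Pi.add_apply, lin_inr, zero_add, sum_inr, if_pos rfl, un_apply] at h2
    by_contra hne
    rw [if_neg] at h2
    · exact absurd h2 (by decide)
    · intro h'
      exact hne (Sum.inr_injective (J.injective h')).symm
  have h3 := (h2 0).symm.trans (h2 1)
  exact absurd (Prod.mk.inj h3).2 (by decide)

theorem minor (hmn : d + 3 * n ≤ m) (w : Fin n → Fin d → ZMod 2) :
    ∃ (C : Set (Em m)) (f : Fin n → Em m), Function.Injective f ∧ (∀ e, f e ∉ C) ∧
      ∀ I : Set (Fin n), LinearIndepOn (ZMod 2) w I ↔ ((BM m).contract C).Indep (f '' I) := by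
  classical
  obtain ⟨J⟩ : Nonempty (Fin d ⊕ (Fin n × Fin 3) ↪ Fin m) := by
    apply Function.Embedding.nonempty_of_card_le
    simp
    omega
  set C : Set (Em m) := range (con J) with hC
  have hCind : LinearIndepOn (ZMod 2) (vec m) C := by
    have h1 : LinearIndependent (ZMod 2) (fun j : Fin m => un m j) := by
      have := (Pi.basisFun (ZMod 2) (Fin m)).linearIndependent
      convert this using 2 with j
      simp [un]
    have h2 : LinearIndependent (ZMod 2) (fun p : Fin n × Fin 3 => vec m (con J p)) := by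
      have h3 : LinearIndependent (ZMod 2) (fun p : Fin n × Fin 3 => un m (J (Sum.inr p))) :=
        h1.comp (fun p => J (Sum.inr p)) (fun p q h => Sum.inr_injective (J.injective h))
      exact LinearIndependent.of_comp
        (LinearMap.fst (ZMod 2) (Fin m → ZMod 2) (ZMod 2 × (Fin 3 → ZMod 2))) h3
    have h4 := LinearIndepOn.image_of_comp (s := univ) (con J) (vec m)
      (linearIndepOn_univ_iff.2 h2)
    rw [image_univ] at h4
    exact h4
  refine ⟨C, elt J w, elt_inj J w, ?_, ?_⟩
  · rintro e ⟨p, hp⟩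
    exact elt_ne_con J w e p hp.symm
  · intro I
    have hdis : Disjoint C (elt J w '' I) := by
      rw [disjoint_left]
      rintro _ ⟨p, rfl⟩ ⟨e, _, he⟩
      exact elt_ne_con J w e p he
    have hCi : (BM m).Indep C := (linMat_indep (ZMod 2) (vec m) univ).2 ⟨subset_univ _, hCind⟩
    rw [hCi.contract_indep_iff, and_iff_right hdis.symm, union_comm]
    have h1 : (BM m).Indep (C ∪ elt J w '' I) ↔ LinearIndepOn (ZMod 2) (vec m) (C ∪ elt J w '' I) := by
      unfold BM
      rw [linMat_indep]
      simp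
    rw [h1, ← hCind.quotient_iff_union hdis]
    set P := span (ZMod 2) (vec m '' C) with hP
    set ι : (Fin d → ZMod 2) →ₗ[ZMod 2] Vm m :=
      (LinearMap.inl (ZMod 2) (Fin m → ZMod 2) (ZMod 2 × (Fin 3 → ZMod 2))).comp (lin J) with hι
    have h2 : (mkQ P ∘ vec m) ∘ elt J w = (mkQ P).comp ι ∘ w := by
      funext e
      simp only [Function.comp_apply, LinearMap.comp_apply]
      rw [mkQ_apply, mkQ_apply, Submodule.Quotient.eq]
      have h3 : vec m (elt J w e) - ι (w e) = ∑ k : Fin 3, vec m (con J (e, k)) := by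
        ext j
        · simp [hι, vec, elt, con, Prod.fst_sum]
        · simp only [hι, vec, elt, con, Prod.snd_sum, Prod.fst_sum, Prod.snd_sub, Prod.fst_sub,
            LinearMap.comp_apply, LinearMap.inl_apply]
          decide
        · simp [hι, vec, elt, con, Prod.snd_sum]
      rw [h3]
      exact sum_mem fun k _ => subset_span ⟨_, ⟨_, rfl⟩, rfl⟩
    have h4 : LinearIndepOn (ZMod 2) (mkQ P ∘ vec m) (elt J w '' I) ↔
        LinearIndepOn (ZMod 2) ((mkQ P ∘ vec m) ∘ elt J w) I :=
      ⟨fun h => h.comp_of_image (elt_inj J w).injOn, fun h => h.image_of_comp⟩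
    rw [h4, h2]
    symm
    apply LinearMap.linearIndepOn_iff_of_injOn
    apply Function.Injective.injOn
    rw [← LinearMap.ker_eq_bot, LinearMap.ker_eq_bot']
    intro y hy
    rw [LinearMap.comp_apply, mkQ_apply, Submodule.Quotient.mk_eq_zero] at hy
    have h5 : P ≤ LinearMap.ker (prj J) := by
      rw [hP, span_le]
      rintro _ ⟨_, ⟨p, rfl⟩, rfl⟩
      rw [SetLike.mem_coe, LinearMap.mem_ker]
      funext i
      change un m (J (Sum.inr p)) (J (Sum.inl i)) = 0
      rw [un_apply, if_neg]
      intro h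
      exact absurd (J.injective h) (by simp)
    have h6 := h5 hy
    rw [LinearMap.mem_ker] at h6
    funext i
    have h7 := congrFun h6 i
    change lin J y (J (Sum.inl i)) = 0 at h7
    rw [lin_inl] at h7
    exact h7

end Pool.Agent.Work.MP_16b4d3_co.Bin
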