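import Pool.Agent.Work.MP_16b4d3_co.Core

open Set

namespace Pool.MP16b4d3

variable {α : Type*} {M : Matroid α}

/-- the basic step for a base `B ⊇ X` with `(B \ X) ∪ Z` of corank at most one. -/
lemma step [M.Finite] {X C1 Z B : Set α} {k : ℕ} (hZE : Z ⊆ M.E) (hC1E : C1 ⊆ M.E)
    (hXn : X.Nonempty) (hXk : X.ncard ≤ k) (hth : Thick M k C1 Z)
    (hXZ : Disjoint X Z) (hB : M.IsBase B) (hXB : X ⊆ B)
    (hC1 : C1 ⊆ M.closure (B \ X)) (hr : rk M M.E ≤ rk M ((B \ X) ∪ Z) + 1)
    (hbad : ¬ Good M X) :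
    ∃ x ∈ X, M.closure ((B \ X) ∪ Z) = M.closure (B \ {x}) ∧
      ∀ e ∈ M.E, e ∉ M.closure (B \ {x}) → e ∈ M.closure (insert x (B \ X)) := by
  classical
  have hBE := hB.subset_ground
  have hBf : B.Finite := M.ground_finite.subset hBE
  have hXE : X ⊆ M.E := hXB.trans hBE
  have hCE : B \ X ⊆ M.E := sdiff_subset.trans hBE
  have hindep : ∀ x ∈ X, x ∉ M.closure (B \ X) := by
    intro x hx h
    apply hB.indep.notMem_closure_sdiff_of_mem (hXB hx)
    exact M.closure_subset_closure (sdiff_subset_sdiff_right (singleton_subset_iff.2 hx)) h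
  -- L0 with a general F
  have hL0 : ∀ F ⊆ M.E, C1 ⊆ M.closure F → (∀ x ∈ X, x ∉ M.closure F) →
      ¬ (X ⊆ M.closure (F ∪ Z)) := by
    intro F hF h1 h2 h3
    exact hbad (Or.inr (L0 hXE hZE hC1E hF hXn hXk hth h1 h2 h3))
  obtain hL2 | ⟨x, hx, hZx⟩ := L2 hZE hC1E hXn hXk hth hXZ hB hXB hC1
  · exact absurd (Or.inl hL2) hbad
  have hxB := hXB hx
  have hrB := base_rk hB
  have hrx : rk M (B \ {x}) + 1 = rk M M.E := by
    rw [indep_rk (hB.indep.subset sdiff_subset), ← hrB]
    exact Set.ncard_sdiff_singleton_add_one hxB hBf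
  have hsub : M.closure ((B \ X) ∪ Z) ⊆ M.closure (B \ {x}) := by
    apply M.closure_subset_closure_of_subset_closure
    apply union_subset _ hZx
    exact (sdiff_subset_sdiff_right (singleton_subset_iff.2 hx)).trans
      (M.subset_closure _ (sdiff_subset.trans hBE))
  have heq : M.closure ((B \ X) ∪ Z) = M.closure (B \ {x}) := closure_eq_of_rk hsub (by omega)
  refine ⟨x, hx, heq, ?_⟩
  intro e he heG
  by_contra hcon
  apply hL0 (insert e (B \ X)) (insert_subset he hCE)
    (hC1.trans (M.closure_subset_closure (subset_insert _ _)))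
  · intro y hy hcl
    have h1 := M.mem_closure_insert (hindep y hy) hcl
    by_cases hyx : y = x
    · subst hyx; exact hcon h1
    · apply heG
      have : M.closure (insert y (B \ X)) ⊆ M.closure (B \ {x}) := by
        apply M.closure_subset_closure
        apply insert_subset
        · exact ⟨hXB hy, hyx⟩
        · exact sdiff_subset_sdiff_right (singleton_subset_iff.2 hx)
      exact this h1
  · have hfull : M.closure (insert e (B \ X) ∪ Z) = M.E := by
      apply ground_subset_closure_of_rk
      have h2 : e ∉ M.closure ((B \ X) ∪ Z) := by rw [heq]; exact heG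
      have h3 := rk_insert_of_notMem he h2
      rw [insert_union]
      omega
    rw [hfull]; exact hXE

theorem T1rel [M.Finite] {X C1 Z : Set α} {k j : ℕ} (hk : 2 ≤ k) (hXE : X ⊆ M.E) (hZE : Z ⊆ M.E)
    (hC1E : C1 ⊆ M.E) (hXk : X.ncard = k) (hXC : Disjoint X C1) (hXZ : Disjoint X Z)
    (hj : rk M (X ∪ C1) ≤ rk M C1 + j ∨ k = j + 1)
    (H1 : ∀ x ∈ X, x ∉ M.closure C1) (H2 : Thick M k C1 Z)
    (H3 : ∀ A ⊆ M.E, X ⊆ A → Disjoint A Z →
      rk M C1 + rk M M.E + j ≤ rk M (A ∪ C1) + rk M ((M.E \ A) ∪ C1))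
    (H4 : ∀ x ∈ X, ∀ P, M.IsFlat P → C1 ⊆ P → ¬ (Z ⊆ P) → ∀ A ⊆ P, x ∈ A →
      rk M C1 + rk M M.E + 1 ≤ rk M (A ∪ C1) + rk M ((M.E \ A) ∪ C1)) :
    Good M X := by
  classical
  by_contra hbad
  have hXf : X.Finite := M.ground_finite.subset hXE
  have hXn : X.Nonempty := by
    rw [← Set.ncard_pos hXf]; omega
  have hL0 : ∀ F ⊆ M.E, C1 ⊆ M.closure F → (∀ x ∈ X, x ∉ M.closure F) →
      ¬ (X ⊆ M.closure (F ∪ Z)) := by
    intro F hF h1 h2 h3
    exact hbad (Or.inr (L0 hXE hZE hC1E hF hXn hXk.le H2 h1 h2 h3))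
  -- linking data for cuts avoiding `Z`
  set V := M.E \ (X ∪ Z) with hV
  have hVE : V ⊆ M.E := sdiff_subset
  have hcut : ∀ U ⊆ V, rk M C1 + rk M M.E + j ≤
      rk M (U ∪ (X ∪ C1)) + rk M ((V \ U) ∪ (Z ∪ C1)) := by
    intro U hU
    have h := H3 (U ∪ X) (union_subset (hU.trans hVE) hXE) subset_union_right (by
      rw [disjoint_union_left]
      refine ⟨?_, hXZ⟩
      rw [disjoint_left]
      intro a ha haZ
      exact (hU ha).2 (Or.inr haZ))
    have h1 : rk M (U ∪ X ∪ C1) = rk M (U ∪ (X ∪ C1)) := by rw [union_assoc]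
    have h2 : rk M ((M.E \ (U ∪ X)) ∪ C1) ≤ rk M ((V \ U) ∪ (Z ∪ C1)) := by
      apply rk_mono
      rintro a (⟨ha, ha'⟩ | ha)
      · by_cases haZ : a ∈ Z
        · exact Or.inr (Or.inl haZ)
        · left
          refine ⟨⟨ha, ?_⟩, fun h' => ha' (Or.inl h')⟩
          rintro (h' | h')
          · exact ha' (Or.inr h')
          · exact haZ h'
      · exact Or.inr (Or.inr ha)
    omega
  have hXC1_le : rk M (X ∪ C1) ≤ rk M C1 + k := by
    rw [union_comm, ← hXk]; exact rk_union_le_ncard hXE
  have hXC1_ge : rk M C1 + j ≤ rk M (X ∪ C1) := by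
    have h := H3 X hXE subset_rfl hXZ
    have h1 := rk_le_ground (M := M) ((M.E \ X) ∪ C1)
    omega
  by_cases hcase : rk M (X ∪ C1) = rk M C1 + j
  · -- Case 1
    obtain ⟨I, hIV, hIm, hIP, hIQ⟩ := link (M := M) V.ncard V hVE rfl (X ∪ C1) (Z ∪ C1)
      (rk M M.E - rk M (Z ∪ C1)) (by
        intro U hU
        have h1 := hcut U hU
        have h2 := rk_le_ground (M := M) (Z ∪ C1)
        omega)
    have hIE : I ⊆ M.E := hIV.trans hVE
    have h2 := rk_le_ground (M := M) (Z ∪ C1)
    have hsp : rk M M.E ≤ rk M (I ∪ (Z ∪ C1)) := by omega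
    apply hL0 (C1 ∪ I) (union_subset hC1E hIE)
      (M.subset_closure_of_subset' subset_union_left hC1E)
    · intro x hx hcl
      have h3 := free_mono (M := M) (P := X ∪ C1) (P' := insert x C1) (I := I)
        (insert_subset (Or.inl hx) subset_union_right) hIE (by omega)
      have h4 := free_mono (M := M) (P := X ∪ C1) (P' := C1) (I := I)
        subset_union_right hIE (by omega)
      have h5 := rk_insert_of_notMem (hXE hx) (H1 x hx)
      have h6 := rk_insert_of_mem hcl
      have h7 : insert x (C1 ∪ I) = I ∪ insert x C1 := by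
        ext a; simp only [mem_union, mem_insert_iff]; tauto
      rw [h7, union_comm C1 I] at h6
      omega
    · have h3 : C1 ∪ I ∪ Z = I ∪ (Z ∪ C1) := by
        ext a; simp only [mem_union]; tauto
      rw [h3, ground_subset_closure_of_rk hsp]
      exact hXE
  · -- Case 2
    have hXC1 : rk M (X ∪ C1) = rk M C1 + k := by omega
    obtain ⟨I1, hI1⟩ := M.exists_isBasis C1 hC1E
    have hI1E : I1 ⊆ M.E := hI1.indep.subset_ground
    have hI1n := basis_rk hI1
    have hI1cl : M.closure I1 = M.closure C1 := hI1.closure_eq_closure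
    have hI1C : I1 ⊆ C1 := hI1.subset
    obtain ⟨I, hIV, hIm, hIP, hIQ⟩ := link (M := M) V.ncard V hVE rfl (X ∪ C1) (Z ∪ C1)
      (rk M M.E - 1 - rk M (Z ∪ C1)) (by
        intro U hU
        have h1 := hcut U hU
        have h2 := rk_le_ground (M := M) (Z ∪ C1)
        have h3 : rk M (X ∪ C1) ≤ rk M (U ∪ (X ∪ C1)) := rk_mono subset_union_right
        have h4 : rk M (Z ∪ C1) ≤ rk M ((V \ U) ∪ (Z ∪ C1)) := rk_mono subset_union_right
        omega)
    have hIE : I ⊆ M.E := hIV.trans hVE
    have hIf : I.Finite := M.ground_finite.subset hIE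
    have hI1f : I1.Finite := M.ground_finite.subset hI1E
    -- base B
    have hBi : M.Indep (X ∪ (I1 ∪ I)) := by
      apply indep_of_rk (union_subset hXE (union_subset hI1E hIE))
      have h1 : rk M (X ∪ (I1 ∪ I)) = rk M (I ∪ (X ∪ C1)) := by
        have e1 : X ∪ (I1 ∪ I) = I1 ∪ (X ∪ I) := by ext a; simp only [mem_union]; tauto
        have e2 : I ∪ (X ∪ C1) = C1 ∪ (X ∪ I) := by ext a; simp only [mem_union]; tauto
        rw [e1, e2, ← rk_closure_union I1, hI1cl, rk_closure_union]
      have h2 : (X ∪ (I1 ∪ I)).ncard ≤ X.ncard + (I1.ncard + I.ncard) :=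
        (Set.ncard_union_le _ _).trans (Nat.add_le_add_left (Set.ncard_union_le _ _) _)
      omega
    obtain ⟨B, hB, hBsub⟩ := hBi.exists_isBase_superset
    have hBE := hB.subset_ground
    have hBf : B.Finite := M.ground_finite.subset hBE
    have hXB : X ⊆ B := subset_union_left.trans hBsub
    have hIB : I ⊆ B \ X := by
      intro a ha
      exact ⟨hBsub (Or.inr (Or.inr ha)), fun h => (hIV ha).2 (Or.inl h)⟩
    have hI1B : I1 ⊆ B \ X := by
      intro a ha
      exact ⟨hBsub (Or.inr (Or.inl ha)), fun h => (disjoint_left.1 hXC) h (hI1C ha)⟩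
    have hC1B : C1 ⊆ M.closure (B \ X) := by
      refine (M.subset_closure C1 hC1E).trans ?_
      rw [← hI1cl]; exact M.closure_subset_closure hI1B
    have hr : rk M M.E ≤ rk M ((B \ X) ∪ Z) + 1 := by
      have h1 : rk M (I ∪ (Z ∪ C1)) ≤ rk M ((B \ X) ∪ Z) := by
        have h2 : rk M (M.closure (B \ X) ∪ Z) = rk M ((B \ X) ∪ Z) := rk_closure_union _ _
        rw [← h2]
        apply rk_mono
        rintro a (ha | ha | ha)
        · exact Or.inl (M.mem_closure_of_mem' (hIB ha) (hIE ha))
        · exact Or.inr ha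
        · exact Or.inl (hC1B ha)
      have h2 := rk_le_ground (M := M) (Z ∪ C1)
      omega
    obtain ⟨x1, hx1, hG, hstep⟩ := step hZE hC1E hXn hXk.le H2 hXZ hB hXB hC1B hr hbad
    have hx1E := hXE hx1
    have hrB := base_rk hB
    have hrG : rk M (B \ {x1}) + 1 = rk M M.E := by
      rw [indep_rk (hB.indep.subset sdiff_subset), ← hrB]
      exact Set.ncard_sdiff_singleton_add_one (hXB hx1) hBf
    have hrBX : rk M (B \ X) + k = rk M M.E := by
      rw [indep_rk (hB.indep.subset sdiff_subset), ← hrB, ← hXk]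
      exact Set.ncard_sdiff_add_ncard_of_subset hXB hBf
    have hx1G : x1 ∉ M.closure (B \ {x1}) := hB.indep.notMem_closure_sdiff_of_mem (hXB hx1)
    have hx1C : x1 ∉ M.closure (B \ X) := fun h => hx1G
      (M.closure_subset_closure (sdiff_subset_sdiff_right (singleton_subset_iff.2 hx1)) h)
    set P := M.closure (insert x1 (B \ X)) with hP
    have hPE : P ⊆ M.E := M.closure_subset_ground _
    have hCE : B \ X ⊆ M.E := sdiff_subset.trans hBE
    have hCP : B \ X ⊆ P := (subset_insert _ _).trans (M.subset_closure _ (insert_subset hx1E hCE))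
    have hx1P : x1 ∈ P := M.mem_closure_of_mem' (mem_insert _ _) hx1E
    have hrP : rk M P + k = rk M M.E + 1 := by
      rw [hP, rk_closure, rk_insert_of_notMem hx1E hx1C]; omega
    have hrCZ : rk M ((B \ X) ∪ Z) + 1 = rk M M.E := by
      rw [← rk_closure, hG, rk_closure]; exact hrG
    have hXP : ∀ x ∈ X, x ∈ P → x = x1 := by
      intro x hx hxP
      by_contra hne
      apply hB.indep.notMem_closure_sdiff_of_mem (hXB hx)
      refine M.closure_subset_closure ?_ hxP
      apply insert_subset
      · exact ⟨hXB hx1, fun h => hne h.symm⟩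
      · exact sdiff_subset_sdiff_right (singleton_subset_iff.2 hx)
    have hZP : ¬ (Z ⊆ P) := by
      intro hZP
      have h1 : rk M ((B \ X) ∪ Z) + rk M B ≤ rk M P + rk M (M.closure (B \ {x1})) := by
        apply rk_submod'
        · exact union_subset hCP hZP
        · rw [← hG]; exact M.subset_closure _ (union_subset hCE hZE)
        · intro b hb
          by_cases hbx : b = x1
          · left; rw [hbx]; exact hx1P
          · right; exact M.mem_closure_of_mem' ⟨hb, hbx⟩ (hBE hb)
      have h3 : rk M (M.closure (B \ {x1})) = rk M (B \ {x1}) := rk_closure _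
      have h2 : rk M B = rk M M.E := by rw [indep_rk hB.indep, hrB]
      omega
    have hC1P : C1 ⊆ P := hC1B.trans (M.closure_subset_closure (subset_insert _ _))
    have hPflat : M.IsFlat P := M.isFlat_closure _
    -- second linking
    have hP'r : rk M (insert x1 C1) = rk M C1 + 1 := rk_insert_of_notMem hx1E (H1 x1 hx1)
    obtain ⟨I', hI'V, hI'm, hI'P, hI'Q⟩ := link (M := M) (P \ {x1}).ncard (P \ {x1})
      (sdiff_subset.trans hPE) rfl (insert x1 C1) ((M.E \ P) ∪ C1)
      (rk M M.E - rk M ((M.E \ P) ∪ C1)) (by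
        intro U hU
        have h1 := H4 x1 hx1 P hPflat hC1P hZP (insert x1 U)
          (insert_subset hx1P (hU.trans sdiff_subset)) (mem_insert _ _)
        have h2 := rk_le_ground (M := M) ((M.E \ P) ∪ C1)
        have h3 : insert x1 U ∪ C1 = U ∪ insert x1 C1 := by
          ext a; simp only [mem_union, mem_insert_iff]; tauto
        have h4 : rk M ((M.E \ insert x1 U) ∪ C1) ≤
            rk M (((P \ {x1}) \ U) ∪ ((M.E \ P) ∪ C1)) := by
          apply rk_mono
          rintro a (⟨ha, ha'⟩ | ha)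
          · by_cases haP : a ∈ P
            · left
              exact ⟨⟨haP, fun h => ha' (Or.inl h)⟩, fun h => ha' (Or.inr h)⟩
            · exact Or.inr (Or.inl ⟨ha, haP⟩)
          · exact Or.inr (Or.inr ha)
        rw [h3] at h1
        omega)
    have hI'E : I' ⊆ M.E := hI'V.trans (sdiff_subset.trans hPE)
    have hI'P0 : I' ⊆ P := hI'V.trans sdiff_subset
    have hI'f : I'.Finite := M.ground_finite.subset hI'E
    have h2' := rk_le_ground (M := M) ((M.E \ P) ∪ C1)
    have hsp : rk M M.E ≤ rk M (I' ∪ ((M.E \ P) ∪ C1)) := by omega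
    have hJi : M.Indep (insert x1 (I1 ∪ I')) := by
      apply indep_of_rk (insert_subset hx1E (union_subset hI1E hI'E))
      have h1 : rk M (insert x1 (I1 ∪ I')) = rk M (I' ∪ insert x1 C1) := by
        have e1 : insert x1 (I1 ∪ I') = I1 ∪ insert x1 I' := by
          ext a; simp only [mem_union, mem_insert_iff]; tauto
        have e2 : I' ∪ insert x1 C1 = C1 ∪ insert x1 I' := by
          ext a; simp only [mem_union, mem_insert_iff]; tauto
        rw [e1, e2, ← rk_closure_union I1, hI1cl, rk_closure_union]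
      have h2 : (insert x1 (I1 ∪ I')).ncard ≤ (I1.ncard + I'.ncard) + 1 :=
        (Set.ncard_insert_le _ _).trans (Nat.add_le_add_right (Set.ncard_union_le _ _) _)
      omega
    obtain ⟨J, hJ, hJsub⟩ := hJi.subset_isBasis_of_subset (X := P)
      (insert_subset hx1P (union_subset (hI1C.trans hC1P) hI'P0)) hPE
    have hJcl : M.closure J = P := by rw [hJ.closure_eq_closure, hPflat.closure]
    have hJn := basis_rk hJ
    have hJP : J ⊆ P := hJ.subset
    have hJE : J ⊆ M.E := hJP.trans hPE
    have hx1J : x1 ∈ J := hJsub (mem_insert _ _)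
    -- the base B'
    have hB'E : J ∪ X ⊆ M.E := union_subset hJE hXE
    have hB' : M.IsBase (J ∪ X) := by
      apply base_of_rk hB'E
      · have h1 : rk M B ≤ rk M (J ∪ X) := by
          rw [← rk_closure_union, hJcl]
          apply rk_mono
          intro b hb
          by_cases hbX : b ∈ X
          · exact Or.inr hbX
          · exact Or.inl (hCP ⟨hb, hbX⟩)
        have h2 : rk M B = rk M M.E := by rw [indep_rk hB.indep, hrB]
        omega
      · have h1 : J ∪ X = J ∪ (X \ {x1}) := by
          ext a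
          simp only [mem_union, mem_sdiff, mem_singleton_iff]
          constructor
          · rintro (h | h)
            · exact Or.inl h
            · by_cases hax : a = x1
              · left; rw [hax]; exact hx1J
              · right; exact ⟨h, hax⟩
          · rintro (h | ⟨h, -⟩)
            · exact Or.inl h
            · exact Or.inr h
        rw [h1]
        refine (Set.ncard_union_le _ _).trans ?_
        have h2 := Set.ncard_sdiff_singleton_add_one hx1 hXf
        omega
    have hI1J : I1 ⊆ (J ∪ X) \ X := by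
      intro a ha
      exact ⟨Or.inl (hJsub (Or.inr (Or.inl ha))), fun h => (disjoint_left.1 hXC) h (hI1C ha)⟩
    have hC1B' : C1 ⊆ M.closure ((J ∪ X) \ X) := by
      refine (M.subset_closure C1 hC1E).trans ?_
      rw [← hI1cl]; exact M.closure_subset_closure hI1J
    have hJsub2 : J ⊆ insert x1 ((J ∪ X) \ X) := by
      intro a ha
      by_cases haX : a ∈ X
      · left; exact hXP a haX (hJP ha)
      · right; exact ⟨Or.inl ha, haX⟩
    have hJZ : rk M M.E ≤ rk M (J ∪ Z) := by
      rw [← rk_closure_union, hJcl]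
      have h1 : rk M (insert x1 ((B \ X) ∪ Z)) ≤ rk M (P ∪ Z) := by
        apply rk_mono
        have h0 : x1 ∈ P ∪ Z := Or.inl hx1P
        exact insert_subset h0 (union_subset_union_left _ hCP)
      have h2 : x1 ∉ M.closure ((B \ X) ∪ Z) := by rw [hG]; exact hx1G
      rw [rk_insert_of_notMem hx1E h2] at h1
      omega
    have hsub3 : J ∪ Z ⊆ insert x1 (((J ∪ X) \ X) ∪ Z) := by
      rintro a (ha | ha)
      · rcases hJsub2 ha with h | h
        · exact Or.inl h
        · exact Or.inr (Or.inl h)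
      · exact Or.inr (Or.inr ha)
    have hr' : rk M M.E ≤ rk M (((J ∪ X) \ X) ∪ Z) + 1 := by
      have h1 := rk_insert_le (M := M) x1 (((J ∪ X) \ X) ∪ Z)
      have h2 : rk M (J ∪ Z) ≤ rk M (insert x1 (((J ∪ X) \ X) ∪ Z)) := rk_mono hsub3
      omega
    obtain ⟨x2, hx2, hG', hstep'⟩ := step hZE hC1E hXn hXk.le H2 hXZ hB' subset_union_right
      hC1B' hr' hbad
    have hrB' := base_rk hB'
    have hrG' : rk M ((J ∪ X) \ {x2}) + 1 = rk M M.E := by
      rw [indep_rk (hB'.indep.subset sdiff_subset), ← hrB']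
      exact Set.ncard_sdiff_singleton_add_one (Or.inr hx2) (M.ground_finite.subset hB'E)
    have hx12 : x2 = x1 := by
      by_contra hne
      have h1 : x1 ∈ M.closure ((J ∪ X) \ {x2}) :=
        M.mem_closure_of_mem' ⟨Or.inl hx1J, fun h => hne h.symm⟩ hx1E
      rw [← hG'] at h1
      have h2 := rk_insert_of_mem h1
      have h3 : rk M (J ∪ Z) ≤ rk M (insert x1 (((J ∪ X) \ X) ∪ Z)) := rk_mono hsub3
      have h4 : rk M (((J ∪ X) \ X) ∪ Z) + 1 = rk M M.E := by
        rw [← rk_closure, hG', rk_closure]; exact hrG'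
      omega
    subst hx12
    have hEP : M.E \ P ⊆ M.closure ((J ∪ X) \ {x2}) := by
      rintro e ⟨he, heP⟩
      by_contra hcon
      apply heP
      have h1 := hstep' e he hcon
      rw [← hJcl]
      refine M.closure_subset_closure ?_ h1
      apply insert_subset hx1J
      rintro a ⟨ha | ha, ha'⟩
      · exact ha
      · exact absurd ha ha'
    have hfin : rk M (I' ∪ ((M.E \ P) ∪ C1)) ≤ rk M (M.closure ((J ∪ X) \ {x2})) := by
      apply rk_mono
      rintro a (ha | ha | ha)
      · apply M.mem_closure_of_mem' _ (hI'E ha)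
        exact ⟨Or.inl (hJsub (Or.inr (Or.inr ha))), (hI'V ha).2⟩
      · exact hEP ha
      · refine M.closure_subset_closure ?_ (hC1B' ha)
        exact sdiff_subset_sdiff_right (singleton_subset_iff.2 hx2)
    rw [rk_closure] at hfin
    omega

end Pool.MP16b4d3
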