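import Pool.Agent.Work.MP_16b4d3_co.Lam
import Pool.Agent.Work.MP_16b4d3_co.T1

open Set

namespace Pool.MP16b4d3

variable {α : Type*} {M : Matroid α}

/-- `A` does not span `Z` over `C0`. -/
def Small (M : Matroid α) (C0 Z A : Set α) : Prop := ¬ (Z ⊆ M.closure (C0 ∪ (A ∩ Z)))

def Req (M : Matroid α) (j : ℕ) (X C0 Z C1 : Set α) : Prop :=
  (∀ A ⊆ M.E, X ⊆ A → Small M C0 Z A → (j : ℤ) ≤ lam M C1 A) ∧
  (∀ x ∈ X, ∀ A ⊆ M.E, x ∈ A → Small M C0 Z A → 1 ≤ lam M C1 A)

lemma Small.mono {C0 Z A B : Set α} (hAB : A ⊆ B) (h : Small M C0 Z B) : Small M C0 Z A := by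
  intro h1
  apply h
  refine h1.trans (M.closure_subset_closure ?_)
  exact union_subset_union_right _ (inter_subset_inter_left _ hAB)

lemma small_insert {C0 Z A : Set α} {e : α} (he : e ∈ C0) (h : Small M C0 Z A) :
    Small M C0 Z (insert e A) := by
  intro h1
  apply h
  refine h1.trans (M.closure_subset_closure ?_)
  rintro a (ha | ⟨rfl | ha, ha'⟩)
  · exact Or.inl ha
  · exact Or.inl he
  · exact Or.inr ⟨ha, ha'⟩

lemma small_empty [M.Finite] {C0 Z : Set α} (h : rk M C0 < rk M (C0 ∪ Z)) :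
    Small M C0 Z ∅ := by
  intro h1
  rw [empty_inter, union_empty] at h1
  have := rk_union_of_subset_closure h1
  omega

/-- the case of a tight set `D` which spans `Z` over `C0`, as does `Z \ D`. -/
lemma big_case [M.Finite] {k j : ℕ} (hk : 2 ≤ k) {X C0 C1 Z D : Set α} (hXE : X ⊆ M.E)
    (hZE : Z ⊆ M.E) (hC0E : C0 ⊆ M.E) (hXk : X.ncard = k) (hXC : Disjoint X C0)
    (hXZ : Disjoint X Z) (hj : rk M X ≤ j ∨ k = j + 1) (hj1 : 1 ≤ j)
    (hrk : rk M C0 + j ≤ rk M (C0 ∪ Z)) (h10 : C1 ⊆ C0) (hreq : Req M j X C0 Z C1)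
    (hDE : D ⊆ M.E) (hXD : X ⊆ D) (hlamD : lam M C1 D ≤ j)
    (hbigD : Z ⊆ M.closure (C0 ∪ (D ∩ Z))) (hth : Thick M k C0 (Z \ D))
    (hsp : Z ⊆ M.closure (C0 ∪ (Z \ D))) : Good M X := by
  classical
  have hC1E : C1 ⊆ M.E := h10.trans hC0E
  set Z' := Z \ D with hZ'
  have hZ'E : Z' ⊆ M.E := sdiff_subset.trans hZE
  have hZ'D : Z' ⊆ M.E \ D := by
    rintro z ⟨hz, hz'⟩; exact ⟨hZE hz, hz'⟩
  -- all the connectivities of `D` agree
  have hlow : ∀ C ⊆ C0, ∀ A, D ⊆ A → (∃ T ⊆ M.E \ A, T ⊆ Z ∧ Z ⊆ M.closure (C0 ∪ T)) →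
      (j : ℤ) ≤ lam M C A := by
    rintro C hC A hDA ⟨T, hT1, hT2, hT3⟩
    have := lam_big (M := M) (A := A) (S := D ∩ Z) (T := T) hC hC0E
      (inter_subset_left.trans hDA) hT1 inter_subset_right hT2 hbigD hT3
    omega
  have hlamC0D : (j : ℤ) ≤ lam M C0 D := hlow C0 subset_rfl D subset_rfl ⟨Z', hZ'D, sdiff_subset, hsp⟩
  set S := C1 ∪ (C0 ∩ D) with hS
  have hSC0 : S ⊆ C0 := union_subset h10 inter_subset_left
  set C3 := C1 ∪ (C0 \ D) with hC3
  have h30 : C3 ⊆ C0 := union_subset h10 sdiff_subset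
  have h13 : C1 ⊆ C3 := subset_union_left
  have hC3E : C3 ⊆ M.E := h30.trans hC0E
  have hineq1 : rk M S + rk M (D ∪ C0) ≤ rk M (D ∪ C1) + rk M C0 := by
    apply rk_submod'
    · rintro a (ha | ⟨-, ha⟩)
      · exact Or.inr ha
      · exact Or.inl ha
    · exact hSC0
    · rintro a (ha | ha)
      · exact Or.inl (Or.inl ha)
      · exact Or.inr ha
  have hineq2 : rk M C1 + rk M ((M.E \ D) ∪ C0) ≤ rk M ((M.E \ D) ∪ C1) + rk M S := by
    apply rk_submod'
    · exact subset_union_right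
    · exact subset_union_left
    · rintro a (ha | ha)
      · exact Or.inl (Or.inl ha)
      · by_cases haA : a ∈ D
        · exact Or.inr (Or.inr ⟨ha, haA⟩)
        · exact Or.inl (Or.inl ⟨hC0E ha, haA⟩)
  have heq1 : rk M S + rk M (D ∪ C0) = rk M (D ∪ C1) + rk M C0 := by
    unfold lam at hlamD hlamC0D
    omega
  have heq2 : rk M C1 + rk M ((M.E \ D) ∪ C0) = rk M ((M.E \ D) ∪ C1) + rk M S := by
    unfold lam at hlamD hlamC0D
    omega
  -- `S` is skew to every subset of `(E \ D) ∪ C1` over `C1`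
  have hskS : ∀ W ⊆ (M.E \ D) ∪ C1, C1 ⊆ W → rk M (W ∪ S) + rk M C1 = rk M W + rk M S := by
    intro W hW hCW
    have h1 : rk M C1 + rk M (W ∪ S) ≤ rk M W + rk M S :=
      rk_submod' hCW subset_union_left subset_rfl
    have h2 : rk M W + rk M ((M.E \ D) ∪ C0) ≤ rk M ((M.E \ D) ∪ C1) + rk M (W ∪ S) := by
      apply rk_submod' hW subset_union_left
      rintro a (ha | ha)
      · exact Or.inl (Or.inl ha)
      · by_cases haA : a ∈ D
        · exact Or.inr (Or.inr (Or.inr ⟨ha, haA⟩))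
        · exact Or.inl (Or.inl ⟨hC0E ha, haA⟩)
    omega
  have hC3W : C3 ⊆ (M.E \ D) ∪ C1 := by
    rintro a (ha | ⟨ha, ha'⟩)
    · exact Or.inr ha
    · exact Or.inl ⟨hC0E ha, ha'⟩
  have hC3S : C3 ∪ S = C0 := by
    apply subset_antisymm (union_subset h30 hSC0)
    intro a ha
    by_cases haD : a ∈ D
    · exact Or.inr (Or.inr ⟨ha, haD⟩)
    · exact Or.inl (Or.inr ⟨ha, haD⟩)
  have hsk1 : rk M C0 + rk M C1 = rk M C3 + rk M S := by
    have := hskS C3 hC3W h13
    rwa [hC3S] at this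
  have hsk2 : rk M (C0 ∪ Z') + rk M C1 = rk M (C3 ∪ Z') + rk M S := by
    have := hskS (C3 ∪ Z') (union_subset hC3W (hZ'D.trans subset_union_left))
      (h13.trans subset_union_left)
    have e : C3 ∪ Z' ∪ S = C0 ∪ Z' := by
      rw [← hC3S]; ext a; simp only [mem_union]; tauto
    rwa [e] at this
  -- `C3` is skew to every subset of `D ∪ C1` over `C1`
  have hskC : ∀ W ⊆ D ∪ C1, C1 ⊆ W → rk M W + rk M C3 ≤ rk M (W ∪ C3) + rk M C1 := by
    intro W hW hCW
    have h2 : rk M W + rk M (D ∪ C0) ≤ rk M (D ∪ C1) + rk M (W ∪ C3) := by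
      apply rk_submod' hW subset_union_left
      rintro a (ha | ha)
      · exact Or.inl (Or.inl ha)
      · by_cases haA : a ∈ D
        · exact Or.inl (Or.inl haA)
        · exact Or.inr (Or.inr (Or.inr ⟨ha, haA⟩))
    omega
  have hlamC3 : ∀ A ⊆ D, lam M C1 A ≤ lam M C3 A := by
    intro A hA
    have h1 := hskC (A ∪ C1) (union_subset_union_left _ hA) subset_union_right
    have e1 : A ∪ C1 ∪ C3 = A ∪ C3 := by
      rw [union_assoc, union_eq_right.2 h13]
    rw [e1] at h1
    have h2 : rk M ((M.E \ A) ∪ C1) ≤ rk M ((M.E \ A) ∪ C3) :=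
      rk_mono (union_subset_union_right _ h13)
    unfold lam
    omega
  -- thickness
  have hthC3 : Thick M k C3 Z' := by
    obtain ⟨J, -, hJC, hJr, hJs⟩ := exists_relBasis (M := M) (C := C3) (D := C0)
      (I0 := ∅) hC0E (empty_subset _) (by simp)
    have hJE : J ⊆ M.E := hJC.trans hC0E
    have e0 : C0 ∪ C3 = C0 := union_eq_left.2 h30
    rw [e0] at hJs
    have hcl : M.closure (J ∪ C3) = M.closure C0 := by
      apply closure_eq_of_rk
      · exact M.closure_subset_closure (union_subset hJC h30)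
      · exact hJs.ge
    apply Thick.drop (J := J) hJE hZ'E
    · have h1 : rk M (J ∪ (C3 ∪ Z')) = rk M (C0 ∪ Z') := by
        rw [← union_assoc, ← rk_closure_union (J ∪ C3), hcl, rk_closure_union]
      omega
    · exact hth.congr_closure hcl.symm
  -- general estimate
  have hgen : ∀ A ⊆ M.E, (∃ T ⊆ M.E \ (A ∪ D), T ⊆ Z ∧ Z ⊆ M.closure (C0 ∪ T)) →
      lam M C1 (A ∩ D) ≤ lam M C3 A := by
    rintro A hA ⟨T, hT1, hT2, hT3⟩
    have h1 := lam_submod (M := M) C3 A D
    have h2 := hlamC3 (A ∩ D) inter_subset_right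
    have h3 := hlow C3 h30 (A ∪ D) subset_union_right ⟨T, hT1, hT2, hT3⟩
    have h4 := lam_anti (M := M) (A := D) h13 hC3E
    omega
  have hjC3 : rk M (X ∪ C3) ≤ rk M C3 + j ∨ k = j + 1 := by
    rcases hj with h | h
    · left
      have h1 : rk M ∅ + rk M (X ∪ C3) ≤ rk M X + rk M C3 :=
        rk_submod' (empty_subset _) (empty_subset _) subset_rfl
      omega
    · exact Or.inr h
  refine T1rel (j := j) hk hXE hZ'E hC3E hXk (hXC.mono_right h30) (hXZ.mono_right sdiff_subset)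
    hjC3 ?_ hthC3 ?_ ?_
  · -- H1
    intro x hx hcl
    have hxD := hXD hx
    have hsm : Small M C0 Z {x} := by
      intro h
      have h1 : ({x} : Set α) ∩ Z = ∅ := by
        ext a; simp only [mem_inter_iff, mem_singleton_iff, mem_empty_iff_false, iff_false]
        rintro ⟨rfl, h'⟩; exact (disjoint_left.1 hXZ) hx h'
      rw [h1, union_empty] at h
      have := rk_union_of_subset_closure h
      omega
    have h1 := hreq.2 x hx {x} (singleton_subset_iff.2 (hXE hx)) rfl hsm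
    have h2 := rk_insert_of_mem hcl
    have h3 := rk_le_ground (M := M) ((M.E \ {x}) ∪ C1)
    have h4 := hlamC3 {x} (singleton_subset_iff.2 hxD)
    have h5 := rk_le_ground (M := M) ((M.E \ {x}) ∪ C3)
    have h6 : (1 : ℤ) ≤ lam M C3 {x} := h1.trans h4
    unfold lam at h6
    rw [singleton_union] at h6
    omega
  · -- H3
    intro A hA hXA hdisj
    have hT : Z' ⊆ M.E \ (A ∪ D) := by
      intro z hz
      refine ⟨hZ'E hz, ?_⟩
      rintro (h | h)
      · exact (disjoint_left.1 hdisj) h hz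
      · exact hz.2 h
    have h1 := hgen A hA ⟨Z', hT, sdiff_subset, hsp⟩
    have h2 : (j : ℤ) ≤ lam M C1 (A ∩ D) := by
      by_cases hsm : Small M C0 Z (A ∩ D)
      · exact hreq.1 _ (inter_subset_left.trans hA) (subset_inter hXA hXD) hsm
      · have hbig : Z ⊆ M.closure (C0 ∪ (A ∩ D ∩ Z)) := not_not.1 hsm
        have hT' : Z' ⊆ M.E \ (A ∩ D) := by
          intro z hz
          exact ⟨hZ'E hz, fun h => hz.2 h.2⟩
        have := lam_big (M := M) (A := A ∩ D) (S := A ∩ D ∩ Z) (T := Z') h10 hC0E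
          inter_subset_left hT' inter_subset_right sdiff_subset hbig hsp
        omega
    have h3 := h2.trans h1
    unfold lam at h3
    omega
  · -- H4
    intro x hx P hP hC3P hZP A hAP hxA
    have hZP' : Z' ⊆ M.closure (C3 ∪ (Z' \ P)) := by
      obtain ⟨b, hb⟩ := hthC3.apply (ι := Bool) (by simpa using hk)
        (fun b => cond b P (univ \ P)) (by
          intro z hz
          by_cases h : z ∈ P
          · exact mem_iUnion.2 ⟨true, h⟩
          · exact mem_iUnion.2 ⟨false, mem_univ z, h⟩)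
      rcases b with _ | _
      · refine hb.trans (M.closure_subset_closure (union_subset_union_right _ ?_))
        rintro z ⟨⟨-, h⟩, hz⟩
        exact ⟨hz, h⟩
      · exfalso
        apply hZP
        have h5 : M.closure (C3 ∪ (P ∩ Z')) ⊆ M.closure P :=
          M.closure_subset_closure (union_subset hC3P inter_subset_left)
        rw [hP.closure] at h5
        exact Subset.trans hb h5
    have hspan2 : Z ⊆ M.closure (C0 ∪ (Z' \ P)) := by
      refine hsp.trans (M.closure_subset_closure_of_subset_closure ?_)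
      apply union_subset
      · exact M.subset_closure_of_subset' subset_union_left hC0E
      · exact hZP'.trans (M.closure_subset_closure (union_subset_union_left _ h30))
    have hT : Z' \ P ⊆ M.E \ (A ∪ D) := by
      rintro z ⟨hz, hz'⟩
      refine ⟨hZ'E hz, ?_⟩
      rintro (h | h)
      · exact hz' (hAP h)
      · exact hz.2 h
    have h1 := hgen A (hAP.trans hP.subset_ground)
      ⟨Z' \ P, hT, sdiff_subset.trans sdiff_subset, hspan2⟩
    have h2 : (1 : ℤ) ≤ lam M C1 (A ∩ D) := by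
      by_cases hsm : Small M C0 Z (A ∩ D)
      · exact hreq.2 x hx _ (inter_subset_right.trans hDE) ⟨hxA, hXD hx⟩ hsm
      · have hbig : Z ⊆ M.closure (C0 ∪ (A ∩ D ∩ Z)) := not_not.1 hsm
        have hT' : Z' ⊆ M.E \ (A ∩ D) := by
          intro z hz
          exact ⟨hZ'E hz, fun h => hz.2 h.2⟩
        have := lam_big (M := M) (A := A ∩ D) (S := A ∩ D ∩ Z) (T := Z') h10 hC0E
          inter_subset_left hT' inter_subset_right sdiff_subset hbig hsp
        omega
    have h3 := h2.trans h1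
    unfold lam at h3
    omega

end Pool.MP16b4d3
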