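import Pool.Agent.Work.MP_5f9c07_co.LinMat

/-!
A family of binary matroids: ranks by counting.
-/

set_option autoImplicit false
set_option linter.unusedSectionVars false

namespace Pool.Agent.Work.MP_16b4d3_co.Bin

open Set Submodule Module

section count

variable {ι V : Type} [AddCommGroup V] [Module (ZMod 2) V]

lemma add_self2 (x : V) : x + x = 0 := by
  have : ((1 : ZMod 2) + 1) • x = 0 := by
    rw [show (1 : ZMod 2) + 1 = 0 from by decide, zero_smul]
  rwa [add_smul, one_smul] at this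

lemma sum_symmDiff [DecidableEq ι] (v : ι → V) (T T' : Finset ι) :
    ∑ i ∈ symmDiff T T', v i = ∑ i ∈ T, v i + ∑ i ∈ T', v i := by
  have h1 : ∑ i ∈ T, v i = ∑ i ∈ T \ T', v i + ∑ i ∈ T ∩ T', v i := by
    rw [← Finset.sum_union (Finset.disjoint_sdiff_inter T T'), Finset.sdiff_union_inter]
  have h2 : ∑ i ∈ T', v i = ∑ i ∈ T' \ T, v i + ∑ i ∈ T ∩ T', v i := by
    rw [Finset.inter_comm, ← Finset.sum_union (Finset.disjoint_sdiff_inter T' T),
      Finset.sdiff_union_inter]
  have h3 : ∑ i ∈ symmDiff T T', v i = ∑ i ∈ T \ T', v i + ∑ i ∈ T' \ T, v i := by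
    rw [symmDiff_def, Finset.sup_eq_union, Finset.sum_union]
    rw [Finset.disjoint_left]
    intro x hx hx'
    rw [Finset.mem_sdiff] at hx hx'
    exact hx.2 hx'.1
  have h4 := add_self2 (∑ i ∈ T ∩ T', v i)
  rw [h3, h1, h2]
  calc ∑ i ∈ T \ T', v i + ∑ i ∈ T' \ T, v i
      = ∑ i ∈ T \ T', v i + ∑ i ∈ T' \ T, v i + (∑ i ∈ T ∩ T', v i + ∑ i ∈ T ∩ T', v i) := by
        rw [h4, add_zero]
    _ = _ := by abel

/-- A finite set inside a finite-dimensional space over the field with two elements. -/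
lemma card_le_two_pow (P : Submodule (ZMod 2) V) [FiniteDimensional (ZMod 2) P] (Y : Finset V)
    (h : ∀ y ∈ Y, y ∈ P) : Y.card ≤ 2 ^ finrank (ZMod 2) P := by
  have : Finite P := Module.finite_of_finite (ZMod 2)
  have h1 : Nat.card P = 2 ^ finrank (ZMod 2) P := by
    rw [Module.natCard_eq_pow_finrank (K := ZMod 2)]
    simp
  rw [← h1]
  have h2 : (Y : Set V) ⊆ (P : Set V) := fun y hy => h y hy
  have h3 := Set.ncard_le_ncard h2 (Set.toFinite _)
  rw [ncard_coe_finset] at h3
  exact h3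

lemma card_span [DecidableEq ι] [DecidableEq V] (v : ι → V) (S : Finset ι) :
    2 ^ S.card ≤ (S.powerset.filter (fun T => ∑ i ∈ T, v i = 0)).card *
      2 ^ finrank (ZMod 2) (span (ZMod 2) (v '' (S : Set ι))) := by
  have hfd : FiniteDimensional (ZMod 2) (span (ZMod 2) (v '' (S : Set ι))) :=
    FiniteDimensional.span_of_finite _ ((S.finite_toSet).image v)
  have h1 := Finset.card_le_mul_card_image (s := S.powerset) (f := fun T => ∑ i ∈ T, v i)
    (S.powerset.filter (fun T => ∑ i ∈ T, v i = 0)).card (by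
      intro a ha
      rw [Finset.mem_image] at ha
      obtain ⟨T0, hT0, rfl⟩ := ha
      have hT0' := Finset.mem_powerset.1 hT0
      apply Finset.card_le_card_of_injOn (fun T => symmDiff T T0)
      · intro T hT
        simp only [Finset.coe_filter, Finset.mem_powerset, mem_ofPred_eq] at hT ⊢
        refine ⟨?_, ?_⟩
        · intro x hx
          rw [Finset.mem_symmDiff] at hx
          rcases hx with hx | hx
          · exact hT.1 hx.1
          · exact hT0' hx.1
        · rw [sum_symmDiff, hT.2, add_self2]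
      · intro T _ T' _ heq
        exact symmDiff_left_injective T0 heq)
  rw [Finset.card_powerset] at h1
  refine h1.trans (Nat.mul_le_mul_left _ ?_)
  apply card_le_two_pow
  intro y hy
  rw [Finset.mem_image] at hy
  obtain ⟨T, hT, rfl⟩ := hy
  exact sum_mem fun i hi => subset_span ⟨i, Finset.mem_powerset.1 hT hi, rfl⟩

end count

/-- Eight vectors. -/
def fv : Fin 8 → (Fin 6 → ZMod 2) :=
  ![![0,1,0,1,1,0], ![1,0,0,1,1,1], ![0,0,1,1,0,1], ![1,0,1,0,1,1],
    ![0,0,0,0,1,0], ![0,0,0,0,0,1], ![1,0,0,0,0,1], ![0,0,0,1,0,0]]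

/-- Their projections. -/
def qv (i : Fin 8) : Fin 3 → ZMod 2 := fun j => fv i (j.natAdd 3)

lemma chk : ∀ S : Finset (Fin 8),
    (S.powerset.filter (fun T => ∀ j : Fin 6, ∑ i ∈ T, fv i j = 0)).card *
      (Sᶜ.powerset.filter (fun T => ∀ j : Fin 3, ∑ i ∈ T, qv i j = 0)).card *
        2 ^ (3 + min 3 S.card) ≤ 2 ^ 8 := by
  decide +kernel

lemma rank_block (S : Finset (Fin 8)) :
    3 + min 3 S.card ≤ finrank (ZMod 2) (span (ZMod 2) (fv '' (S : Set (Fin 8)))) +
      finrank (ZMod 2) (span (ZMod 2) (qv '' ((Sᶜ : Finset (Fin 8)) : Set (Fin 8)))) := by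
  have h1 := card_span fv S
  have h2 := card_span qv Sᶜ
  have h3 := chk S
  have e1 : (S.powerset.filter (fun T => ∑ i ∈ T, fv i = 0)) =
      (S.powerset.filter (fun T => ∀ j : Fin 6, ∑ i ∈ T, fv i j = 0)) := by
    apply Finset.filter_congr
    intro T _
    rw [funext_iff]
    simp [Finset.sum_apply]
  have e2 : (Sᶜ.powerset.filter (fun T => ∑ i ∈ T, qv i = 0)) =
      (Sᶜ.powerset.filter (fun T => ∀ j : Fin 3, ∑ i ∈ T, qv i j = 0)) := by
    apply Finset.filter_congr
    intro T _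
    rw [funext_iff]
    simp [Finset.sum_apply]
  rw [e1] at h1
  rw [e2] at h2
  set a := finrank (ZMod 2) (span (ZMod 2) (fv '' (S : Set (Fin 8)))) with ha
  set b := finrank (ZMod 2) (span (ZMod 2) (qv '' ((Sᶜ : Finset (Fin 8)) : Set (Fin 8)))) with hb
  set x := (S.powerset.filter (fun T => ∀ j : Fin 6, ∑ i ∈ T, fv i j = 0)).card with hx
  set y := (Sᶜ.powerset.filter (fun T => ∀ j : Fin 3, ∑ i ∈ T, qv i j = 0)).card with hy
  have h4 : 2 ^ 8 ≤ (x * y) * 2 ^ (a + b) := by
    have h5 : S.card + (Sᶜ).card = 8 := by simp [Finset.card_add_card_compl]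
    calc 2 ^ 8 = 2 ^ S.card * 2 ^ (Sᶜ).card := by rw [← pow_add, h5]
      _ ≤ (x * 2 ^ a) * (y * 2 ^ b) := Nat.mul_le_mul h1 h2
      _ = (x * y) * 2 ^ (a + b) := by rw [pow_add]; ring
  by_contra hcon
  push Not at hcon
  have h6 : 2 ^ (a + b + 1) ≤ 2 ^ (3 + min 3 S.card) := Nat.pow_le_pow_right (by norm_num) hcon
  have hpos : 0 < x * y := by
    by_contra h0
    have : x * y = 0 := by omega
    rw [this] at h4
    simp at h4
  have h7 : (x * y) * 2 ^ (a + b + 1) ≤ 2 ^ 8 := (Nat.mul_le_mul_left _ h6).trans h3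
  have h8 : (x * y) * 2 ^ (a + b) < (x * y) * 2 ^ (a + b + 1) := by
    apply Nat.mul_lt_mul_of_pos_left _ hpos
    exact Nat.pow_lt_pow_right (by norm_num) (by omega)
  omega

end Pool.Agent.Work.MP_16b4d3_co.Bin
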