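import Pool.Agent.Work.MP_16b4d3_co.Bin1

/-!
A family of binary matroids: the eight-element block on a binary affine geometry, and its
connectivity.
-/

set_option autoImplicit false
set_option linter.unusedSectionVars false

namespace Pool.Agent.Work.MP_16b4d3_co.Bin

open Set Submodule Module Pool.Agent.Work.MP_5f9c07_co

variable {m : ℕ}

/-- The ambient space. -/
abbrev Vm (m : ℕ) : Type := (Fin m → ZMod 2) × ZMod 2 × (Fin 3 → ZMod 2)

/-- The ground set. -/
abbrev Em (m : ℕ) : Type := (Fin m → ZMod 2) ⊕ Fin 8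

/-- The embedding of the block. -/
def emb (m : ℕ) : (Fin 6 → ZMod 2) →ₗ[ZMod 2] Vm m where
  toFun x := (fun j => if h : j.val < 3 then x ⟨j.val, by omega⟩ else 0, 0, fun j => x (j.natAdd 3))
  map_add' x y := by
    ext j
    · by_cases h : j.val < 3 <;> simp [h]
    · simp
    · simp
  map_smul' c x := by
    ext j
    · by_cases h : j.val < 3 <;> simp [h]
    · simp
    · simp

lemma emb_inj (hm : 3 ≤ m) : Function.Injective (emb m) := by
  intro x y h
  have h1 : ∀ j : Fin m, (emb m x).1 j = (emb m y).1 j := fun j => by rw [h]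
  have h2 : ∀ j : Fin 3, (emb m x).2.2 j = (emb m y).2.2 j := fun j => by rw [h]
  funext l
  by_cases hl : l.val < 3
  · have := h1 ⟨l.val, by omega⟩
    simpa [emb, hl] using this
  · have hl3 : l.val - 3 < 3 := by omega
    have := h2 ⟨l.val - 3, hl3⟩
    have e : (Fin.natAdd 3 (⟨l.val - 3, hl3⟩ : Fin 3) : Fin 6) = l := by
      apply Fin.ext
      simp only [Fin.natAdd_mk]
      omega
    simpa only [emb, LinearMap.coe_mk, AddHom.coe_mk, e] using this

/-- The vectors. -/
def vec (m : ℕ) : Em m → Vm m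
  | .inl a => (a, 1, 0)
  | .inr i => emb m (fv i)

/-- The rank of a set of elements. -/
noncomputable def rk (m : ℕ) (A : Set (Em m)) : ℕ :=
  finrank (ZMod 2) (span (ZMod 2) (vec m '' A))

lemma rk_mono {A B : Set (Em m)} (h : A ⊆ B) : rk m A ≤ rk m B :=
  Submodule.finrank_mono (span_mono (image_mono h))

/-- Rank of a set of affine points. -/
lemma rk_affine (P : Finset (Fin m → ZMod 2)) (hP : P.Nonempty) :
    2 * P.card ≤ 2 ^ rk m (Sum.inl '' (P : Set (Fin m → ZMod 2))) := by
  classical
  obtain ⟨p0, hp0⟩ := hP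
  set Y : Finset (Vm m) := P.image (fun a => ((a, 1, 0) : Vm m)) ∪
    P.image (fun a => ((a + p0, 0, 0) : Vm m)) with hY
  have hcard : Y.card = 2 * P.card := by
    rw [hY, Finset.card_union_of_disjoint, Finset.card_image_of_injective,
      Finset.card_image_of_injective]
    · ring
    · intro a b hab
      have := (Prod.mk.inj hab).1
      exact add_right_cancel this
    · intro a b hab
      exact (Prod.mk.inj hab).1
    · rw [Finset.disjoint_left]
      intro x hx hx'
      rw [Finset.mem_image] at hx hx'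
      obtain ⟨a, _, rfl⟩ := hx
      obtain ⟨b, _, hb⟩ := hx'
      have := (Prod.mk.inj (Prod.mk.inj hb).2).1
      exact absurd this (by decide)
  rw [← hcard]
  apply card_le_two_pow
  have h0 : ∀ a ∈ P, ((a, 1, 0) : Vm m) ∈
      span (ZMod 2) (vec m '' (Sum.inl '' (P : Set (Fin m → ZMod 2)))) :=
    fun a ha => subset_span ⟨Sum.inl a, ⟨a, ha, rfl⟩, rfl⟩
  intro y hy
  rw [hY, Finset.mem_union, Finset.mem_image, Finset.mem_image] at hy
  rcases hy with ⟨a, ha, rfl⟩ | ⟨a, ha, rfl⟩
  · exact h0 a ha
  · have := add_mem (h0 a ha) (h0 p0 hp0)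
    have e : ((a, 1, 0) : Vm m) + (p0, 1, 0) = (a + p0, 0, 0) := by
      ext
      · simp
      · simp only [Prod.snd_add, Prod.fst_add]; decide
      · simp
    rwa [e] at this

/-- Rank of the projection of a set of block elements. -/
noncomputable def rq (S : Finset (Fin 8)) : ℕ :=
  finrank (ZMod 2) (span (ZMod 2) (qv '' (S : Set (Fin 8))))

/-- Rank of a set of block elements. -/
noncomputable def rf (S : Finset (Fin 8)) : ℕ :=
  finrank (ZMod 2) (span (ZMod 2) (fv '' (S : Set (Fin 8))))

lemma block (S : Finset (Fin 8)) : 3 + min 3 S.card ≤ rf S + rq Sᶜ := rank_block S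

lemma rf_le (S : Finset (Fin 8)) : rf S ≤ S.card := by
  classical
  unfold rf
  have h1 := finrank_span_finset_le_card (R := ZMod 2) (S.image fv)
  rw [Finset.coe_image] at h1
  exact h1.trans Finset.card_image_le

lemma rq_union : 3 ≤ rq (Finset.univ : Finset (Fin 8)) := by
  have h := block ∅
  have h2 := rf_le ∅
  rw [Finset.compl_empty] at h
  simp at h h2
  omega

lemma rq_add (S : Finset (Fin 8)) : 3 ≤ rq S + rq Sᶜ := by
  refine rq_union.trans ?_
  unfold rq
  have h1 : span (ZMod 2) (qv '' ((Finset.univ : Finset (Fin 8)) : Set (Fin 8))) =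
      span (ZMod 2) (qv '' (S : Set (Fin 8))) ⊔ span (ZMod 2) (qv '' ((Sᶜ : Finset (Fin 8)) : Set (Fin 8))) := by
    rw [← span_union, ← image_union, Finset.coe_compl, union_compl_self, Finset.coe_univ]
  rw [h1]
  exact Submodule.finrank_add_le_finrank_add_finrank _ _

lemma rk_ge_add (A : Set (Em m)) (P : Set (Fin m → ZMod 2)) (S : Finset (Fin 8))
    (hP : ∀ a ∈ P, Sum.inl a ∈ A) (hS : ∀ i ∈ S, Sum.inr i ∈ A) :
    rk m (Sum.inl '' P) + rq S ≤ rk m A := by
  classical
  set Q := span (ZMod 2) (vec m '' A) with hQ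
  set Q0 := span (ZMod 2) (vec m '' (Sum.inl '' P)) with hQ0
  have hQ0Q : Q0 ≤ Q := by
    apply span_mono
    apply image_mono
    rintro _ ⟨a, ha, rfl⟩
    exact hP a ha
  set π : Vm m →ₗ[ZMod 2] (Fin 3 → ZMod 2) :=
    (LinearMap.snd (ZMod 2) (ZMod 2) (Fin 3 → ZMod 2)).comp
      (LinearMap.snd (ZMod 2) (Fin m → ZMod 2) (ZMod 2 × (Fin 3 → ZMod 2))) with hπ
  set f := π.domRestrict Q with hf
  have h1 := LinearMap.finrank_range_add_finrank_ker f
  have h2 : rq S ≤ finrank (ZMod 2) (LinearMap.range f) := by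
    apply Submodule.finrank_mono
    rw [span_le]
    rintro _ ⟨i, hi, rfl⟩
    refine ⟨⟨vec m (Sum.inr i), subset_span ⟨_, hS i hi, rfl⟩⟩, ?_⟩
    rfl
  have h3 : finrank (ZMod 2) Q0 ≤ finrank (ZMod 2) (LinearMap.ker f) := by
    have e := Submodule.comapSubtypeEquivOfLe hQ0Q
    rw [← e.finrank_eq]
    apply Submodule.finrank_mono
    intro x hx
    rw [Submodule.mem_comap] at hx
    rw [LinearMap.mem_ker]
    have h4 : Q0 ≤ LinearMap.ker π := by
      rw [hQ0, span_le]
      rintro _ ⟨_, ⟨a, _, rfl⟩, rfl⟩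
      rfl
    exact h4 hx
  unfold rk
  rw [← hQ0, ← hQ]
  omega

lemma rk_ge_rf (hm : 3 ≤ m) (A : Set (Em m)) (S : Finset (Fin 8))
    (hS : ∀ i ∈ S, Sum.inr i ∈ A) : rf S ≤ rk m A := by
  unfold rf rk
  rw [(Submodule.equivMapOfInjective (emb m) (emb_inj hm)
    (span (ZMod 2) (fv '' (S : Set (Fin 8))))).finrank_eq]
  apply Submodule.finrank_mono
  rw [Submodule.map_span, span_le]
  rintro _ ⟨_, ⟨i, hi, rfl⟩, rfl⟩
  exact subset_span ⟨Sum.inr i, hS i hi, rfl⟩

lemma fv_ne : ∀ i : Fin 8, ¬ ∀ l : Fin 6, fv i l = 0 := by decide +kernel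

lemma qv_ne : ∀ i : Fin 8, ¬ ∀ l : Fin 3, qv i l = 0 := by decide +kernel

lemma fv_ne2 : ∀ i j : Fin 8, i ≠ j → ¬ ∀ l : Fin 6, fv i l = fv j l := by decide +kernel

lemma fv_ne3 : ∀ i j k : Fin 8, i ≠ j → i ≠ k → j ≠ k → ¬ ∀ l : Fin 6, fv i l + fv j l = fv k l := by
  decide +kernel

lemma vec_snd_inl (a : Fin m → ZMod 2) : (vec m (Sum.inl a)).2.1 = 1 := rfl

lemma vec_snd_inr (i : Fin 8) : (vec m (Sum.inr i)).2.1 = 0 := rfl

lemma vec_thd_inl (a : Fin m → ZMod 2) : (vec m (Sum.inl a)).2.2 = 0 := rfl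

lemma vec_thd_inr (i : Fin 8) : (vec m (Sum.inr i)).2.2 = qv i := rfl

lemma vec_ne_zero (hm : 3 ≤ m) (x : Em m) : vec m x ≠ 0 := by
  intro h
  rcases x with a | i
  · have h1 : (vec m (Sum.inl a)).2.1 = 0 := by rw [h]; rfl
    rw [vec_snd_inl] at h1
    exact absurd h1 (by decide)
  · have h1 : emb m (fv i) = emb m 0 := by rw [map_zero]; exact h
    exact fv_ne i (fun l => congrFun (emb_inj hm h1) l)

lemma vec_inj (hm : 3 ≤ m) : Function.Injective (vec m) := by
  intro x y h
  rcases x with a | i <;> rcases y with b | j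
  · have : a = b := congrArg Prod.fst h
    rw [this]
  · have h1 : (vec m (Sum.inl a)).2.1 = (vec m (Sum.inr j)).2.1 := by rw [h]
    rw [vec_snd_inl, vec_snd_inr] at h1
    exact absurd h1 (by decide)
  · have h1 : (vec m (Sum.inr i)).2.1 = (vec m (Sum.inl b)).2.1 := by rw [h]
    rw [vec_snd_inl, vec_snd_inr] at h1
    exact absurd h1 (by decide)
  · by_contra hne
    have hij : i ≠ j := fun hij => hne (by rw [hij])
    have h1 : emb m (fv i) = emb m (fv j) := h
    exact fv_ne2 i j hij (fun l => congrFun (emb_inj hm h1) l)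

lemma vec_ne3 (hm : 3 ≤ m) {x y z : Em m} (hxy : x ≠ y) (hxz : x ≠ z) (hyz : y ≠ z) :
    vec m x + vec m y ≠ vec m z := by
  intro h
  have h2 : (vec m x).2.1 + (vec m y).2.1 = (vec m z).2.1 := by rw [← h]; rfl
  have h3 : (vec m x).2.2 + (vec m y).2.2 = (vec m z).2.2 := by rw [← h]; rfl
  have hq : ∀ i : Fin 8, qv i ≠ 0 := fun i hi => qv_ne i (fun l => by rw [hi]; rfl)
  rcases x with a | i <;> rcases y with b | j <;> rcases z with c | k
  · simp only [vec_snd_inl] at h2
    exact absurd h2 (by decide)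
  · simp only [vec_thd_inl, vec_thd_inr, add_zero] at h3
    exact hq k h3.symm
  · simp only [vec_thd_inl, vec_thd_inr, zero_add] at h3
    exact hq j h3
  · simp only [vec_snd_inl, vec_snd_inr] at h2
    exact absurd h2 (by decide)
  · simp only [vec_thd_inl, vec_thd_inr, add_zero] at h3
    exact hq i h3
  · simp only [vec_snd_inl, vec_snd_inr] at h2
    exact absurd h2 (by decide)
  · simp only [vec_snd_inl, vec_snd_inr] at h2
    exact absurd h2 (by decide)
  · have h4 : emb m (fv i + fv j) = emb m (fv k) := by rw [map_add]; exact h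
    have hij : i ≠ j := fun h => hxy (by rw [h])
    have hik : i ≠ k := fun h => hxz (by rw [h])
    have hjk : j ≠ k := fun h => hyz (by rw [h])
    exact fv_ne3 i j k hij hik hjk (fun l => congrFun (emb_inj hm h4) l)

lemma rk_ge_min (hm : 3 ≤ m) (A : Set (Em m)) : min 3 A.ncard ≤ rk m A := by
  classical
  have hA : A.Finite := toFinite _
  have hmem : ∀ x ∈ A, vec m x ∈ span (ZMod 2) (vec m '' A) :=
    fun x hx => subset_span ⟨x, hx, rfl⟩
  rcases Nat.lt_or_ge A.ncard 3 with h3 | h3
  · interval_cases hc : A.ncard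
    · simp
    · obtain ⟨x, rfl⟩ := ncard_eq_one.1 hc
      have h1 : ({0, vec m x} : Finset (Vm m)).card ≤ 2 ^ rk m {x} := by
        apply card_le_two_pow
        intro y hy
        simp only [Finset.mem_insert, Finset.mem_singleton] at hy
        rcases hy with rfl | rfl
        · exact zero_mem _
        · exact hmem x rfl
      rw [Finset.card_pair (vec_ne_zero hm x).symm] at h1
      have : rk m {x} ≠ 0 := by
        intro h0
        rw [h0] at h1
        omega
      omega
    · obtain ⟨x, y, hxy, rfl⟩ := ncard_eq_two.1 hc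
      have h1 : ({0, vec m x, vec m y} : Finset (Vm m)).card ≤ 2 ^ rk m {x, y} := by
        apply card_le_two_pow
        intro z hz
        simp only [Finset.mem_insert, Finset.mem_singleton] at hz
        rcases hz with rfl | rfl | rfl
        · exact zero_mem _
        · exact hmem x (by simp)
        · exact hmem y (by simp)
      rw [Finset.card_insert_of_notMem, Finset.card_pair] at h1
      · have : ¬ rk m {x, y} ≤ 1 := by
          intro h0
          have := Nat.pow_le_pow_right (n := 2) (by norm_num) h0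
          omega
        omega
      · exact fun h => hxy (vec_inj hm h)
      · simp only [Finset.mem_insert, Finset.mem_singleton, not_or]
        exact ⟨(vec_ne_zero hm x).symm, (vec_ne_zero hm y).symm⟩
  · obtain ⟨t, htA, ht3⟩ := exists_subset_card_eq h3
    obtain ⟨x, y, z, hxy, hxz, hyz, rfl⟩ := ncard_eq_three.1 ht3
    have hx : x ∈ A := htA (by simp)
    have hy : y ∈ A := htA (by simp)
    have hz : z ∈ A := htA (by simp)
    have h1 : ({0, vec m x, vec m y, vec m z, vec m x + vec m y} : Finset (Vm m)).card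
        ≤ 2 ^ rk m A := by
      apply card_le_two_pow
      intro w hw
      simp only [Finset.mem_insert, Finset.mem_singleton] at hw
      rcases hw with rfl | rfl | rfl | rfl | rfl
      · exact zero_mem _
      · exact hmem x hx
      · exact hmem y hy
      · exact hmem z hz
      · exact add_mem (hmem x hx) (hmem y hy)
    have hx0 := vec_ne_zero hm x
    have hy0 := vec_ne_zero hm y
    have hz0 := vec_ne_zero hm z
    have nxy : vec m x ≠ vec m y := fun h => hxy (vec_inj hm h)
    have nxz : vec m x ≠ vec m z := fun h => hxz (vec_inj hm h)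
    have nyz : vec m y ≠ vec m z := fun h => hyz (vec_inj hm h)
    have ns := vec_ne3 hm hxy hxz hyz
    have ns0 : vec m x + vec m y ≠ 0 := by
      intro h
      apply nxy
      have := add_self2 (vec m y)
      exact add_right_cancel (h.trans this.symm)
    have nsx : vec m x + vec m y ≠ vec m x := by
      intro h
      exact hy0 (by simpa using h)
    have nsy : vec m x + vec m y ≠ vec m y := by
      intro h
      exact hx0 (by simpa using h)
    rw [Finset.card_insert_of_notMem, Finset.card_insert_of_notMem, Finset.card_insert_of_notMem,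
      Finset.card_pair ns.symm] at h1
    · have : ¬ rk m A ≤ 2 := by
        intro h0
        have := Nat.pow_le_pow_right (n := 2) (by norm_num) h0
        omega
      omega
    · simp only [Finset.mem_insert, Finset.mem_singleton, not_or]
      exact ⟨nyz, nsy.symm⟩
    · simp only [Finset.mem_insert, Finset.mem_singleton, not_or]
      exact ⟨nxy, nxz, nsx.symm⟩
    · simp only [Finset.mem_insert, Finset.mem_singleton, not_or]
      exact ⟨hx0.symm, hy0.symm, hz0.symm, ns0.symm⟩

/-- Rank of the whole set. -/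
lemma rk_univ : rk m univ = m + 4 := by
  classical
  apply le_antisymm
  · have h1 := Submodule.finrank_le (span (ZMod 2) (vec m '' (univ : Set (Em m))))
    have h2 : finrank (ZMod 2) (Vm m) = m + 4 := by
      rw [Module.finrank_prod, Module.finrank_prod]
      simp
    unfold rk
    omega
  · have h1 := rk_ge_add (m := m) univ univ Finset.univ (by simp) (by simp)
    have h2 := rk_affine (Finset.univ : Finset (Fin m → ZMod 2)) Finset.univ_nonempty
    rw [Finset.coe_univ, Finset.card_univ, Fintype.card_fun, ZMod.card, Fintype.card_fin] at h2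
    have h3 := rq_union
    have h4 : m + 1 ≤ rk m (Sum.inl '' (univ : Set (Fin m → ZMod 2))) := by
      by_contra hcon
      push Not at hcon
      have h5 := Nat.pow_le_pow_right (n := 2) (by norm_num) (Nat.le_of_lt_succ hcon)
      have h6 : 0 < 2 ^ m := by positivity
      omega
    omega

/-- One side is large. -/
lemma conn_big (hm : 4 ≤ m) (A B : Set (Em m)) (hAB : ∀ x, x ∈ A ∨ x ∈ B)
    (P : Finset (Fin m → ZMod 2)) (hP : ∀ a ∈ P, Sum.inl a ∈ B) (hPc : 2 ^ m < 2 * P.card)
    (S : Finset (Fin 8)) (hS : ∀ i, i ∈ S ↔ Sum.inr i ∈ A) :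
    m + 4 + min 3 A.ncard ≤ rk m A + rk m B := by
  classical
  have hPn : P.Nonempty := by
    rw [← Finset.card_pos]
    have : 0 < 2 ^ m := by positivity
    omega
  have h1 : m + 1 ≤ rk m (Sum.inl '' (P : Set (Fin m → ZMod 2))) := by
    by_contra hcon
    push Not at hcon
    have h5 := Nat.pow_le_pow_right (n := 2) (by norm_num) (Nat.le_of_lt_succ hcon)
    have h6 := rk_affine P hPn
    omega
  have h2 := rk_ge_add B (P : Set (Fin m → ZMod 2)) Sᶜ hP (by
    intro i hi
    rw [Finset.mem_compl, hS] at hi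
    exact (hAB _).resolve_left hi)
  have h3 := rk_ge_min (by omega : 3 ≤ m) A
  have h4 := rk_ge_rf (by omega : 3 ≤ m) A S (fun i hi => (hS i).1 hi)
  have h5 := block S
  have h6 := rf_le S
  omega

end Pool.Agent.Work.MP_16b4d3_co.Bin
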