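import Pool.Agent.Work.MP_16b4d3_co.Bin2

/-!
The binary matroids of the family are 4-connected, and the first four elements of the block lie
in no circuit and in no cocircuit.
-/

set_option autoImplicit false
set_option linter.unusedSectionVars false

namespace Pool.Agent.Work.MP_16b4d3_co.Bin

open Set Submodule Module Pool.Agent.Work.MP_5f9c07_co

variable {m : ℕ}

/-- The connectivity of the family. -/
theorem conn (hm : 4 ≤ m) (A : Set (Em m)) :
    m + 4 + min 3 (min A.ncard (univ \ A).ncard) ≤ rk m A + rk m (univ \ A) := by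
  classical
  set P : Finset (Fin m → ZMod 2) := Finset.univ.filter (fun a => Sum.inl a ∈ A) with hP
  set S : Finset (Fin 8) := Finset.univ.filter (fun i => Sum.inr i ∈ A) with hS
  have hPm : ∀ a, a ∈ P ↔ Sum.inl a ∈ A := fun a => by simp [hP]
  have hSm : ∀ i, i ∈ S ↔ Sum.inr i ∈ A := fun i => by simp [hS]
  have hcard : P.card + Pᶜ.card = 2 ^ m := by
    rw [Finset.card_add_card_compl]
    simp [ZMod.card]
  have hpos : 0 < 2 ^ m := by positivity
  rcases Nat.lt_or_ge (2 ^ m) (2 * Pᶜ.card) with h | h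
  · have := conn_big hm A (univ \ A) (fun x => by by_cases hx : x ∈ A <;> simp [hx]) Pᶜ
      (fun a ha => by
        rw [Finset.mem_compl, hPm] at ha
        exact ⟨mem_univ _, ha⟩) h S hSm
    omega
  rcases Nat.lt_or_ge (2 ^ m) (2 * P.card) with h' | h'
  · have := conn_big hm (univ \ A) A (fun x => by by_cases hx : x ∈ A <;> simp [hx]) P
      (fun a ha => (hPm a).1 ha) h' Sᶜ (fun i => by
        rw [Finset.mem_compl, hSm]
        simp)
    omega
  have e1 : 2 * P.card = 2 ^ m := by omega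
  have e2 : 2 * Pᶜ.card = 2 ^ m := by omega
  have hPn : P.Nonempty := by rw [← Finset.card_pos]; omega
  have hPn' : (Pᶜ).Nonempty := by rw [← Finset.card_pos]; omega
  have h1 := rk_affine P hPn
  have h2 := rk_affine Pᶜ hPn'
  rw [e1] at h1
  rw [e2] at h2
  have h3 : m ≤ rk m (Sum.inl '' (P : Set (Fin m → ZMod 2))) :=
    (Nat.pow_le_pow_iff_right (by norm_num : 1 < 2)).1 h1
  have h4 : m ≤ rk m (Sum.inl '' ((Pᶜ : Finset (Fin m → ZMod 2)) : Set (Fin m → ZMod 2))) :=
    (Nat.pow_le_pow_iff_right (by norm_num : 1 < 2)).1 h2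
  have h5 := rk_ge_add A (P : Set (Fin m → ZMod 2)) S (fun a ha => (hPm a).1 ha)
    (fun i hi => (hSm i).1 hi)
  have h6 := rk_ge_add (univ \ A) ((Pᶜ : Finset (Fin m → ZMod 2)) : Set (Fin m → ZMod 2)) Sᶜ
    (fun a ha => by
      rw [Finset.mem_coe, Finset.mem_compl, hPm] at ha
      exact ⟨mem_univ _, ha⟩)
    (fun i hi => by
      rw [Finset.mem_compl, hSm] at hi
      exact ⟨mem_univ _, hi⟩)
  have h7 := rq_add S
  omega

section lin

variable {α V : Type} [Finite α] [AddCommGroup V] [Module (ZMod 2) V] {v : α → V}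

/-- In a circuit of a binary matroid the vectors sum to zero. -/
lemma circ_sum {C : Finset α} (hC : (linMat (ZMod 2) v univ).IsCircuit (C : Set α)) :
    ∑ e ∈ C, v e = 0 := by
  classical
  have h1 : ¬ LinearIndepOn (ZMod 2) v (C : Set α) := fun h =>
    hC.dep.not_indep ((linMat_indep (ZMod 2) v univ).2 ⟨subset_univ _, h⟩)
  rw [linearIndepOn_finset_iff] at h1
  push Not at h1
  obtain ⟨f, hf, i, hi, hfi⟩ := h1
  set T := C.filter (fun e => f e ≠ 0) with hT
  have h01 : ∀ x : ZMod 2, x ≠ 0 → x = 1 := by decide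
  have hsum : ∑ e ∈ T, v e = 0 := by
    rw [← hf, hT, Finset.sum_filter]
    apply Finset.sum_congr rfl
    intro e _
    by_cases h : f e = 0
    · simp [h]
    · rw [if_pos h, h01 _ h, one_smul]
  have hTC : T = C := by
    by_contra hne
    have hss : (T : Set α) ⊂ (C : Set α) := by
      rw [Finset.coe_ssubset]
      exact (Finset.filter_subset _ _).ssubset_of_ne hne
    have h2 := hC.ssubset_indep hss
    have h3 := ((linMat_indep (ZMod 2) v univ).1 h2).2
    rw [linearIndepOn_finset_iff] at h3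
    have h4 := h3 (fun _ => 1) (by simpa using hsum) i (by simp [hT, hi, hfi])
    exact absurd h4 (by decide)
  rw [hTC] at hsum
  exact hsum

/-- A nonempty set with sum zero is dependent. -/
lemma dep_of_sum {C : Finset α} (hne : C.Nonempty) (h : ∑ e ∈ C, v e = 0) :
    (linMat (ZMod 2) v univ).Dep (C : Set α) := by
  classical
  refine ⟨fun hI => ?_, subset_univ _⟩
  have h3 := ((linMat_indep (ZMod 2) v univ).1 hI).2
  rw [linearIndepOn_finset_iff] at h3
  obtain ⟨i, hi⟩ := hne
  have h4 := h3 (fun _ => 1) (by simpa using h) i hi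
  exact absurd h4 (by decide)

/-- The support of a functional is codependent. -/
lemma codep (φ : V →ₗ[ZMod 2] ZMod 2) (h : ∃ e, φ (v e) ≠ 0) :
    (linMat (ZMod 2) v univ)✶.Dep {e | φ (v e) ≠ 0} := by
  rw [Matroid.dual_dep_iff_forall]
  refine ⟨fun B hB => ?_, subset_univ _⟩
  obtain ⟨e0, he0⟩ := h
  by_contra hcon
  rw [not_nonempty_iff_eq_empty] at hcon
  have h1 : span (ZMod 2) (v '' B) ≤ LinearMap.ker φ := by
    rw [span_le]
    rintro _ ⟨b, hb, rfl⟩
    by_contra hb'
    have : b ∈ {e | φ (v e) ≠ 0} ∩ B := ⟨fun h => hb' h, hb⟩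
    rw [hcon] at this
    exact this
  have h2 : (linMat (ZMod 2) v univ).IsBasis B univ := by
    have := hB.isBasis_ground
    simpa using this
  rw [span_basis (ZMod 2) v univ h2] at h1
  exact he0 (h1 (subset_span ⟨e0, mem_univ _, rfl⟩))

/-- A cocircuit is the support of a functional. -/
lemma cocirc {D : Set α} (hD : (linMat (ZMod 2) v univ).IsCocircuit D) :
    ∃ φ : V →ₗ[ZMod 2] ZMod 2, D = {e | φ (v e) ≠ 0} := by
  have h1 := (Matroid.dual_dep_iff_forall.1 hD.dep).1
  obtain ⟨e0, he0⟩ : ∃ e, v e ∉ span (ZMod 2) (v '' Dᶜ) := by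
    by_contra hcon
    push Not at hcon
    obtain ⟨I, hI⟩ := (linMat (ZMod 2) v univ).exists_isBasis Dᶜ (subset_univ _)
    have hI' := (linMat_indep (ZMod 2) v univ).1 hI.indep
    have hbase : (linMat (ZMod 2) v univ).IsBase I := by
      refine Matroid.Indep.isBase_of_forall_insert hI.indep ?_
      intro e he hcon2
      have h2 := ((linMat_indep (ZMod 2) v univ).1 hcon2).2
      have h3 := hcon e
      rw [← span_basis (ZMod 2) v univ hI] at h3
      have h4 := (hI'.2.mem_span_iff.1 h3)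
      exact he.2 (h4 h2)
    obtain ⟨x, hx⟩ := h1 I hbase
    exact hI.subset hx.2 hx.1
  obtain ⟨φ, hφ0, hφ⟩ := Submodule.exists_le_ker_of_notMem he0
  refine ⟨φ, ?_⟩
  have hsub : {e | φ (v e) ≠ 0} ⊆ D := by
    intro e he
    by_contra heD
    exact he (hφ (subset_span ⟨e, heD, rfl⟩))
  exact (hD.isCircuit.eq_of_dep_subset (codep φ ⟨e0, hφ0⟩) hsub).symm

end lin

end Pool.Agent.Work.MP_16b4d3_co.Bin
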