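import Pool.Agent.Work.MP_16b4d3_co.Bin3

/-!
The first four elements of the block lie in no circuit and in no cocircuit.
-/

set_option autoImplicit false
set_option linter.unusedSectionVars false

namespace Pool.Agent.Work.MP_16b4d3_co.Bin

open Set Submodule Module Pool.Agent.Work.MP_5f9c07_co

variable {m : ℕ}

lemma chk_circ : ∀ U : Finset (Fin 8), ({0, 1, 2, 3} : Finset (Fin 8)) ⊆ U →
    (∀ j : Fin 3, ∑ i ∈ U, qv i j = 0) →
    ({1, 2, 3, 5} : Finset (Fin 8)) ⊆ U ∨ ({1, 4, 6, 7} : Finset (Fin 8)) ⊆ U := by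
  decide +kernel

lemma chk_sum : (∀ l : Fin 6, ∑ i ∈ ({1, 2, 3, 5} : Finset (Fin 8)), fv i l = 0) ∧
    (∀ l : Fin 6, ∑ i ∈ ({1, 4, 6, 7} : Finset (Fin 8)), fv i l = 0) := by
  decide +kernel

lemma chk_cocirc : ∀ c : Fin 6 → ZMod 2,
    (∀ i ∈ ({0, 1, 2, 3} : Finset (Fin 8)), ∑ l, c l * fv i l = 1) →
    ∃ d : Fin 3 → ZMod 2, (∃ i, ∑ j, d j * qv i j ≠ 0) ∧
      (∀ i, ∑ j, d j * qv i j ≠ 0 → ∑ l, c l * fv i l ≠ 0) ∧
      ∃ i ∈ ({0, 1, 2, 3} : Finset (Fin 8)), ∑ j, d j * qv i j = 0 := by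
  decide +kernel

/-- The matroid. -/
noncomputable def BM (m : ℕ) : Matroid (Em m) := linMat (ZMod 2) (vec m) univ

/-- The bad set. -/
def bad (m : ℕ) : Set (Em m) := {Sum.inr 0, Sum.inr 1, Sum.inr 2, Sum.inr 3}

lemma bad_ncard : (bad m).ncard = 4 := by
  unfold bad
  rw [ncard_insert_of_notMem, ncard_insert_of_notMem, ncard_pair]
  · simp
  · simp
  · simp

lemma mem_bad {i : Fin 8} (hi : i ∈ ({0, 1, 2, 3} : Finset (Fin 8))) :
    (Sum.inr i : Em m) ∈ bad m := by
  simp only [Finset.mem_insert, Finset.mem_singleton] at hi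
  unfold bad
  rcases hi with rfl | rfl | rfl | rfl <;> simp

theorem no_circuit {C : Set (Em m)} (hX : bad m ⊆ C) : ¬ (BM m).IsCircuit C := by
  classical
  intro hC
  have hCf : C.Finite := toFinite C
  set Cf := hCf.toFinset with hCfd
  have hCc : (Cf : Set (Em m)) = C := hCf.coe_toFinset
  rw [← hCc] at hC
  have hsum := circ_sum hC
  set U : Finset (Fin 8) := Finset.univ.filter (fun i => Sum.inr i ∈ C) with hU
  have hUm : ∀ i, i ∈ U ↔ Sum.inr i ∈ C := fun i => by simp [hU]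
  have hUX : ({0, 1, 2, 3} : Finset (Fin 8)) ⊆ U := fun i hi => (hUm i).2 (hX (mem_bad hi))
  have hUq : ∀ j : Fin 3, ∑ i ∈ U, qv i j = 0 := by
    intro j
    have h1 : ∑ e ∈ Cf, (vec m e).2.2 j = 0 := by
      have := congrArg (fun x : Vm m => x.2.2 j) hsum
      simpa [Prod.snd_sum, Finset.sum_apply] using this
    rw [← h1]
    have h2 : ∑ i ∈ U, qv i j = ∑ e ∈ U.image (Sum.inr : Fin 8 → Em m), (vec m e).2.2 j := by
      rw [Finset.sum_image (fun a _ b _ h => Sum.inr_injective h)]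
      rfl
    rw [h2]
    apply Finset.sum_subset
    · intro x hx
      rw [Finset.mem_image] at hx
      obtain ⟨i, hi, rfl⟩ := hx
      rw [hCfd, Set.Finite.mem_toFinset]
      exact (hUm i).1 hi
    · intro x hx hx'
      rcases x with a | i
      · rw [vec_thd_inl]; rfl
      · exfalso
        apply hx'
        rw [Finset.mem_image]
        rw [hCfd, Set.Finite.mem_toFinset] at hx
        exact ⟨i, (hUm i).2 hx, rfl⟩
  have key : ∀ T : Finset (Fin 8), T.Nonempty → T ⊆ U → (∀ l : Fin 6, ∑ i ∈ T, fv i l = 0) →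
      (0 : Fin 8) ∉ T → False := by
    intro T hTn hTU hT0 h0
    have h1 : ∑ e ∈ T.image (Sum.inr : Fin 8 → Em m), vec m e = 0 := by
      rw [Finset.sum_image (fun a _ b _ h => Sum.inr_injective h)]
      have : ∑ i ∈ T, fv i = 0 := by
        funext l
        rw [Finset.sum_apply]; exact hT0 l
      calc ∑ i ∈ T, vec m (Sum.inr i) = ∑ i ∈ T, emb m (fv i) := rfl
        _ = emb m (∑ i ∈ T, fv i) := by rw [map_sum]
        _ = 0 := by rw [this, map_zero]
    have h2 := dep_of_sum (hTn.image _) h1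
    have h3 : ((T.image (Sum.inr : Fin 8 → Em m) : Finset (Em m)) : Set (Em m)) ⊆ (Cf : Set (Em m)) := by
      intro x hx
      rw [Finset.mem_coe, Finset.mem_image] at hx
      obtain ⟨i, hi, rfl⟩ := hx
      rw [hCc]
      exact (hUm i).1 (hTU hi)
    have h4 := hC.eq_of_dep_subset h2 h3
    have h5 : (Sum.inr 0 : Em m) ∈ (Cf : Set (Em m)) := by
      rw [hCc]; exact hX (mem_bad (by simp))
    rw [← h4, Finset.mem_coe, Finset.mem_image] at h5
    obtain ⟨i, hi, hi0⟩ := h5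
    rw [Sum.inr_injective hi0] at hi
    exact h0 hi
  rcases chk_circ U hUX hUq with h | h
  · exact key _ ⟨1, by simp⟩ h chk_sum.1 (by decide)
  · exact key _ ⟨1, by simp⟩ h chk_sum.2 (by decide)

theorem no_cocircuit {D : Set (Em m)} (hX : bad m ⊆ D) : ¬ (BM m).IsCocircuit D := by
  classical
  intro hD
  obtain ⟨φ, hφ⟩ := cocirc hD
  have h01 : ∀ x : ZMod 2, x ≠ 0 → x = 1 := by decide
  set c : Fin 6 → ZMod 2 := fun l => φ (emb m (Pi.single l 1)) with hc
  have hval : ∀ i : Fin 8, φ (vec m (Sum.inr i)) = ∑ l, c l * fv i l := by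
    intro i
    have h1 : fv i = ∑ l, fv i l • (Pi.single l (1 : ZMod 2) : Fin 6 → ZMod 2) := by
      funext k
      simp [Finset.sum_apply, Pi.single_apply]
    calc φ (vec m (Sum.inr i)) = φ (emb m (fv i)) := rfl
      _ = φ (emb m (∑ l, fv i l • (Pi.single l (1 : ZMod 2) : Fin 6 → ZMod 2))) := by rw [← h1]
      _ = ∑ l, c l * fv i l := by
        rw [map_sum, map_sum]
        apply Finset.sum_congr rfl
        intro l _
        rw [map_smul, map_smul, smul_eq_mul, mul_comm]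
  have hX1 : ∀ i ∈ ({0, 1, 2, 3} : Finset (Fin 8)), ∑ l, c l * fv i l = 1 := by
    intro i hi
    have h1 : (Sum.inr i : Em m) ∈ D := hX (mem_bad hi)
    rw [hφ] at h1
    rw [← hval]
    exact h01 _ h1
  obtain ⟨d, ⟨i0, hi0⟩, hd, i1, hi1, hd1⟩ := chk_cocirc c hX1
  set ψ : Vm m →ₗ[ZMod 2] ZMod 2 :=
    { toFun := fun x => ∑ j, d j * x.2.2 j
      map_add' := by
        intro x y
        rw [← Finset.sum_add_distrib]
        apply Finset.sum_congr rfl
        intro j _
        simp [mul_add]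
      map_smul' := by
        intro a x
        simp only [Prod.smul_snd, Pi.smul_apply, smul_eq_mul, RingHom.id_apply, Finset.mul_sum]
        apply Finset.sum_congr rfl
        intro j _
        ring } with hψ
  have hψr : ∀ i : Fin 8, ψ (vec m (Sum.inr i)) = ∑ j, d j * qv i j := fun i => rfl
  have hψl : ∀ a : Fin m → ZMod 2, ψ (vec m (Sum.inl a)) = 0 := by
    intro a
    have : ψ (vec m (Sum.inl a)) = ∑ j, d j * (vec m (Sum.inl a)).2.2 j := rfl
    rw [this, vec_thd_inl]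
    simp
  have h1 := codep (v := vec m) ψ ⟨Sum.inr i0, by rw [hψr]; exact hi0⟩
  have hsub : {e | ψ (vec m e) ≠ 0} ⊆ D := by
    rintro (a | i) he
    · exact absurd (hψl a) he
    · rw [hφ]
      change φ (vec m (Sum.inr i)) ≠ 0
      rw [hval]
      apply hd
      rw [← hψr]; exact he
  have h2 := hD.isCircuit.eq_of_dep_subset h1 hsub
  have h3 : (Sum.inr i1 : Em m) ∈ D := hX (mem_bad hi1)
  rw [← h2] at h3
  exact h3 (by rw [hψr]; exact hd1)

/-- Ranks in the matroid. -/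
lemma BM_eRk (A : Set (Em m)) : (BM m).eRk A = (rk m A : ℕ∞) :=
  linMat_eRk (ZMod 2) (vec m) univ (subset_univ _)

/-- Summary: for `m ≥ 4` the matroid `BM m` has `2 ^ m + 8` elements and rank `m + 4`, is binary
and 4-connected, and the four elements of `bad m` lie in no circuit and in no cocircuit. -/
theorem summary (hm : 4 ≤ m) : (BM m).E = univ ∧ (BM m).E.ncard = 2 ^ m + 8 ∧
    (BM m).eRank = (m + 4 : ℕ) ∧
    (∀ I, (BM m).Indep I ↔ LinearIndepOn (ZMod 2) (vec m) I) ∧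
    (∀ A, (BM m).eRank + (min 3 (min A.ncard (univ \ A).ncard) : ℕ) ≤
      (BM m).eRk A + (BM m).eRk (univ \ A)) ∧
    ∃ X : Set (Em m), X.ncard = 4 ∧
      ∀ C, X ⊆ C → ¬ (BM m).IsCircuit C ∧ ¬ (BM m).IsCocircuit C := by
  have hE : (BM m).E = univ := rfl
  have hr : (BM m).eRank = ((m + 4 : ℕ) : ℕ∞) := by
    rw [← Matroid.eRk_ground, hE, BM_eRk, rk_univ]
  refine ⟨hE, ?_, hr, ?_, ?_, bad m, bad_ncard, fun C hC => ⟨no_circuit hC, no_cocircuit hC⟩⟩
  · rw [hE, ncard_univ, Nat.card_eq_fintype_card, Fintype.card_sum, Fintype.card_fun, ZMod.card,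
      Fintype.card_fin, Fintype.card_fin]
  · intro I
    unfold BM
    rw [linMat_indep]
    simp
  · intro A
    rw [hr, BM_eRk, BM_eRk]
    exact_mod_cast conn hm A

end Pool.Agent.Work.MP_16b4d3_co.Bin
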