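import Pool.Agent.Work.MP_16b4d3_co.Link

open Set

namespace Pool.MP16b4d3

variable {α : Type*} {M : Matroid α}

/-- `X` is contained in a circuit or in a cocircuit. -/
def Good (M : Matroid α) (X : Set α) : Prop :=
  (∃ C, M.IsCircuit C ∧ X ⊆ C) ∨ (∃ K, M.IsCocircuit K ∧ X ⊆ K)

/-- `Z` is `s`-thick over `C`: whenever `Z` is covered by `s` sets, one of them spans `Z`
modulo `C`. -/
def Thick (M : Matroid α) (s : ℕ) (C Z : Set α) : Prop :=
  ∀ H : Fin s → Set α, Z ⊆ ⋃ i, H i → ∃ i, Z ⊆ M.closure (C ∪ (H i ∩ Z))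

lemma Thick.flat {s : ℕ} {C Z : Set α} (hC : C ⊆ M.E) (h : Thick M s C Z) (H : Fin s → Set α)
    (hH : Z ⊆ ⋃ i, M.closure (C ∪ H i)) : ∃ i, Z ⊆ M.closure (C ∪ H i) := by
  obtain ⟨i, hi⟩ := h (fun i => M.closure (C ∪ H i)) hH
  refine ⟨i, hi.trans ?_⟩
  apply M.closure_subset_closure_of_subset_closure
  apply union_subset
  · exact M.subset_closure_of_subset' subset_union_left hC
  · exact inter_subset_left

/-- flexible index type -/
lemma Thick.apply {s : ℕ} {C Z : Set α} (h : Thick M s C Z) {ι : Type*} [Fintype ι] [Nonempty ι]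
    (hι : Fintype.card ι ≤ s) (H : ι → Set α) (hH : Z ⊆ ⋃ i, H i) :
    ∃ i, Z ⊆ M.closure (C ∪ (H i ∩ Z)) := by
  classical
  obtain ⟨g⟩ : Nonempty (ι ↪ Fin s) := by
    apply Function.Embedding.nonempty_of_card_le
    simpa using hι
  let f : Fin s → ι := Function.invFun g
  have hf : Function.Surjective f := Function.invFun_surjective g.injective
  obtain ⟨i, hi⟩ := h (fun i => H (f i)) (by
    intro z hz
    obtain ⟨j, hj⟩ := mem_iUnion.1 (hH hz)
    obtain ⟨i, rfl⟩ := hf j
    exact mem_iUnion.2 ⟨i, hj⟩)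
  exact ⟨f i, hi⟩

lemma Thick.apply_flat {s : ℕ} {C Z : Set α} (hC : C ⊆ M.E) (h : Thick M s C Z) {ι : Type*}
    [Fintype ι] [Nonempty ι] (hι : Fintype.card ι ≤ s) (H : ι → Set α)
    (hH : Z ⊆ ⋃ i, M.closure (C ∪ H i)) :
    ∃ i, Z ⊆ M.closure (C ∪ H i) := by
  obtain ⟨i, hi⟩ := h.apply hι (fun i => M.closure (C ∪ H i)) hH
  refine ⟨i, hi.trans ?_⟩
  apply M.closure_subset_closure_of_subset_closure
  apply union_subset
  · exact M.subset_closure_of_subset' subset_union_left hC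
  · exact inter_subset_left

/-- a version of `apply_flat` indexed by a nonempty finite set `X` of elements. -/
lemma Thick.apply_set {s : ℕ} {C Z X : Set α} (hC : C ⊆ M.E) (h : Thick M s C Z)
    (hXf : X.Finite) (hXn : X.Nonempty) (hX : X.ncard ≤ s) (H : α → Set α)
    (hH : ∀ z ∈ Z, ∃ x ∈ X, z ∈ M.closure (C ∪ H x)) :
    ∃ x ∈ X, Z ⊆ M.closure (C ∪ H x) := by
  classical
  have : Fintype X := hXf.fintype
  have : Nonempty X := hXn.to_subtype
  obtain ⟨i, hi⟩ := h.apply_flat hC (ι := X) (by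
    rw [← Nat.card_eq_fintype_card]; exact hX) (fun x => H x.1) (by
    intro z hz
    obtain ⟨x, hx, hzx⟩ := hH z hz
    exact mem_iUnion.2 ⟨⟨x, hx⟩, hzx⟩)
  exact ⟨i.1, i.2, hi⟩

/-- (L0) -/
lemma L0 [M.Finite] {X C1 Z F : Set α} {k : ℕ} (hXE : X ⊆ M.E) (hZE : Z ⊆ M.E) (hC1E : C1 ⊆ M.E)
    (hFE : F ⊆ M.E) (hXn : X.Nonempty) (hXk : X.ncard ≤ k) (hth : Thick M k C1 Z)
    (hC1 : C1 ⊆ M.closure F) (hXF : ∀ x ∈ X, x ∉ M.closure F) (hXcl : X ⊆ M.closure (F ∪ Z)) :
    ∃ K, M.IsCocircuit K ∧ X ⊆ K := by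
  classical
  have hXf : X.Finite := M.ground_finite.subset hXE
  -- maximal F'
  obtain ⟨F', ⟨hF1, hF2, hF3⟩, hmax⟩ : ∃ F', Maximal
      (fun F' => F ⊆ F' ∧ F' ⊆ F ∪ Z ∧ ∀ x ∈ X, x ∉ M.closure F') F' := by
    have hfin : {F' : Set α | F ⊆ F' ∧ F' ⊆ F ∪ Z ∧ ∀ x ∈ X, x ∉ M.closure F'}.Finite := by
      apply (M.ground_finite.finite_subsets).subset
      rintro F' ⟨-, h, -⟩
      exact h.trans (union_subset hFE hZE)
    exact hfin.exists_maximal ⟨F, subset_rfl, subset_union_left, hXF⟩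
  have hF'E : F' ⊆ M.E := hF2.trans (union_subset hFE hZE)
  have hC1F' : C1 ⊆ M.closure F' := hC1.trans (M.closure_subset_closure hF1)
  -- cover
  have hcov : ∀ z ∈ Z, ∃ x ∈ X, z ∈ M.closure (C1 ∪ insert x F') := by
    intro z hz
    have hzE := hZE hz
    obtain ⟨x0, hx0⟩ := hXn
    by_cases hzF : z ∈ F'
    · exact ⟨x0, hx0, M.mem_closure_of_mem' (Or.inr (Or.inr hzF)) hzE⟩
    by_cases hz2 : ∀ x ∈ X, x ∉ M.closure (insert z F')
    · exfalso
      apply hzF
      apply hmax (y := insert z F')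
      · exact ⟨hF1.trans (subset_insert _ _), insert_subset (Or.inr hz) hF2, hz2⟩
      · exact subset_insert _ _
      · exact mem_insert _ _
    · push Not at hz2
      obtain ⟨x, hx, hxz⟩ := hz2
      refine ⟨x, hx, ?_⟩
      have := M.mem_closure_insert (hF3 x hx) hxz
      exact M.closure_subset_closure subset_union_right this
  obtain ⟨x0, hx0, hZx0⟩ := hth.apply_set hC1E hXf hXn hXk (fun x => insert x F') hcov
  have hZx0' : Z ⊆ M.closure (insert x0 F') := by
    refine hZx0.trans ?_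
    rw [← M.closure_closure (insert x0 F')]
    apply M.closure_subset_closure
    apply union_subset
    · exact hC1F'.trans (M.closure_subset_closure (subset_insert _ _))
    · exact M.subset_closure _ (insert_subset (hXE hx0) hF'E)
  obtain ⟨J1, hJ1⟩ := M.exists_isBasis F' hF'E
  have hx0J : x0 ∉ M.closure J1 := by
    rw [hJ1.closure_eq_closure]; exact hF3 x0 hx0
  have hJ1i : M.Indep (insert x0 J1) := by
    rw [hJ1.indep.insert_indep_iff]
    left; exact ⟨hXE hx0, hx0J⟩
  obtain ⟨B, hB, hJB⟩ := hJ1i.exists_isBase_superset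
  have hx0B : x0 ∈ B := hJB (mem_insert _ _)
  refine ⟨_, hB.compl_closure_sdiff_singleton_isCocircuit hx0B, ?_⟩
  intro x hx
  refine ⟨hXE hx, fun hcl => ?_⟩
  have hJ1B : J1 ⊆ B \ {x0} := by
    intro y hy
    refine ⟨hJB (Or.inr hy), ?_⟩
    rintro rfl
    exact hF3 _ hx0 (M.mem_closure_of_mem (hJ1.subset hy) hF'E)
  have h1 : x ∈ M.closure (insert x0 J1) := by
    have h2 := hXcl hx
    have h3 : M.closure (F ∪ Z) ⊆ M.closure (insert x0 J1) := by
      rw [← M.closure_closure (insert x0 J1)]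
      apply M.closure_subset_closure
      have h4 : M.closure (insert x0 J1) = M.closure (insert x0 F') :=
        M.closure_insert_congr_right hJ1.closure_eq_closure
      rw [h4]
      apply union_subset
      · exact hF1.trans ((subset_insert _ _).trans
          (M.subset_closure _ (insert_subset (hXE hx0) hF'E)))
      · exact hZx0'
    exact h3 h2
  have h2 : x ∉ M.closure J1 := by
    rw [hJ1.closure_eq_closure]; exact hF3 x hx
  have h3 := M.mem_closure_insert h2 h1
  have h4 : x0 ∈ M.closure (B \ {x0}) := by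
    have : M.closure (insert x J1) ⊆ M.closure (B \ {x0}) := by
      rw [← M.closure_closure (B \ {x0})]
      apply M.closure_subset_closure
      apply insert_subset hcl
      exact hJ1B.trans (M.subset_closure _ (sdiff_subset.trans hB.subset_ground))
    exact this h3
  exact hB.indep.notMem_closure_sdiff_of_mem hx0B h4

/-- (L2) -/
lemma L2 [M.Finite] {X C1 Z B : Set α} {k : ℕ} (hZE : Z ⊆ M.E) (hC1E : C1 ⊆ M.E)
    (hXn : X.Nonempty) (hXk : X.ncard ≤ k) (hth : Thick M k C1 Z)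
    (hXZ : Disjoint X Z) (hB : M.IsBase B) (hXB : X ⊆ B)
    (hC1 : C1 ⊆ M.closure (B \ X)) :
    (∃ C, M.IsCircuit C ∧ X ⊆ C) ∨ ∃ x ∈ X, Z ⊆ M.closure (B \ {x}) := by
  classical
  have hXf : X.Finite := M.ground_finite.subset (hXB.trans hB.subset_ground)
  by_cases hcov : ∀ z ∈ Z, ∃ x ∈ X, z ∈ M.closure (B \ {x})
  · right
    obtain ⟨x, hx, hZx⟩ := hth.apply_set hC1E hXf hXn hXk (fun x => B \ {x}) (by
      intro z hz
      obtain ⟨x, hx, hzx⟩ := hcov z hz
      exact ⟨x, hx, M.closure_subset_closure subset_union_right hzx⟩)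
    refine ⟨x, hx, hZx.trans ?_⟩
    rw [← M.closure_closure (B \ {x})]
    apply M.closure_subset_closure
    apply union_subset
    · refine hC1.trans (M.closure_subset_closure ?_)
      apply sdiff_subset_sdiff_right
      exact singleton_subset_iff.2 hx
    · exact M.subset_closure _ (sdiff_subset.trans hB.subset_ground)
  · left
    push Not at hcov
    obtain ⟨z, hz, hzX⟩ := hcov
    obtain ⟨x0, hx0⟩ := hXn
    have hzE := hZE hz
    have hzB : z ∉ B := by
      intro hzB
      apply hzX x0 hx0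
      apply M.mem_closure_of_mem' _ hzE
      refine ⟨hzB, ?_⟩
      rintro rfl
      exact (disjoint_left.1 hXZ) hx0 hz
    refine ⟨M.fundCircuit z B, hB.fundCircuit_isCircuit hzE hzB, ?_⟩
    intro x hx
    have hzcl : z ∈ M.closure B := by rw [hB.closure_eq]; exact hzE
    rw [hB.indep.mem_fundCircuit_iff hzcl hzB]
    have hxB := hXB hx
    have h1 : M.Indep (B \ {x}) := hB.indep.subset sdiff_subset
    have h2 : M.Indep (insert z (B \ {x})) := by
      rw [h1.insert_indep_iff]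
      left; exact ⟨hzE, hzX x hx⟩
    have hzx : z ≠ x := by rintro rfl; exact hzB hxB
    have h3 : insert z B \ {x} = insert z (B \ {x}) := by
      ext y
      simp only [mem_sdiff, mem_insert_iff, mem_singleton_iff]
      constructor
      · rintro ⟨rfl | h, h'⟩
        · left; rfl
        · right; exact ⟨h, h'⟩
      · rintro (rfl | ⟨h, h'⟩)
        · exact ⟨Or.inl rfl, hzx⟩
        · exact ⟨Or.inr h, h'⟩
    rw [h3]; exact h2

end Pool.MP16b4d3
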