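import Pool.Agent.Work.MP_16b4d3_co.Minor

open Set Matroid

namespace Pool.MP16b4d3

variable {α : Type*} {M : Matroid α}

lemma counting [M.Finite] {k ℓ : ℕ} (hk : 2 ≤ k)
    (hflat : ∀ F, M.IsFlat F → rk M F ≤ k - 2 → F.ncard ≤ ℓ) :
    ∀ n, ∀ Z ⊆ M.E, rk M Z ≤ n → ℓ * k ^ (n + 2 - k) < Z.ncard →
      ∃ Z' ⊆ Z, k - 1 ≤ rk M Z' ∧ Thick M k ∅ Z' := by
  classical
  have hbase : ∀ n, ∀ Z ⊆ M.E, ℓ * k ^ (n + 2 - k) < Z.ncard → k - 1 ≤ rk M Z := by
    intro n Z hZE hcard
    by_contra hcon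
    have h1 := hflat (M.closure Z) (M.isFlat_closure Z) (by rw [rk_closure]; omega)
    have h2 : Z.ncard ≤ (M.closure Z).ncard :=
      Set.ncard_le_ncard (M.subset_closure Z hZE)
        (M.ground_finite.subset (M.closure_subset_ground Z))
    have h3 : ℓ * 1 ≤ ℓ * k ^ (n + 2 - k) := Nat.mul_le_mul_left _ (Nat.one_le_pow _ _ (by omega))
    omega
  intro n
  induction n with
  | zero =>
    intro Z hZE hrk hcard
    have := hbase 0 Z hZE hcard
    omega
  | succ n ih =>
    intro Z hZE hrk hcard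
    have hr := hbase _ Z hZE hcard
    by_cases hT : Thick M k ∅ Z
    · exact ⟨Z, subset_rfl, hr, hT⟩
    unfold Thick at hT
    push Not at hT
    obtain ⟨H, hH, hHn⟩ := hT
    have hlt : ∀ i, rk M (H i ∩ Z) ≤ n := by
      intro i
      have h1 := rk_lt_of_not_subset hZE (hHn i)
      rw [empty_union, union_eq_right.2 inter_subset_right] at h1
      omega
    have hex : ∃ i, ℓ * k ^ (n + 2 - k) < (H i ∩ Z).ncard := by
      by_contra hcon
      push Not at hcon
      have h1 : Z.ncard ≤ ∑ i : Fin k, (H i ∩ Z).ncard := by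
        have h2 : Z ⊆ ⋃ i ∈ (Finset.univ : Finset (Fin k)), (H i ∩ Z) := by
          intro z hz
          obtain ⟨i, hi⟩ := mem_iUnion.1 (hH hz)
          exact mem_iUnion₂.2 ⟨i, Finset.mem_univ _, hi, hz⟩
        have h3 : (⋃ i ∈ (Finset.univ : Finset (Fin k)), (H i ∩ Z)).Finite := by
          apply (M.ground_finite.subset hZE).subset
          exact iUnion₂_subset fun i _ => inter_subset_right
        exact (Set.ncard_le_ncard h2 h3).trans (Finset.set_ncard_biUnion_le _ _)
      have h2 : ∑ i : Fin k, (H i ∩ Z).ncard ≤ ∑ _i : Fin k, ℓ * k ^ (n + 2 - k) :=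
        Finset.sum_le_sum fun i _ => hcon i
      rw [Finset.sum_const, Finset.card_univ, Fintype.card_fin, smul_eq_mul] at h2
      have h3 : k * (ℓ * k ^ (n + 2 - k)) = ℓ * k ^ (n + 1 + 2 - k) := by
        have e : n + 1 + 2 - k = (n + 2 - k) + 1 := by omega
        rw [e, pow_succ]; ring
      omega
    obtain ⟨i, hi⟩ := hex
    obtain ⟨Z', hZ', h1, h2⟩ := ih (H i ∩ Z) (inter_subset_right.trans hZE) (hlt i) hi
    exact ⟨Z', hZ'.trans inter_subset_right, h1, h2⟩

/-- a `k`-thick set in the complement of `X` suffices. -/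
theorem restriction_good [M.Finite] {k : ℕ} (hk : 3 ≤ k) (hconn : VConn M k) {X Z : Set α}
    (hXE : X ⊆ M.E) (hXk : X.ncard = k) (hZX : Z ⊆ M.E \ X) (hrk : k - 1 ≤ rk M Z)
    (hth : Thick M k ∅ Z) : Good M X := by
  classical
  have hXf : X.Finite := M.ground_finite.subset hXE
  have hXn : X.Nonempty := by
    rw [← Set.ncard_pos hXf]; omega
  have hZE : Z ⊆ M.E := hZX.trans sdiff_subset
  have hXZ : Disjoint X Z := by
    rw [disjoint_left]; intro a ha ha'; exact (hZX ha').2 ha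
  have hcardZ := hth.card hZE (by rw [rk_empty, empty_union]; omega)
  have hZn : Z.Nonempty := by
    rw [← Set.ncard_pos (M.ground_finite.subset hZE)]; omega
  have hloop : ∀ x ∈ X, x ∉ M.closure ∅ := by
    intro x hx hcl
    have h1 := hconn.1 {x} (singleton_subset_iff.2 (hXE hx)) ⟨x, rfl⟩ (by
      obtain ⟨z, hz⟩ := hZn
      refine ⟨z, hZE hz, ?_⟩
      rintro rfl
      exact (disjoint_left.1 hXZ) hx hz)
    have h2 := rk_insert_of_mem hcl
    rw [rk_empty] at h2
    have h3 := rk_le_ground (M := M) (M.E \ {x})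
    have e : (insert x ∅ : Set α) = {x} := by simp
    rw [e] at h2
    omega
  have hrXk : rk M X ≤ k := by rw [← hXk]; exact rk_le_ncard hXE
  refine T1rel (k := k) (j := min (k - 1) (rk M X)) (C1 := ∅) (by omega) hXE hZE (empty_subset _)
    hXk (disjoint_empty X) hXZ ?_ hloop hth ?_ ?_
  · rw [union_empty, rk_empty]; omega
  · intro A hAE hXA hdisj
    have hZA : Z ⊆ M.E \ A := by
      intro z hz
      exact ⟨hZE hz, fun h => (disjoint_left.1 hdisj) h hz⟩
    have h1 := rk_mono (M := M) hZA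
    have h2 : Z.ncard ≤ (M.E \ A).ncard :=
      Set.ncard_le_ncard hZA (M.ground_finite.subset sdiff_subset)
    have h3 := rk_mono (M := M) hXA
    have h4 : k ≤ A.ncard := by
      rw [← hXk]; exact Set.ncard_le_ncard hXA (M.ground_finite.subset hAE)
    rw [union_empty, union_empty, rk_empty]
    rcases Nat.lt_or_ge (min (k - 1) (rk M X)) 2 with h5 | h5
    · have h6 := hconn.1 A hAE (hXn.mono hXA) (hZn.mono hZA)
      omega
    · have h6 := hconn.2 (min (k - 1) (rk M X)) h5 (by omega) A hAE (by omega) (by omega) h4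
        (by omega)
      omega
  · intro x hx P hP _ hZP A hAP hxA
    rw [union_empty, union_empty, rk_empty]
    rw [not_subset] at hZP
    obtain ⟨z, hz, hzP⟩ := hZP
    have h6 := hconn.1 A (hAP.trans hP.subset_ground) ⟨x, hxA⟩
      ⟨z, hZE hz, fun h => hzP (hAP h)⟩
    omega

theorem density_good [M.Finite] {k ℓ : ℕ} (hk : 3 ≤ k) (hconn : VConn M k)
    (hflat : ∀ F, M.IsFlat F → rk M F ≤ k - 2 → F.ncard ≤ ℓ)
    (hcard : k + ℓ * k ^ (rk M M.E + 2 - k) < M.E.ncard) {X : Set α}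
    (hXE : X ⊆ M.E) (hXk : X.ncard = k) : Good M X := by
  have hXf : X.Finite := M.ground_finite.subset hXE
  have h1 : (M.E \ X).ncard + k = M.E.ncard := by
    rw [← hXk]; exact Set.ncard_sdiff_add_ncard_of_subset hXE M.ground_finite
  obtain ⟨Z, hZ, h2, h3⟩ := counting (M := M) (k := k) (ℓ := ℓ) (by omega) hflat (rk M M.E)
    (M.E \ X) sdiff_subset (rk_le_ground _) (by omega)
  exact restriction_good hk hconn hXE hXk hZ h2 h3

/-- rank of the dual -/
lemma rk_dual [M.Finite] {A : Set α} (hA : A ⊆ M.E) :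
    rk M✶ A + rk M M.E = rk M (M.E \ A) + A.ncard := by
  have h := M.eRk_dual_add_eRank A hA
  have hAf : A.Finite := M.ground_finite.subset hA
  rw [← Matroid.eRk_ground, ← coe_rk, ← coe_rk, ← coe_rk, ← hAf.cast_ncard_eq] at h
  exact_mod_cast h

lemma conn_dual [M.Finite] {A : Set α} (hA : A ⊆ M.E) :
    rk M✶ A + rk M✶ (M.E \ A) + rk M M.E = rk M A + rk M (M.E \ A) + rk M✶ M.E := by
  have h1 := rk_dual hA
  have h2 := rk_dual (M := M) (A := M.E \ A) sdiff_subset
  have h3 := rk_dual (M := M) (A := M.E) subset_rfl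
  rw [sdiff_sdiff_cancel_left hA] at h2
  rw [sdiff_self] at h3
  have h4 : (M.E \ A).ncard + A.ncard = M.E.ncard :=
    Set.ncard_sdiff_add_ncard_of_subset hA M.ground_finite
  have h5 : rk M (∅ : Set α) = 0 := rk_empty
  omega

end Pool.MP16b4d3
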