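import Pool.Agent.Work.MP_16b4d3_co.Uncontract

open Set

namespace Pool.MP16b4d3

variable {α : Type*} {M : Matroid α}

/-- connectivity of `A` in `M / C`. -/
noncomputable def lam (M : Matroid α) (C A : Set α) : ℤ :=
  (rk M (A ∪ C) : ℤ) + rk M ((M.E \ A) ∪ C) - rk M C - rk M M.E

lemma lam_submod [M.Finite] (C A B : Set α) :
    lam M C (A ∩ B) + lam M C (A ∪ B) ≤ lam M C A + lam M C B := by
  have h1 : rk M (A ∩ B ∪ C) + rk M (A ∪ B ∪ C) ≤ rk M (A ∪ C) + rk M (B ∪ C) := by
    apply rk_submod'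
    · exact union_subset_union_left _ inter_subset_left
    · exact union_subset_union_left _ inter_subset_right
    · rintro a ((ha | ha) | ha)
      · exact Or.inl (Or.inl ha)
      · exact Or.inr (Or.inl ha)
      · exact Or.inl (Or.inr ha)
  have h2 : rk M ((M.E \ (A ∪ B)) ∪ C) + rk M ((M.E \ (A ∩ B)) ∪ C) ≤
      rk M ((M.E \ A) ∪ C) + rk M ((M.E \ B) ∪ C) := by
    apply rk_submod'
    · apply union_subset_union_left
      exact sdiff_subset_sdiff_right subset_union_left
    · apply union_subset_union_left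
      exact sdiff_subset_sdiff_right subset_union_right
    · rintro a (⟨ha, ha'⟩ | ha)
      · by_cases haA : a ∈ A
        · exact Or.inr (Or.inl ⟨ha, fun h => ha' ⟨haA, h⟩⟩)
        · exact Or.inl (Or.inl ⟨ha, haA⟩)
      · exact Or.inl (Or.inr ha)
  unfold lam
  omega

/-- (K3) general lower bound. -/
lemma lam_lower [M.Finite] {C A S T : Set α} (hS : S ⊆ A)
    (hT : T ⊆ M.E \ A) (hTE : M.E ⊆ A ∪ (M.E \ A)) :
    (rk M (S ∪ C) : ℤ) + rk M (T ∪ C) ≤ lam M C A + rk M C + rk M (S ∪ T ∪ C) := by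
  have h1 : rk M (S ∪ C) + rk M (A ∪ T ∪ C) ≤ rk M (A ∪ C) + rk M (S ∪ T ∪ C) := by
    apply rk_submod'
    · exact union_subset_union_left _ hS
    · exact union_subset_union_left _ subset_union_left
    · rintro a ((ha | ha) | ha)
      · exact Or.inl (Or.inl ha)
      · exact Or.inr (Or.inl (Or.inr ha))
      · exact Or.inl (Or.inr ha)
  have h2 : rk M (T ∪ C) + rk M M.E ≤ rk M (A ∪ T ∪ C) + rk M ((M.E \ A) ∪ C) := by
    apply rk_submod'
    · exact union_subset_union_left _ subset_union_right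
    · exact union_subset_union_left _ hT
    · intro a ha
      rcases hTE ha with h | h
      · exact Or.inl (Or.inl (Or.inl h))
      · exact Or.inr (Or.inl h)
  unfold lam
  omega

lemma subset_union_sdiff (A : Set α) : M.E ⊆ A ∪ (M.E \ A) := by
  intro a ha
  by_cases h : a ∈ A
  · exact Or.inl h
  · exact Or.inr ⟨ha, h⟩

lemma lam_nonneg [M.Finite] (C A : Set α) : 0 ≤ lam M C A := by
  have h := lam_lower (M := M) (C := C) (A := A) (S := ∅) (T := ∅) (empty_subset _)
    (empty_subset _) (subset_union_sdiff A)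
  simp only [empty_union] at h
  omega

lemma lam_empty [M.Finite] {C : Set α} (hC : C ⊆ M.E) : lam M C ∅ = 0 := by
  unfold lam
  have h1 : (M.E \ ∅) ∪ C = M.E := by
    rw [sdiff_empty]; exact union_eq_left.2 hC
  rw [h1, empty_union]
  omega

lemma lam_union_le [M.Finite] (C A B : Set α) : lam M C (A ∪ B) ≤ lam M C A + lam M C B := by
  have h1 := lam_submod (M := M) C A B
  have h2 := lam_nonneg (M := M) C (A ∩ B)
  omega

lemma lam_iUnion_le [M.Finite] {C : Set α} (hC : C ⊆ M.E) {ι : Type*} (S : ι → Set α)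
    (F : Finset ι) : lam M C (⋃ j ∈ F, S j) ≤ ∑ j ∈ F, lam M C (S j) := by
  classical
  induction F using Finset.induction_on with
  | empty => simp [lam_empty hC]
  | insert a F ha ih =>
    rw [Finset.set_biUnion_insert, Finset.sum_insert ha]
    exact (lam_union_le _ _ _).trans (by omega)

/-- (K1) -/
lemma lam_insert_insert [M.Finite] {C A : Set α} {e : α} :
    lam M C (insert e A) ≤ lam M (insert e C) A + 1 := by
  have h1 : rk M (insert e A ∪ C) = rk M (A ∪ insert e C) := by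
    congr 1; ext a; simp only [mem_union, mem_insert_iff]; tauto
  have h2 : rk M ((M.E \ insert e A) ∪ C) ≤ rk M ((M.E \ A) ∪ insert e C) := by
    apply rk_mono
    rintro a (⟨ha, ha'⟩ | ha)
    · exact Or.inl ⟨ha, fun h => ha' (Or.inr h)⟩
    · exact Or.inr (Or.inr ha)
  have h3 := rk_insert_le (M := M) e C
  unfold lam
  omega

/-- (K2) connectivity decreases under contraction. -/
lemma lam_anti [M.Finite] {C1 C0 A : Set α} (h10 : C1 ⊆ C0) (hC0 : C0 ⊆ M.E) :
    lam M C0 A ≤ lam M C1 A := by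
  have h1 : rk M (C1 ∪ (C0 ∩ A)) + rk M (A ∪ C0) ≤ rk M (A ∪ C1) + rk M C0 := by
    apply rk_submod'
    · rintro a (ha | ⟨-, ha⟩)
      · exact Or.inr ha
      · exact Or.inl ha
    · rintro a (ha | ⟨ha, -⟩)
      · exact h10 ha
      · exact ha
    · rintro a (ha | ha)
      · exact Or.inl (Or.inl ha)
      · exact Or.inr ha
  have h2 : rk M C1 + rk M ((M.E \ A) ∪ C0) ≤ rk M ((M.E \ A) ∪ C1) + rk M (C1 ∪ (C0 ∩ A)) := by
    apply rk_submod'
    · exact subset_union_right
    · exact subset_union_left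
    · rintro a (ha | ha)
      · exact Or.inl (Or.inl ha)
      · by_cases haA : a ∈ A
        · exact Or.inr (Or.inr ⟨ha, haA⟩)
        · exact Or.inl (Or.inl ⟨hC0 ha, haA⟩)
  unfold lam
  omega

/-- two disjoint spanning sets of `Z` over `C0` on the two sides of `A`. -/
lemma lam_big [M.Finite] {C1 C0 A S T Z : Set α} (h10 : C1 ⊆ C0) (hC0 : C0 ⊆ M.E)
    (hS : S ⊆ A) (hT : T ⊆ M.E \ A) (hSZ : S ⊆ Z) (hTZ : T ⊆ Z)
    (hSs : Z ⊆ M.closure (C0 ∪ S)) (hTs : Z ⊆ M.closure (C0 ∪ T)) :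
    (rk M (C0 ∪ Z) : ℤ) ≤ lam M C1 A + rk M C0 := by
  have h1 := lam_anti (A := A) h10 hC0
  have h2 := lam_lower (M := M) (C := C0) hS hT (subset_union_sdiff A)
  have h3 : rk M (C0 ∪ Z) ≤ rk M (S ∪ C0) := by
    have := rk_union_of_subset_closure hSs
    have h4 : rk M (C0 ∪ Z) ≤ rk M (C0 ∪ S ∪ Z) := by
      apply rk_mono
      rintro a (ha | ha)
      · exact Or.inl (Or.inl ha)
      · exact Or.inr ha
    rw [union_comm S C0]; omega
  have h4 : rk M (C0 ∪ Z) ≤ rk M (T ∪ C0) := by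
    have := rk_union_of_subset_closure hTs
    have h4 : rk M (C0 ∪ Z) ≤ rk M (C0 ∪ T ∪ Z) := by
      apply rk_mono
      rintro a (ha | ha)
      · exact Or.inl (Or.inl ha)
      · exact Or.inr ha
    rw [union_comm T C0]; omega
  have h5 : rk M (S ∪ T ∪ C0) ≤ rk M (C0 ∪ Z) := by
    apply rk_mono
    rintro a ((ha | ha) | ha)
    · exact Or.inr (hSZ ha)
    · exact Or.inr (hTZ ha)
    · exact Or.inl ha
  omega

/-- a finite family of sets closed under unions has a largest member (or is empty). -/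
lemma exists_top {T : Set (Set α)} (hfin : T.Finite) (hU : ∀ A ∈ T, ∀ B ∈ T, A ∪ B ∈ T) :
    ∃ A0, (A0 = ∅ ∨ A0 ∈ T) ∧ ∀ A ∈ T, A ⊆ A0 := by
  rcases T.eq_empty_or_nonempty with rfl | hne
  · exact ⟨∅, Or.inl rfl, by simp⟩
  · obtain ⟨A0, hA0, hmax⟩ := hfin.exists_maximal hne
    refine ⟨A0, Or.inr hA0, fun A hA => ?_⟩
    have h := hmax (hU A hA A0 hA0) subset_union_right
    exact subset_union_left.trans h

end Pool.MP16b4d3
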