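import Pool.Agent.Work.MP_16b4d3_co.Rank

open Set

namespace Pool.MP16b4d3

variable {α : Type*} {M : Matroid α}

/-- Matroid intersection / linking lemma: if every cut of `V` has value at least
`m + r(P) + r(Q)`, there is an `m`-element subset of `V` that is independent over `P`
and over `Q`. -/
theorem link [M.Finite] (n : ℕ) : ∀ (V : Set α), V ⊆ M.E → V.ncard = n → ∀ (P Q : Set α) (m : ℕ),
    (∀ U ⊆ V, m + rk M P + rk M Q ≤ rk M (U ∪ P) + rk M ((V \ U) ∪ Q)) →
    ∃ I ⊆ V, I.ncard = m ∧ rk M (I ∪ P) = rk M P + m ∧ rk M (I ∪ Q) = rk M Q + m := by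
  induction n with
  | zero =>
    intro V hVE hV P Q m h
    have hVf : V.Finite := M.ground_finite.subset hVE
    have hV0 : V = ∅ := (Set.ncard_eq_zero hVf).1 hV
    subst hV0
    have := h ∅ (subset_refl _)
    simp only [empty_union, sdiff_self] at this
    have hm : m = 0 := by omega
    subst hm
    exact ⟨∅, subset_refl _, by simp, by simp, by simp⟩
  | succ n ih =>
    intro V hVE hV P Q m h
    have hVf : V.Finite := M.ground_finite.subset hVE
    rcases Nat.eq_zero_or_pos m with hm | hm
    · subst hm
      exact ⟨∅, empty_subset _, by simp, by simp, by simp⟩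
    by_cases hex : ∃ e ∈ V, e ∉ M.closure P ∧ e ∉ M.closure Q
    · obtain ⟨e, heV, heP, heQ⟩ := hex
      have heE := hVE heV
      set V' := V \ {e} with hV'
      have hV'n : V'.ncard = n := by
        rw [hV', Set.ncard_sdiff_singleton_of_mem heV, hV]; rfl
      have hV'E : V' ⊆ M.E := sdiff_subset.trans hVE
      have heV' : e ∉ V' := by simp [hV']
      by_cases h1 : ∀ U ⊆ V', m + rk M P + rk M Q ≤ rk M (U ∪ P) + rk M ((V' \ U) ∪ Q)
      · obtain ⟨I, hI, h2⟩ := ih V' hV'E hV'n P Q m h1
        exact ⟨I, hI.trans sdiff_subset, h2⟩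
      by_cases h2 : ∀ U ⊆ V', (m - 1) + rk M (insert e P) + rk M (insert e Q) ≤
          rk M (U ∪ insert e P) + rk M ((V' \ U) ∪ insert e Q)
      · obtain ⟨I, hI, hIm, hIP, hIQ⟩ := ih V' hV'E hV'n (insert e P) (insert e Q) (m-1) h2
        have hIf : I.Finite := hVf.subset (hI.trans sdiff_subset)
        have heI : e ∉ I := fun h' => heV' (hI h')
        refine ⟨insert e I, insert_subset heV (hI.trans sdiff_subset), ?_, ?_, ?_⟩
        · rw [Set.ncard_insert_of_notMem heI hIf]; omega
        · rw [rk_insert_of_notMem heE heP] at hIP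
          have : insert e I ∪ P = I ∪ insert e P := by
            ext x; simp only [mem_union, mem_insert_iff]; tauto
          rw [this]; omega
        · rw [rk_insert_of_notMem heE heQ] at hIQ
          have : insert e I ∪ Q = I ∪ insert e Q := by
            ext x; simp only [mem_union, mem_insert_iff]; tauto
          rw [this]; omega
      exfalso
      push Not at h1 h2
      obtain ⟨U1, hU1, h1⟩ := h1
      obtain ⟨U2, hU2, h2⟩ := h2
      rw [rk_insert_of_notMem heE heP, rk_insert_of_notMem heE heQ] at h2
      have k1 := h (insert e (U1 ∪ U2))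
        (insert_subset heV (union_subset (hU1.trans sdiff_subset) (hU2.trans sdiff_subset)))
      have k2 := h (U1 ∩ U2) (inter_subset_left.trans (hU1.trans sdiff_subset))
      have s1 : rk M (U1 ∩ U2 ∪ P) + rk M (insert e (U1 ∪ U2) ∪ P) ≤
          rk M (U1 ∪ P) + rk M (U2 ∪ insert e P) := by
        apply rk_submod'
        · rintro x (⟨hx, -⟩ | hx)
          · exact Or.inl hx
          · exact Or.inr hx
        · rintro x (⟨-, hx⟩ | hx)
          · exact Or.inl hx
          · exact Or.inr (Or.inr hx)
        · rintro x ((rfl | hx | hx) | hx)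
          · right; right; left; rfl
          · left; left; exact hx
          · right; left; exact hx
          · left; right; exact hx
      have s2 : rk M ((V \ insert e (U1 ∪ U2)) ∪ Q) + rk M ((V \ (U1 ∩ U2)) ∪ Q) ≤
          rk M ((V' \ U1) ∪ Q) + rk M ((V' \ U2) ∪ insert e Q) := by
        apply rk_submod'
        · rintro x (⟨hx, hx'⟩ | hx)
          · left; exact ⟨⟨hx, fun h' => hx' (Or.inl h')⟩, fun h' => hx' (Or.inr (Or.inl h'))⟩
          · right; exact hx
        · rintro x (⟨hx, hx'⟩ | hx)
          · left; exact ⟨⟨hx, fun h' => hx' (Or.inl h')⟩, fun h' => hx' (Or.inr (Or.inr h'))⟩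
          · right; right; exact hx
        · rintro x (⟨hx, hx'⟩ | hx)
          · by_cases hxe : x = e
            · right; right; left; exact hxe
            by_cases hx1 : x ∈ U1
            · right; left
              exact ⟨⟨hx, hxe⟩, fun h' => hx' ⟨hx1, h'⟩⟩
            · left; left
              exact ⟨⟨hx, hxe⟩, hx1⟩
          · left; right; exact hx
      omega
    · exfalso
      push Not at hex
      have h0 := h (V ∩ M.closure P) inter_subset_left
      have h1 : rk M (V ∩ M.closure P ∪ P) ≤ rk M P := by
        have : rk M (V ∩ M.closure P ∪ P) ≤ rk M (M.closure P ∪ P) :=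
          rk_mono (union_subset_union_left _ inter_subset_right)
        rw [rk_closure_union, union_self] at this; exact this
      have h2 : rk M ((V \ (V ∩ M.closure P)) ∪ Q) ≤ rk M Q := by
        have : rk M ((V \ (V ∩ M.closure P)) ∪ Q) ≤ rk M (M.closure Q ∪ Q) := by
          apply rk_mono
          apply union_subset_union_left
          rintro x ⟨hx, hx'⟩
          exact hex x hx (fun h' => hx' ⟨hx, h'⟩)
        rw [rk_closure_union, union_self] at this; exact this
      omega

/-- If `I` is free over `P` then it is free over every subset `P'` of `P`. -/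
lemma free_mono [M.Finite] {I P P' : Set α} (hP : P' ⊆ P) (hI : I ⊆ M.E)
    (h : rk M P + I.ncard ≤ rk M (I ∪ P)) : rk M (I ∪ P') = rk M P' + I.ncard := by
  apply le_antisymm
  · rw [union_comm]; exact rk_union_le_ncard hI
  · have : rk M P' + rk M (I ∪ P) ≤ rk M P + rk M (I ∪ P') := by
      apply rk_submod' hP subset_union_right
      rintro x (hx | hx)
      · right; left; exact hx
      · left; exact hx
    omega

end Pool.MP16b4d3
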