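import Pool.Agent.Work.MP_16b4d3_co.Big

open Set

namespace Pool.MP16b4d3

variable {α : Type*} {M : Matroid α}

/-- complement of two small sets still spans. -/
lemma two_small [M.Finite] {t k : ℕ} (ht : 1 ≤ t) (hk : 2 ≤ k) {C0 Z A B : Set α}
    (hth : Thick M (t + k) C0 Z) (hA : Small M C0 Z A) (hB : Small M C0 Z B) :
    Thick M t C0 (Z \ (A ∪ B)) ∧ Z ⊆ M.closure (C0 ∪ (Z \ (A ∪ B))) := by
  have h := hth.remove (t := k) ht (ι := Bool) (by simpa using hk)
    (fun b => cond b A B) (by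
      rintro (_ | _)
      · exact hB
      · exact hA)
  have e : (⋃ b : Bool, cond b A B) = A ∪ B := by
    ext a; simp only [mem_iUnion, Bool.exists_bool, cond_false, cond_true, mem_union]; tauto
  rwa [e] at h

lemma small_union_of_lam [M.Finite] {t k j : ℕ} (ht : 1 ≤ t) (hk : 2 ≤ k)
    {C0 C1 Z A B : Set α} (hC0E : C0 ⊆ M.E) (hZE : Z ⊆ M.E)
    (hth : Thick M (t + k) C0 Z) (hrk : rk M C0 + j ≤ rk M (C0 ∪ Z))
    (h10 : C1 ⊆ C0) (hA : Small M C0 Z A) (hB : Small M C0 Z B)
    (hlam : lam M C1 (A ∪ B) < j) : Small M C0 Z (A ∪ B) := by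
  intro hbig
  obtain ⟨-, h2⟩ := two_small ht hk hth hA hB
  have h3 : (Z \ (A ∪ B)) ⊆ M.E \ (A ∪ B) := by
    rintro z ⟨hz, hz'⟩
    exact ⟨hZE hz, hz'⟩
  have h4 := lam_big (M := M) (A := A ∪ B) (S := (A ∪ B) ∩ Z) h10 hC0E inter_subset_left h3
    inter_subset_right sdiff_subset hbig h2
  omega

theorem main_rel [M.Finite] {k j : ℕ} (hk : 2 ≤ k) {X C0 Z : Set α} (hXE : X ⊆ M.E)
    (hZE : Z ⊆ M.E) (hC0E : C0 ⊆ M.E) (hXk : X.ncard = k) (hXC : Disjoint X C0)
    (hXZ : Disjoint X Z) (hj : rk M X ≤ j ∨ k = j + 1) (hjk : j < k) (hj1 : 1 ≤ j)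
    {s : ℕ} (hs : k ^ (2 ^ (2 * k - 1)) ≤ s)
    (hth : Thick M (s + (k + 1)) C0 Z) (hrk : rk M C0 + j ≤ rk M (C0 ∪ Z))
    (hrk2 : rk M C0 + 2 ≤ rk M (C0 ∪ Z))
    (hreq : Req M j X C0 Z ∅) : Good M X := by
  classical
  have hs1 : 1 ≤ s := (Nat.one_le_pow _ _ (by omega)).trans hs
  have hXf : X.Finite := M.ground_finite.subset hXE
  -- maximal `C1`
  obtain ⟨C1, ⟨h10, hreq1⟩, hmax⟩ : ∃ C1, Maximal (fun C1 => C1 ⊆ C0 ∧ Req M j X C0 Z C1) C1 := by
    have hfin : {C1 : Set α | C1 ⊆ C0 ∧ Req M j X C0 Z C1}.Finite := by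
      apply (M.ground_finite.finite_subsets).subset
      rintro C1 ⟨h, -⟩
      exact h.trans hC0E
    exact hfin.exists_maximal ⟨∅, empty_subset _, hreq⟩
  have hC1E : C1 ⊆ M.E := h10.trans hC0E
  have hsm0 : Small M C0 Z ∅ := small_empty (by omega)
  -- tight families
  set T0 : Set (Set α) := {A | A ⊆ M.E ∧ X ⊆ A ∧ Small M C0 Z A ∧ lam M C1 A ≤ (j : ℤ)} with hT0
  have hT0fin : T0.Finite := by
    apply (M.ground_finite.finite_subsets).subset
    rintro A ⟨h, -⟩; exact h
  have hthk : Thick M (k + k) C0 Z := by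
    apply hth.mono_num (by omega)
    have : k ≤ s := le_trans (Nat.le_self_pow (by positivity) k) hs
    omega
  by_cases hbigex : ∃ A ∈ T0, ∃ B ∈ T0, ¬ Small M C0 Z (A ∪ B)
  · -- two tight sets with a big union
    obtain ⟨A, ⟨hA1, hA2, hA3, hA4⟩, B, ⟨hB1, hB2, hB3, hB4⟩, hAB⟩ := hbigex
    have h1 := lam_submod (M := M) C1 A B
    have h2 := hreq1.1 (A ∩ B) (inter_subset_left.trans hA1) (subset_inter hA2 hB2)
      (hA3.mono inter_subset_left)
    obtain ⟨h3, h4⟩ := two_small (by omega) hk hthk hA3 hB3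
    exact big_case hk hXE hZE hC0E hXk hXC hXZ hj hj1 hrk h10 hreq1 (union_subset hA1 hB1)
      (hA2.trans subset_union_left) (by omega) (not_not.1 hAB) h3 h4
  push Not at hbigex
  have hT0U : ∀ A ∈ T0, ∀ B ∈ T0, A ∪ B ∈ T0 := by
    intro A hA B hB
    have hsm := hbigex A hA B hB
    obtain ⟨hA1, hA2, hA3, hA4⟩ := hA
    obtain ⟨hB1, hB2, hB3, hB4⟩ := hB
    have h1 := lam_submod (M := M) C1 A B
    have h2 := hreq1.1 (A ∩ B) (inter_subset_left.trans hA1) (subset_inter hA2 hB2)
      (hA3.mono inter_subset_left)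
    exact ⟨union_subset hA1 hB1, hA2.trans subset_union_left, hsm, by omega⟩
  obtain ⟨A0, hA0, hA0max⟩ := exists_top hT0fin hT0U
  set T1 : α → Set (Set α) := fun x =>
    {A | A ⊆ M.E ∧ x ∈ A ∧ Small M C0 Z A ∧ lam M C1 A ≤ 1} with hT1
  have hTx : ∀ x, ∃ Ax, x ∈ X → ((Ax = ∅ ∨ Ax ∈ T1 x) ∧ ∀ A ∈ T1 x, A ⊆ Ax) := by
    intro x
    by_cases hx : x ∈ X
    · have hfin : (T1 x).Finite := by
        apply (M.ground_finite.finite_subsets).subset
        rintro A ⟨h, -⟩; exact h
      have hU : ∀ A ∈ T1 x, ∀ B ∈ T1 x, A ∪ B ∈ T1 x := by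
        rintro A ⟨hA1, hA2, hA3, hA4⟩ B ⟨hB1, hB2, hB3, hB4⟩
        have h1 := lam_submod (M := M) C1 A B
        have h2 := hreq1.2 x hx (A ∩ B) (inter_subset_left.trans hA1) ⟨hA2, hB2⟩
          (hA3.mono inter_subset_left)
        have h3 : lam M C1 (A ∪ B) ≤ 1 := by omega
        exact ⟨union_subset hA1 hB1, Or.inl hA2,
          small_union_of_lam (t := k) (k := k) (j := 2) (by omega) hk hC0E hZE hthk hrk2 h10
            hA3 hB3 (by push_cast; omega), h3⟩
      obtain ⟨Ax, h⟩ := exists_top hfin hU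
      exact ⟨Ax, fun _ => h⟩
    · exact ⟨∅, fun h => absurd h hx⟩
  choose Ax hAx using hTx
  -- the union of all tight sets
  have : Fintype X := hXf.fintype
  set S : Option X → Set α := fun o => o.elim A0 (fun x => Ax x.1) with hS
  have hSsmall : ∀ o, Small M C0 Z (S o) := by
    rintro (_ | ⟨x, hx⟩)
    · rcases hA0 with h | h
      · change Small M C0 Z A0; rw [h]; exact hsm0
      · exact h.2.2.1
    · change Small M C0 Z (Ax x)
      rcases (hAx x hx).1 with h | h
      · rw [h]; exact hsm0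
      · exact h.2.2.1
  set As := ⋃ o, S o with hAs
  have hcardX : Fintype.card X = k := by
    rw [← hXk, ← Nat.card_eq_fintype_card]; rfl
  have hlamAs : lam M C1 As ≤ 2 * k - 1 := by
    have h1 := lam_iUnion_le (M := M) hC1E S Finset.univ
    have h2 : (⋃ j ∈ (Finset.univ : Finset (Option X)), S j) = As := by simp [hAs]
    rw [h2] at h1
    rw [Fintype.sum_option] at h1
    have h3 : lam M C1 (S none) ≤ k - 1 := by
      change lam M C1 A0 ≤ k - 1
      rcases hA0 with h | h
      · rw [h, lam_empty hC1E]; omega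
      · exact h.2.2.2.trans (by omega)
    have h4 : ∑ x : X, lam M C1 (S (some x)) ≤ ∑ _x : X, (1 : ℤ) := by
      apply Finset.sum_le_sum
      rintro ⟨x, hx⟩ -
      change lam M C1 (Ax x) ≤ 1
      rcases (hAx x hx).1 with h | h
      · rw [h, lam_empty hC1E]; omega
      · exact h.2.2.2
    rw [Finset.sum_const, Finset.card_univ, hcardX] at h4
    simp only [nsmul_eq_mul, mul_one] at h4
    omega
  have hC2As : C0 \ C1 ⊆ As := by
    rintro e ⟨he, he'⟩
    have hnr : ¬ Req M j X C0 Z (insert e C1) := by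
      intro h
      have := hmax (y := insert e C1) ⟨insert_subset he h10, h⟩ (subset_insert _ _)
      exact he' (this (mem_insert _ _))
    have heE := hC0E he
    unfold Req at hnr
    rw [not_and_or] at hnr
    rcases hnr with h | h
    · push Not at h
      obtain ⟨A, hA1, hA2, hA3, hA4⟩ := h
      have h1 := lam_insert_insert (M := M) (C := C1) (A := A) (e := e)
      have h2 : insert e A ∈ T0 :=
        ⟨insert_subset heE hA1, hA2.trans (subset_insert _ _), small_insert he hA3, by omega⟩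
      exact mem_iUnion.2 ⟨none, hA0max _ h2 (mem_insert _ _)⟩
    · push Not at h
      obtain ⟨x, hx, A, hA1, hA2, hA3, hA4⟩ := h
      have h1 := lam_insert_insert (M := M) (C := C1) (A := A) (e := e)
      have h2 : insert e A ∈ T1 x :=
        ⟨insert_subset heE hA1, Or.inr hA2, small_insert he hA3, by omega⟩
      exact mem_iUnion.2 ⟨some ⟨x, hx⟩, (hAx x hx).2 _ h2 (mem_insert _ _)⟩
  -- `Z*`
  obtain ⟨hthZs, hZs⟩ := hth.remove (t := k + 1) hs1 (ι := Option X)
    (by rw [Fintype.card_option, hcardX]) S hSsmall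
  set Zs := Z \ ⋃ o, S o with hZsdef
  have hZsE : Zs ⊆ M.E := sdiff_subset.trans hZE
  have hC2E : C0 \ C1 ⊆ M.E := sdiff_subset.trans hC0E
  -- relative bases
  obtain ⟨J2, -, hJ2C, hJ2r, hJ2s⟩ := exists_relBasis (M := M) (C := C1 ∪ Zs) (D := C0 \ C1)
    (I0 := ∅) hC2E (empty_subset _) (by simp)
  have hJ2E := hJ2C.trans hC2E
  have hJ2r' := free_mono (M := M) (P := C1 ∪ Zs) (P' := C1) subset_union_left hJ2E (by omega)
  obtain ⟨J3, hJ23, hJ3C, hJ3r, hJ3s⟩ := exists_relBasis (M := M) (C := C1) (D := C0 \ C1)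
    (I0 := J2) hC2E hJ2C hJ2r'
  have hJ3E := hJ3C.trans hC2E
  have hJ3f : J3.Finite := M.ground_finite.subset hJ3E
  have hU01 : C0 \ C1 ∪ C1 = C0 := sdiff_union_of_subset h10
  have hclJ3 : M.closure (J3 ∪ C1) = M.closure C0 := by
    apply closure_eq_of_rk
    · apply M.closure_subset_closure
      exact union_subset (hJ3C.trans sdiff_subset) h10
    · rw [hJ3s, hU01]
  have hcard : (J3 \ J2).ncard ≤ 2 * k - 1 := by
    have h1 := lam_lower (M := M) (C := C1) (A := As) (S := C0 \ C1) (T := Zs) hC2As (by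
      rintro z ⟨hz, hz'⟩; exact ⟨hZE hz, hz'⟩) (subset_union_sdiff As)
    have h2 : (J3 \ J2).ncard + J2.ncard = J3.ncard := Set.ncard_sdiff_add_ncard_of_subset hJ23 hJ3f
    have e1 : C0 \ C1 ∪ Zs ∪ C1 = C0 \ C1 ∪ (C1 ∪ Zs) := by
      ext a; simp only [mem_union]; tauto
    have e2 : Zs ∪ C1 = C1 ∪ Zs := union_comm _ _
    rw [e1, e2] at h1
    omega
  -- uncontract
  obtain ⟨Jf, hJf⟩ : ∃ Jf : Finset α, (Jf : Set α) = J3 \ J2 :=
    (hJ3f.subset sdiff_subset).exists_finset_coe
  have hJfcard : Jf.card ≤ 2 * k - 1 := by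
    rw [← Set.ncard_coe_finset, hJf]; exact hcard
  have hJfE : (Jf : Set α) ⊆ M.E := by rw [hJf]; exact sdiff_subset.trans hJ3E
  have hJU : (Jf : Set α) ∪ (J2 ∪ C1) = J3 ∪ C1 := by
    rw [hJf, ← union_assoc, sdiff_union_of_subset hJ23]
  have hth3 : Thick M (k ^ (2 ^ Jf.card)) (↑Jf ∪ (J2 ∪ C1)) Zs := by
    rw [hJU]
    apply Thick.congr_closure hclJ3.symm
    apply hthZs.mono_num (Nat.one_le_pow _ _ (by omega))
    refine le_trans ?_ hs
    exact Nat.pow_le_pow_right (by omega) (Nat.pow_le_pow_right (by omega) hJfcard)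
  obtain ⟨Zz, hZz, hthZz, hclZz⟩ := uncontract (M := M) (s := k) (by omega)
    (union_subset hJ2E hC1E) Jf hJfE Zs hZsE hth3
  rw [hJU] at hclZz
  have hZzE : Zz ⊆ M.E := hZz.trans hZsE
  have hZzZ : Zz ⊆ Z := hZz.trans sdiff_subset
  have hthk1 : Thick M k C1 Zz := by
    apply hthZz.drop hJ2E hZzE
    have := free_mono (M := M) (P := C1 ∪ Zs) (P' := C1 ∪ Zz) (I := J2)
      (union_subset_union_right _ hZz) hJ2E (by omega)
    omega
  have hZzspan : Z ⊆ M.closure (C0 ∪ Zz) := by
    refine hZs.trans (M.closure_subset_closure_of_subset_closure ?_)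
    apply union_subset
    · exact M.subset_closure_of_subset' subset_union_left hC0E
    · refine hclZz.trans ?_
      rw [M.closure_union_congr_left hclJ3]
  -- apply the core lemma
  have hjC1 : rk M (X ∪ C1) ≤ rk M C1 + j ∨ k = j + 1 := by
    rcases hj with h | h
    · left
      have h1 : rk M ∅ + rk M (X ∪ C1) ≤ rk M X + rk M C1 :=
        rk_submod' (empty_subset _) (empty_subset _) subset_rfl
      omega
    · exact Or.inr h
  refine T1rel (j := j) hk hXE hZzE hC1E hXk (hXC.mono_right h10) (hXZ.mono_right hZzZ) hjC1 ?_ hthk1 ?_ ?_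
  · -- H1
    intro x hx hcl
    have hsm : Small M C0 Z {x} := by
      intro h
      have h1 : ({x} : Set α) ∩ Z = ∅ := by
        ext a; simp only [mem_inter_iff, mem_singleton_iff, mem_empty_iff_false, iff_false]
        rintro ⟨rfl, h'⟩; exact (disjoint_left.1 hXZ) hx h'
      rw [h1, union_empty] at h
      have := rk_union_of_subset_closure h
      omega
    have h1 := hreq1.2 x hx {x} (singleton_subset_iff.2 (hXE hx)) rfl hsm
    have h2 := rk_insert_of_mem hcl
    have h3 := rk_le_ground (M := M) ((M.E \ {x}) ∪ C1)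
    unfold lam at h1
    rw [singleton_union] at h1
    omega
  · -- H3
    intro A hA hXA hdisj
    have hgoal : (j : ℤ) ≤ lam M C1 A := by
      by_cases hsm : Small M C0 Z A
      · exact hreq1.1 A hA hXA hsm
      · have hbig : Z ⊆ M.closure (C0 ∪ (A ∩ Z)) := not_not.1 hsm
        have hT : Zz ⊆ M.E \ A := by
          intro z hz
          exact ⟨hZzE hz, fun h => (disjoint_left.1 hdisj) h hz⟩
        have := lam_big (M := M) (A := A) (S := A ∩ Z) (T := Zz) h10 hC0E inter_subset_left hT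
          inter_subset_right hZzZ hbig hZzspan
        omega
    unfold lam at hgoal
    omega
  · -- H4
    intro x hx P hP hC1P hZP A hAP hxA
    have hgoal : 1 ≤ lam M C1 A := by
      by_cases hsm : Small M C0 Z A
      · exact hreq1.2 x hx A (hAP.trans hP.subset_ground) hxA hsm
      · have hbig : Z ⊆ M.closure (C0 ∪ (A ∩ Z)) := not_not.1 hsm
        have hZP' : Zz ⊆ M.closure (C1 ∪ (Zz \ P)) := by
          obtain ⟨b, hb⟩ := hthk1.apply (ι := Bool) (by simpa using hk)
            (fun b => cond b P (univ \ P)) (by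
              intro z hz
              by_cases h : z ∈ P
              · exact mem_iUnion.2 ⟨true, h⟩
              · exact mem_iUnion.2 ⟨false, mem_univ z, h⟩)
          rcases b with _ | _
          · refine hb.trans (M.closure_subset_closure (union_subset_union_right _ ?_))
            rintro z ⟨⟨-, h⟩, hz⟩
            exact ⟨hz, h⟩
          · exfalso
            apply hZP
            have h5 : M.closure (C1 ∪ (P ∩ Zz)) ⊆ M.closure P :=
              M.closure_subset_closure (union_subset hC1P inter_subset_left)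
            rw [hP.closure] at h5
            exact Subset.trans hb h5
        have hspan2 : Z ⊆ M.closure (C0 ∪ (Zz \ P)) := by
          refine hZzspan.trans (M.closure_subset_closure_of_subset_closure ?_)
          apply union_subset
          · exact M.subset_closure_of_subset' subset_union_left hC0E
          · exact hZP'.trans (M.closure_subset_closure (union_subset_union_left _ h10))
        have hT : Zz \ P ⊆ M.E \ A := by
          rintro z ⟨hz, hz'⟩
          exact ⟨hZzE hz, fun h => hz' (hAP h)⟩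
        have := lam_big (M := M) (A := A) (S := A ∩ Z) (T := Zz \ P) h10 hC0E inter_subset_left hT
          inter_subset_right (sdiff_subset.trans hZzZ) hbig hspan2
        omega
    unfold lam at hgoal
    omega

end Pool.MP16b4d3
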