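import Pool.Agent.Work.MP_16b4d3_co.Main

open Set

namespace Pool.MP16b4d3

variable {α : Type*} {M : Matroid α}

/-- the thickness constant. -/
def Dk (k : ℕ) : ℕ := (k ^ (2 ^ (2 * k - 1)) + (2 * k + 1)) ^ (2 ^ k)

theorem main_rel' [M.Finite] {k j : ℕ} (hk : 2 ≤ k) {X C0 Z : Set α} (hXE : X ⊆ M.E)
    (hZE : Z ⊆ M.E) (hC0E : C0 ⊆ M.E) (hXk : X.ncard = k)
    (hj : rk M X ≤ j ∨ k = j + 1) (hjk : j < k) (hj1 : 1 ≤ j)
    (hth : Thick M (Dk k) C0 Z) (hrk : rk M C0 + j ≤ rk M (C0 ∪ Z))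
    (hrk0 : rk M C0 + 2 ≤ rk M (C0 ∪ Z))
    (hreq : Req M j X C0 Z ∅) : Good M X := by
  classical
  have hXf : X.Finite := M.ground_finite.subset hXE
  set s := k ^ (2 ^ (2 * k - 1)) with hs
  have hs1 : 1 ≤ s := Nat.one_le_pow _ _ (by omega)
  set C0' := C0 \ X with hC0'
  have hC0'E : C0' ⊆ M.E := sdiff_subset.trans hC0E
  have hXC' : Disjoint X C0' := disjoint_sdiff_right
  obtain ⟨Jf, hJf⟩ : ∃ Jf : Finset α, (Jf : Set α) = X ∩ C0 :=
    (hXf.subset inter_subset_left).exists_finset_coe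
  have hJU : (Jf : Set α) ∪ C0' = C0 := by
    rw [hJf]
    ext a; simp only [mem_union, mem_inter_iff, hC0', mem_sdiff]; tauto
  have hJE : (Jf : Set α) ⊆ M.E := by rw [hJf]; exact inter_subset_left.trans hXE
  have hJcard : Jf.card ≤ k := by
    rw [← Set.ncard_coe_finset, hJf, ← hXk]
    exact Set.ncard_le_ncard inter_subset_left hXf
  have hth1 : Thick M ((s + (k + 1) + k) ^ (2 ^ Jf.card)) (↑Jf ∪ C0') Z := by
    rw [hJU]
    apply hth.mono_num (Nat.one_le_pow _ _ (by omega))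
    have e1 : s + (k + 1) + k = s + (2 * k + 1) := by omega
    rw [e1]
    exact Nat.pow_le_pow_right (by omega) (Nat.pow_le_pow_right (by omega) hJcard)
  obtain ⟨Z1, hZ1Z, hth2, hcl1⟩ := uncontract (M := M) (s := s + (k + 1) + k) (by omega)
    hC0'E Jf hJE Z hZE hth1
  rw [hJU] at hcl1
  have hZ1E : Z1 ⊆ M.E := hZ1Z.trans hZE
  have hrkZ : rk M (C0 ∪ Z) ≤ rk M (C0 ∪ Z1) := by
    have h1 := rk_union_of_subset_closure hcl1
    have h2 : rk M (C0 ∪ Z) ≤ rk M (C0 ∪ Z1 ∪ Z) := by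
      apply rk_mono
      rintro a (ha | ha)
      · exact Or.inl (Or.inl ha)
      · exact Or.inr ha
    omega
  have hrk1 : ∀ ρ : ℕ, rk M C0 + ρ ≤ rk M (C0 ∪ Z) → rk M C0' + ρ ≤ rk M (C0' ∪ Z1) := by
    intro ρ hρ
    have h1 : rk M C0' + rk M (C0 ∪ Z1) ≤ rk M C0 + rk M (C0' ∪ Z1) := by
      apply rk_submod'
      · exact sdiff_subset
      · exact subset_union_left
      · rintro a (ha | ha)
        · exact Or.inl ha
        · exact Or.inr (Or.inr ha)
    omega
  have : Fintype X := hXf.fintype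
  have hcardX : Fintype.card X = k := by
    rw [← hXk, ← Nat.card_eq_fintype_card]; rfl
  obtain ⟨hth3, hcl2⟩ := hth2.remove (t := k) (by omega) (ι := X) hcardX.le
    (fun x => {x.1}) (by
      rintro ⟨x, hx⟩ hcl
      have h1 := rk_union_of_subset_closure hcl
      have h2 : rk M (C0' ∪ Z1) ≤ rk M (C0' ∪ {x} ∩ Z1 ∪ Z1) := by
        apply rk_mono
        rintro a (ha | ha)
        · exact Or.inl (Or.inl ha)
        · exact Or.inr ha
      have h3 : rk M (C0' ∪ {x} ∩ Z1) ≤ rk M (insert x C0') := by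
        apply rk_mono
        rintro a (ha | ⟨ha, -⟩)
        · exact Or.inr ha
        · exact Or.inl ha
      have h4 := rk_insert_le (M := M) x C0'
      have h1' : rk M (C0' ∪ {x} ∩ Z1 ∪ Z1) = rk M (C0' ∪ {x} ∩ Z1) := h1
      have h5 := hrk1 2 hrk0
      omega)
  have hXU : (⋃ x : X, ({x.1} : Set α)) = X := by
    ext a; simp
  rw [hXU] at hth3 hcl2
  have hZ2E : Z1 \ X ⊆ M.E := sdiff_subset.trans hZ1E
  have hrk2 : ∀ ρ : ℕ, rk M C0 + ρ ≤ rk M (C0 ∪ Z) → rk M C0' + ρ ≤ rk M (C0' ∪ (Z1 \ X)) := by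
    intro ρ hρ
    have h0 := hrk1 ρ hρ
    have h1 := rk_union_of_subset_closure hcl2
    have h2 : rk M (C0' ∪ Z1) ≤ rk M (C0' ∪ (Z1 \ X) ∪ Z1) := by
      apply rk_mono
      rintro a (ha | ha)
      · exact Or.inl (Or.inl ha)
      · exact Or.inr ha
    omega
  -- transfer of `Req`
  have hbig : ∀ A ⊆ M.E, Small M C0' (Z1 \ X) A → ¬ Small M C0 Z A → (j : ℤ) ≤ lam M ∅ A := by
    intro A hAE hsm hns
    have hAs : Z ⊆ M.closure (C0 ∪ (A ∩ Z)) := not_not.1 hns
    obtain ⟨-, h1⟩ := hth3.remove (t := k + 1) (s := s) hs1 (ι := Unit) (by simp)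
      (fun _ => A) (fun _ => hsm)
    rw [iUnion_const] at h1
    have h2 : Z ⊆ M.closure (C0 ∪ ((Z1 \ X) \ A)) := by
      have h3 : Z1 ⊆ M.closure (C0 ∪ ((Z1 \ X) \ A)) := by
        refine hcl2.trans (M.closure_subset_closure_of_subset_closure ?_)
        apply union_subset
        · exact M.subset_closure_of_subset' (sdiff_subset.trans subset_union_left) hC0'E
        · exact h1.trans (M.closure_subset_closure (union_subset_union_left _ sdiff_subset))
      refine hcl1.trans (M.closure_subset_closure_of_subset_closure ?_)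
      exact union_subset (M.subset_closure_of_subset' subset_union_left hC0E) h3
    have h4 := lam_big (M := M) (A := A) (C1 := ∅) (S := A ∩ Z) (T := (Z1 \ X) \ A)
      (empty_subset C0) hC0E inter_subset_left (by
        rintro z ⟨hz, hz'⟩; exact ⟨hZ2E hz, hz'⟩) inter_subset_right
        (sdiff_subset.trans (sdiff_subset.trans hZ1Z)) hAs h2
    omega
  have hreq2 : Req M j X C0' (Z1 \ X) ∅ := by
    constructor
    · intro A hAE hXA hsm
      by_cases hs2 : Small M C0 Z A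
      · exact hreq.1 A hAE hXA hs2
      · have := hbig A hAE hsm hs2
        omega
    · intro x hx A hAE hxA hsm
      by_cases hs2 : Small M C0 Z A
      · exact hreq.2 x hx A hAE hxA hs2
      · have := hbig A hAE hsm hs2
        omega
  exact main_rel hk hXE hZ2E hC0'E hXk hXC' disjoint_sdiff_right hj hjk hj1 hs.ge hth3
    (hrk2 j hrk) (hrk2 2 hrk0) hreq2

end Pool.MP16b4d3
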