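import Pool.Agent.Work.MP_16b4d3_co.Main2

open Set Matroid

namespace Pool.MP16b4d3

variable {α : Type*} {M : Matroid α}

/-- a thick set of relative rank at least two has many elements -/
lemma Thick.card [M.Finite] {s : ℕ} {C Z : Set α} (hZE : Z ⊆ M.E)
    (h : Thick M s C Z) (hrk : rk M C + 2 ≤ rk M (C ∪ Z)) : s < Z.ncard := by
  classical
  by_contra hcon
  push Not at hcon
  have hZf : Z.Finite := M.ground_finite.subset hZE
  have hZn : Z.Nonempty := by
    rw [nonempty_iff_ne_empty]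
    rintro rfl
    rw [union_empty] at hrk
    omega
  have : Fintype Z := hZf.fintype
  have : Nonempty Z := hZn.to_subtype
  obtain ⟨z, hz⟩ := h.apply (ι := Z) (by rw [← Nat.card_eq_fintype_card]; exact hcon)
    (fun z => {z.1}) (by intro z hz; exact mem_iUnion.2 ⟨⟨z, hz⟩, rfl⟩)
  have h1 := rk_union_of_subset_closure hz
  have h2 : rk M (C ∪ Z) ≤ rk M (C ∪ {z.1} ∩ Z ∪ Z) := by
    apply rk_mono
    rintro a (ha | ha)
    · exact Or.inl (Or.inl ha)
    · exact Or.inr ha
  have h3 : rk M (C ∪ {z.1} ∩ Z) ≤ rk M (insert z.1 C) := by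
    apply rk_mono
    rintro a (ha | ⟨ha, -⟩)
    · exact Or.inr ha
    · exact Or.inl ha
  have h4 := rk_insert_le (M := M) z.1 C
  have h1' : rk M (C ∪ {z.1} ∩ Z ∪ Z) = rk M (C ∪ {z.1} ∩ Z) := h1
  omega

/-- Connectivity hypothesis in terms of `rk`. -/
def VConn (M : Matroid α) (k : ℕ) : Prop :=
  (∀ A ⊆ M.E, A.Nonempty → (M.E \ A).Nonempty → rk M M.E + 1 ≤ rk M A + rk M (M.E \ A)) ∧
  ∀ j, 2 ≤ j → j < k → ∀ A ⊆ M.E, j ≤ rk M A → j ≤ rk M (M.E \ A) → k ≤ A.ncard →
    k ≤ (M.E \ A).ncard → rk M M.E + j ≤ rk M A + rk M (M.E \ A)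

lemma lam_empty_eq (A : Set α) : lam M ∅ A = (rk M A : ℤ) + rk M (M.E \ A) - rk M M.E := by
  unfold lam
  simp [rk_empty]

lemma Dk_ge {k : ℕ} (hk : 2 ≤ k) : k + 2 ≤ Dk k := by
  unfold Dk
  have h1 : 1 ≤ k ^ (2 ^ (2 * k - 1)) := Nat.one_le_pow _ _ (by omega)
  have h2 : k ^ (2 ^ (2 * k - 1)) + (2 * k + 1) ≤
      (k ^ (2 ^ (2 * k - 1)) + (2 * k + 1)) ^ (2 ^ k) := Nat.le_self_pow (by positivity) _
  omega

theorem thick_good [M.Finite] {k : ℕ} (hk : 3 ≤ k) (hconn : VConn M k) {C0 Z : Set α}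
    (hC0E : C0 ⊆ M.E) (hZE : Z ⊆ M.E) (hth : Thick M (Dk k) C0 Z)
    (hrk : rk M C0 + (k - 1) ≤ rk M (C0 ∪ Z)) {X : Set α} (hXE : X ⊆ M.E)
    (hXk : X.ncard = k) : Good M X := by
  classical
  have hXf : X.Finite := M.ground_finite.subset hXE
  have hXn : X.Nonempty := by
    rw [← Set.ncard_pos hXf]; omega
  have hD := Dk_ge (k := k) (by omega)
  -- complement of small sets
  have hsmall : ∀ A ⊆ M.E, Small M C0 Z A →
      (k - 1) ≤ rk M (M.E \ A) ∧ k ≤ (M.E \ A).ncard := by
    intro A hA hsm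
    have hth' : Thick M (k + 1) C0 Z := hth.mono_num (by omega) (by omega)
    obtain ⟨h1, h2⟩ := hth'.remove (s := k) (t := 1) (by omega) (ι := Unit) (by simp)
      (fun _ => A) (fun _ => hsm)
    rw [iUnion_const] at h1 h2
    have h3 : rk M (C0 ∪ Z) ≤ rk M (C0 ∪ (Z \ A)) := by
      have h4 := rk_union_of_subset_closure h2
      have h5 : rk M (C0 ∪ Z) ≤ rk M (C0 ∪ (Z \ A) ∪ Z) := by
        apply rk_mono
        rintro a (ha | ha)
        · exact Or.inl (Or.inl ha)
        · exact Or.inr ha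
      omega
    have h4 := h1.card (sdiff_subset.trans hZE) (by omega)
    have h5 : Z \ A ⊆ M.E \ A := sdiff_subset_sdiff_left hZE
    have h6 := rk_mono (M := M) h5
    have h7 : (Z \ A).ncard ≤ (M.E \ A).ncard :=
      Set.ncard_le_ncard h5 (M.ground_finite.subset sdiff_subset)
    have h8 : rk M ∅ + rk M (C0 ∪ (Z \ A)) ≤ rk M C0 + rk M (Z \ A) :=
      rk_submod' (empty_subset _) (empty_subset _) subset_rfl
    omega
  have hEn : ∀ A ⊆ M.E, Small M C0 Z A → (M.E \ A).Nonempty := by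
    intro A hA hsm
    have := (hsmall A hA hsm).2
    rw [← Set.ncard_pos (M.ground_finite.subset sdiff_subset)]
    omega
  have hrX : 1 ≤ rk M X := by
    obtain ⟨x, hx⟩ := hXn
    by_contra h0
    have h1 : rk M {x} ≤ rk M X := rk_mono (singleton_subset_iff.2 hx)
    have hsm : Small M C0 Z {x} := by
      intro h
      have h2 := rk_union_of_subset_closure h
      have h3 : rk M (C0 ∪ Z) ≤ rk M (C0 ∪ ({x} ∩ Z) ∪ Z) := by
        apply rk_mono
        rintro a (ha | ha)
        · exact Or.inl (Or.inl ha)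
        · exact Or.inr ha
      have h4 : rk M (C0 ∪ ({x} ∩ Z)) ≤ rk M (insert x C0) := by
        apply rk_mono
        rintro a (ha | ⟨ha, -⟩)
        · exact Or.inr ha
        · exact Or.inl ha
      have h5 := rk_insert_le (M := M) x C0
      omega
    have h2 := hconn.1 {x} (singleton_subset_iff.2 (hXE hx)) ⟨x, rfl⟩
      (hEn {x} (singleton_subset_iff.2 (hXE hx)) hsm)
    have h3 := rk_le_ground (M := M) (M.E \ {x})
    omega
  have hrXk : rk M X ≤ k := by rw [← hXk]; exact rk_le_ncard hXE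
  refine main_rel' (k := k) (j := min (k - 1) (rk M X)) (by omega) hXE hZE hC0E hXk ?_
    (by omega) (by omega) hth (by omega) (by omega) ?_
  · omega
  · constructor
    · intro A hAE hXA hsm
      obtain ⟨h1, h2⟩ := hsmall A hAE hsm
      have h3 := rk_mono (M := M) hXA
      have h4 : k ≤ A.ncard := by
        rw [← hXk]; exact Set.ncard_le_ncard hXA (M.ground_finite.subset hAE)
      rw [lam_empty_eq]
      rcases Nat.lt_or_ge (min (k - 1) (rk M X)) 2 with h5 | h5
      · have h6 := hconn.1 A hAE (hXn.mono hXA) (hEn A hAE hsm)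
        omega
      · have h6 := hconn.2 (min (k - 1) (rk M X)) h5 (by omega) A hAE (by omega) (by omega) h4 h2
        omega
    · intro x hx A hAE hxA hsm
      rw [lam_empty_eq]
      have h6 := hconn.1 A hAE ⟨x, hxA⟩ (hEn A hAE hsm)
      omega

/-- translation from a minor which is not a union of `D` proper flats. -/
lemma thick_of_minor [M.Finite] {N : Matroid α} (hN : N ≤m M) {D r : ℕ}
    (hr : (r : ℕ∞) ≤ N.eRank)
    (hcov : ∀ F : Fin D → Set α, (∀ i, N.IsFlat (F i) ∧ F i ≠ N.E) → (⋃ i, F i) ≠ N.E) :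
    ∃ C0 ⊆ M.E, ∃ Z ⊆ M.E, Thick M D C0 Z ∧ rk M C0 + r ≤ rk M (C0 ∪ Z) := by
  classical
  obtain ⟨C, D', hCE, hDE, hCD, rfl⟩ := hN.exists_eq_contract_delete_disjoint
  have hNE : (M ／ C ＼ D').E = (M.E \ C) \ D' := rfl
  refine ⟨C, hCE, (M.E \ C) \ D', sdiff_subset.trans sdiff_subset, ?_, ?_⟩
  · intro H hH
    by_contra hcon
    push Not at hcon
    apply hcov (fun i => (M ／ C ＼ D').closure (H i ∩ ((M.E \ C) \ D')))
    · intro i
      refine ⟨Matroid.isFlat_closure _, ?_⟩
      intro heq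
      apply hcon i
      rw [hNE, Matroid.delete_closure_eq, Matroid.contract_closure_eq] at heq
      rw [← heq]
      intro a ha
      refine M.closure_subset_closure ?_ ha.1.1
      rintro b (⟨hb, -⟩ | hb)
      · exact Or.inr (by rw [heq]; exact hb)
      · exact Or.inl hb
    · apply subset_antisymm
      · exact iUnion_subset fun i => Matroid.closure_subset_ground _ _
      · intro z hz
        obtain ⟨i, hi⟩ := mem_iUnion.1 (hH hz)
        exact mem_iUnion.2 ⟨i, Matroid.mem_closure_of_mem' _ ⟨hi, hz⟩ hz⟩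
  · rw [← Matroid.eRk_ground, Matroid.le_eRk_iff] at hr
    obtain ⟨I, hIE, hI, hIr⟩ := hr
    have hI2 : (M ／ C).Indep I := (Matroid.delete_indep_iff.1 hI).1
    obtain ⟨J, hJ⟩ := M.exists_isBasis C hCE
    rw [hJ.contract_indep_iff] at hI2
    obtain ⟨hI3, hdisj⟩ := hI2
    have h1 := indep_rk hI3
    have h2 : rk M (I ∪ J) ≤ rk M (C ∪ ((M.E \ C) \ D')) := by
      apply rk_mono
      apply union_subset
      · exact hIE.trans subset_union_right
      · exact hJ.subset.trans subset_union_left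
    have hIf : I.Finite := M.ground_finite.subset (hIE.trans (sdiff_subset.trans sdiff_subset))
    have hJf : J.Finite := M.ground_finite.subset (hJ.subset.trans hCE)
    have h3 : (I ∪ J).ncard = I.ncard + J.ncard :=
      Set.ncard_union_eq (hdisj.symm.mono_right hJ.subset) hIf hJf
    have h4 := basis_rk hJ
    have h5 : I.ncard = r := by
      have : (I.ncard : ℕ∞) = r := by rw [hIf.cast_ncard_eq]; exact hIr
      exact_mod_cast this
    omega

end Pool.MP16b4d3
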