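import Mathlib

/-!
# MP_16b4d3_co : matroids with few nonbases have property (star)

Let `M` be a matroid of rank `r` on `n` elements and let `X` be a set of `k` elements
(`3 ≤ k ≤ r + 1` and `r + k ≤ n + 1`).

* If no circuit of `M` contains `X`, then for every set `S` of `r + 1 - k` elements outside `X`
  some set `S ∪ (X \ {x})` with `x ∈ X` is not a base (otherwise a circuit inside `S ∪ X` contains
  `X`).
* If no cocircuit of `M` contains `X`, then for every set `S` of `r - 1` elements outside `X`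
  some set `S ∪ {x}` with `x ∈ X` is not a base (duality).

The nonbases of the first kind meet `X` in `k - 1 ≥ 2` elements, those of the second kind meet it
in one element.  So a matroid with fewer than `C(n-k, r+1-k) + C(n-k, r-1)` nonbases has the
property that every set of `k` elements is in a circuit or a cocircuit.  The bound is attained
for all `k ≥ 4` when `n = 2k` and `r = k`, by a sparse paving matroid with `2k` circuit-hyperplanes.
-/

namespace Pool.Agent.Work.MP_16b4d3_co.OldBasisDensity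

open Set

/-- Every set of `k` elements of `M` is contained in a circuit or in a cocircuit of `M`;
for `k = 4` this is property (star). -/
def StarK {α : Type*} (M : Matroid α) (k : ℕ) : Prop :=
  ∀ X : Set α, X ⊆ M.E → X.ncard = k → ∃ C : Set α, X ⊆ C ∧ (M.IsCircuit C ∨ M.IsCocircuit C)

/-- The sets of `r` elements of `M` that are not bases of `M`. -/
def nonbases {α : Type*} (M : Matroid α) (r : ℕ) : Set (Set α) :=
  {B : Set α | B ⊆ M.E ∧ B.ncard = r ∧ ¬ M.IsBase B}

variable {α : Type*}

/-- If all the sets `S ∪ (X \ {x})` are bases then `X` is in a circuit. -/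
theorem circuit_of_bases (M : Matroid α) {X S : Set α} (hX : X.Nonempty) (hXE : X ⊆ M.E)
    (hXS : Disjoint X S)
    (h : ∀ x ∈ X, M.IsBase (S ∪ (X \ {x}))) : ∃ C, X ⊆ C ∧ M.IsCircuit C := by
  obtain ⟨x0, hx0⟩ := hX
  have hSE : S ⊆ M.E := fun s hs => (h x0 hx0).subset_ground (Or.inl hs)
  have hd : M.Dep (S ∪ X) := by
    refine (h x0 hx0).dep_of_ssubset ?_ (union_subset hSE hXE)
    refine ⟨union_subset_union_right _ sdiff_subset, fun hh => ?_⟩
    rcases hh (Or.inr hx0) with h1 | h1
    · exact (Set.disjoint_left.1 hXS hx0) h1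
    · exact h1.2 rfl
  obtain ⟨C, hC, hCc⟩ := hd.exists_isCircuit_subset
  refine ⟨C, fun x hx => ?_, hCc⟩
  by_contra hxC
  apply hCc.not_indep
  refine (h x hx).indep.subset fun y hy => ?_
  rcases hC hy with h1 | h1
  · exact Or.inl h1
  · exact Or.inr ⟨h1, fun hyx => hxC (hyx ▸ hy)⟩

/-- If all the sets `S ∪ {x}` are bases then `X` is in a cocircuit. -/
theorem cocircuit_of_bases (M : Matroid α) {X S : Set α} (hX : X.Nonempty) (hXE : X ⊆ M.E)
    (hXS : Disjoint X S)
    (h : ∀ x ∈ X, M.IsBase (insert x S)) : ∃ C, X ⊆ C ∧ M.IsCocircuit C := by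
  obtain ⟨x0, hx0⟩ := hX
  have hSE : S ⊆ M.E := fun s hs => (h x0 hx0).subset_ground (Or.inr hs)
  have hx : ∀ x ∈ X, x ∉ S := fun x hx => Set.disjoint_left.1 hXS hx
  obtain ⟨C, hC, hCc⟩ := circuit_of_bases (M✶) (X := X) (S := (M.E \ X) \ S) ⟨x0, hx0⟩ hXE
    (Set.disjoint_left.2 fun y hy hy2 => hy2.1.2 hy) (by
      intro x hxX
      rw [Matroid.dual_isBase_iff' ]
      refine ⟨?_, ?_⟩
      · have : M.E \ ((M.E \ X) \ S ∪ X \ {x}) = insert x S := by
          ext y
          constructor
          · rintro ⟨h1, h2⟩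
            by_cases hyX : y ∈ X
            · left
              by_contra hne
              exact h2 (Or.inr ⟨hyX, hne⟩)
            · right
              by_contra hne
              exact h2 (Or.inl ⟨⟨h1, hyX⟩, hne⟩)
          · rintro (h1 | h1)
            · rw [h1]
              refine ⟨hXE hxX, ?_⟩
              rintro (h2 | h2)
              · exact h2.1.2 hxX
              · exact h2.2 rfl
            · refine ⟨hSE h1, ?_⟩
              rintro (h2 | h2)
              · exact h2.2 h1
              · exact hx y h2.1 h1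
        rw [this]
        exact h x hxX
      · rintro y (h1 | h1)
        · exact h1.1.1
        · exact hXE h1.1)
  exact ⟨C, hC, hCc⟩

theorem nonbases_finite (M : Matroid α) (hE : M.E.Finite) (r : ℕ) : (nonbases M r).Finite :=
  hE.finite_subsets.subset fun _ hB => hB.1

theorem main (M : Matroid α) (hE : M.E.Finite) (n r k : ℕ) (hn : M.E.ncard = n)
    (hk3 : 3 ≤ k) (hkr : k ≤ r + 1)
    (hN : (nonbases M r).ncard < (n - k).choose (r + 1 - k) + (n - k).choose (r - 1)) :
    StarK M k := by
  classical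
  intro X hXE hXk
  by_contra hno
  push Not at hno
  have hXfin : X.Finite := hE.subset hXE
  have hXne : X.Nonempty := by
    rw [← Set.ncard_pos hXfin]
    omega
  have hAfin : (M.E \ X).Finite := hE.subset sdiff_subset
  set A : Finset α := hAfin.toFinset with hA
  have hAc : (A : Set α) = M.E \ X := by rw [hA, Set.Finite.coe_toFinset]
  have hAcard : A.card = n - k := by
    rw [← Set.ncard_coe_finset, hAc, Set.ncard_sdiff hXE hXfin, hn, hXk]
  have hdis : ∀ S : Finset α, S ⊆ A → Disjoint X (S : Set α) := by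
    intro S hS
    refine Set.disjoint_left.2 fun y hy hy2 => ?_
    have h1 : y ∈ (A : Set α) := hS hy2
    rw [hAc] at h1
    exact h1.2 hy
  have hSE : ∀ S : Finset α, S ⊆ A → (S : Set α) ⊆ M.E := by
    intro S hS y hy
    have h1 : y ∈ (A : Set α) := hS hy
    rw [hAc] at h1
    exact h1.1
  have h1 : ∀ S : Finset α, S ∈ A.powersetCard (r + 1 - k) →
      ∃ B ∈ nonbases M r, B \ X = (S : Set α) ∧ (B ∩ X).ncard = k - 1 := by
    intro S hS
    rw [Finset.mem_powersetCard] at hS
    have hd := hdis S hS.1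
    by_contra hcon
    push Not at hcon
    obtain ⟨C, hC, hCc⟩ := circuit_of_bases M hXne hXE hd (by
      intro x hx
      by_contra hb
      have hcx : (X \ {x}).ncard = k - 1 := by
        rw [Set.ncard_sdiff_singleton_of_mem hx, hXk]
      refine hcon ((S : Set α) ∪ (X \ {x})) ⟨?_, ?_, hb⟩ ?_ ?_
      · exact union_subset (hSE S hS.1) (sdiff_subset.trans hXE)
      · rw [Set.ncard_union_eq ?_ S.finite_toSet (hXfin.subset sdiff_subset),
          Set.ncard_coe_finset, hS.2, hcx]
        · omega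
        · exact hd.symm.mono_right sdiff_subset
      · ext y
        constructor
        · rintro ⟨h1 | h1, h2⟩
          · exact h1
          · exact absurd h1.1 h2
        · intro h1
          exact ⟨Or.inl h1, fun h2 => Set.disjoint_left.1 hd h2 h1⟩
      · have : ((S : Set α) ∪ X \ {x}) ∩ X = X \ {x} := by
          ext y
          constructor
          · rintro ⟨h1 | h1, h2⟩
            · exact absurd h1 (Set.disjoint_left.1 hd h2)
            · exact h1
          · intro h1
            exact ⟨Or.inr h1, h1.1⟩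
        rw [this, hcx])
    exact (hno C hC).1 hCc
  have h2 : ∀ S : Finset α, S ∈ A.powersetCard (r - 1) →
      ∃ B ∈ nonbases M r, B \ X = (S : Set α) ∧ (B ∩ X).ncard = 1 := by
    intro S hS
    rw [Finset.mem_powersetCard] at hS
    have hd := hdis S hS.1
    by_contra hcon
    push Not at hcon
    obtain ⟨C, hC, hCc⟩ := cocircuit_of_bases M hXne hXE hd (by
      intro x hx
      by_contra hb
      have hxS : x ∉ (S : Set α) := Set.disjoint_left.1 hd hx
      refine hcon (insert x (S : Set α)) ⟨?_, ?_, hb⟩ ?_ ?_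
      · exact insert_subset (hXE hx) (hSE S hS.1)
      · rw [Set.ncard_insert_of_notMem hxS S.finite_toSet, Set.ncard_coe_finset, hS.2]
        omega
      · ext y
        constructor
        · rintro ⟨h1 | h1, h2⟩
          · exact absurd (h1 ▸ hx) h2
          · exact h1
        · intro h1
          exact ⟨Or.inr h1, fun h2 => Set.disjoint_left.1 hd h2 h1⟩
      · have : (insert x (S : Set α)) ∩ X = {x} := by
          ext y
          constructor
          · rintro ⟨h1 | h1, h2⟩
            · exact h1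
            · exact absurd h1 (Set.disjoint_left.1 hd h2)
          · intro h1
            rw [mem_singleton_iff] at h1
            exact ⟨Or.inl h1, h1 ▸ hx⟩
        rw [this, Set.ncard_singleton])
    exact (hno C hC).2 hCc
  choose! f hf1 hf2 hf3 using h1
  choose! g hg1 hg2 hg3 using h2
  have hfin := nonbases_finite M hE r
  have hsub : ((A.powersetCard (r + 1 - k)).image f ∪ (A.powersetCard (r - 1)).image g) ⊆
      hfin.toFinset := by
    intro B hB
    rw [Set.Finite.mem_toFinset]
    rw [Finset.mem_union, Finset.mem_image, Finset.mem_image] at hB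
    rcases hB with ⟨S, hS, rfl⟩ | ⟨S, hS, rfl⟩
    · exact hf1 S hS
    · exact hg1 S hS
  have hdisj : Disjoint ((A.powersetCard (r + 1 - k)).image f)
      ((A.powersetCard (r - 1)).image g) := by
    rw [Finset.disjoint_left]
    intro B hB hB2
    rw [Finset.mem_image] at hB hB2
    obtain ⟨S, hS, rfl⟩ := hB
    obtain ⟨T, hT, hTS⟩ := hB2
    have e1 := hf3 S hS
    have e2 := hg3 T hT
    rw [hTS] at e2
    omega
  have hc1 : ((A.powersetCard (r + 1 - k)).image f).card = (n - k).choose (r + 1 - k) := by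
    rw [Finset.card_image_of_injOn, Finset.card_powersetCard, hAcard]
    intro S hS T hT hST
    have e1 := hf2 S hS
    have e2 := hf2 T hT
    replace hST : f S = f T := hST
    rw [hST, e2] at e1
    exact (Finset.coe_injective e1).symm
  have hc2 : ((A.powersetCard (r - 1)).image g).card = (n - k).choose (r - 1) := by
    rw [Finset.card_image_of_injOn, Finset.card_powersetCard, hAcard]
    intro S hS T hT hST
    have e1 := hg2 S hS
    have e2 := hg2 T hT
    replace hST : g S = g T := hST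
    rw [hST, e2] at e1
    exact (Finset.coe_injective e1).symm
  have hcard := Finset.card_le_card hsub
  rw [Finset.card_union_of_disjoint hdisj, hc1, hc2, ← Set.ncard_eq_toFinset_card _ hfin] at hcard
  omega

/-! ### The extremal example -/

/-- The circuit-hyperplane `{inr i} ∪ {inl j : j ≠ i}`. -/
def Lset (k : ℕ) (i : Fin k) : Set (Fin k ⊕ Fin k) := insert (Sum.inr i) (Sum.inl '' {i}ᶜ)

/-- The circuit-hyperplane `{inl i} ∪ {inr j : j ≠ i}`. -/
def Rset (k : ℕ) (i : Fin k) : Set (Fin k ⊕ Fin k) := insert (Sum.inl i) (Sum.inr '' {i}ᶜ)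

/-- The family of all circuit-hyperplanes. -/
def Hyp (k : ℕ) : Set (Set (Fin k ⊕ Fin k)) := range (Lset k) ∪ range (Rset k)

theorem ncard_compl_single (k : ℕ) (i : Fin k) : ({i}ᶜ : Set (Fin k)).ncard = k - 1 := by
  rw [Set.ncard_compl, Set.ncard_singleton, Nat.card_fin]

theorem Lset_ncard (k : ℕ) (i : Fin k) : (Lset k i).ncard = k := by
  have hk : 0 < k := i.pos
  rw [Lset, Set.ncard_insert_of_notMem (by simp), Set.ncard_image_of_injective _ Sum.inl_injective,
    ncard_compl_single]
  omega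

theorem Rset_ncard (k : ℕ) (i : Fin k) : (Rset k i).ncard = k := by
  have hk : 0 < k := i.pos
  rw [Rset, Set.ncard_insert_of_notMem (by simp), Set.ncard_image_of_injective _ Sum.inr_injective,
    ncard_compl_single]
  omega

theorem Hyp_ncard {k : ℕ} {A : Set (Fin k ⊕ Fin k)} (hA : A ∈ Hyp k) : A.ncard = k := by
  rcases hA with ⟨i, rfl⟩ | ⟨i, rfl⟩
  · exact Lset_ncard k i
  · exact Rset_ncard k i

theorem inl_mem_Lset {k : ℕ} {i j : Fin k} : Sum.inl j ∈ Lset k i ↔ j ≠ i := by simp [Lset]

theorem inr_mem_Lset {k : ℕ} {i j : Fin k} : Sum.inr j ∈ Lset k i ↔ j = i := by simp [Lset]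

theorem inr_mem_Rset {k : ℕ} {i j : Fin k} : Sum.inr j ∈ Rset k i ↔ j ≠ i := by simp [Rset]

theorem inl_mem_Rset {k : ℕ} {i j : Fin k} : Sum.inl j ∈ Rset k i ↔ j = i := by simp [Rset]

theorem exists_two {k : ℕ} (hk : 4 ≤ k) (i j : Fin k) :
    ∃ a b : Fin k, a ≠ b ∧ a ≠ i ∧ a ≠ j ∧ b ≠ i ∧ b ≠ j := by
  have h1 : 1 < (({i, j} : Finset (Fin k))ᶜ).card := by
    rw [Finset.card_compl, Fintype.card_fin]
    have := Finset.card_le_two (a := i) (b := j)
    omega
  obtain ⟨a, ha, b, hb, hab⟩ := Finset.one_lt_card.1 h1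
  simp only [Finset.mem_compl, Finset.mem_insert, Finset.mem_singleton, not_or] at ha hb
  exact ⟨a, b, hab, ha.1, ha.2, hb.1, hb.2⟩

theorem LR_nontrivial {k : ℕ} (hk : 4 ≤ k) (i j : Fin k) : (Lset k i \ Rset k j).Nontrivial := by
  obtain ⟨a, b, hab, hai, haj, hbi, hbj⟩ := exists_two hk i j
  exact ⟨Sum.inl a, ⟨inl_mem_Lset.2 hai, fun h => haj (inl_mem_Rset.1 h)⟩,
    Sum.inl b, ⟨inl_mem_Lset.2 hbi, fun h => hbj (inl_mem_Rset.1 h)⟩,
    fun h => hab (Sum.inl_injective h)⟩

theorem RL_nontrivial {k : ℕ} (hk : 4 ≤ k) (i j : Fin k) : (Rset k i \ Lset k j).Nontrivial := by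
  obtain ⟨a, b, hab, hai, haj, hbi, hbj⟩ := exists_two hk i j
  exact ⟨Sum.inr a, ⟨inr_mem_Rset.2 hai, fun h => haj (inr_mem_Lset.1 h)⟩,
    Sum.inr b, ⟨inr_mem_Rset.2 hbi, fun h => hbj (inr_mem_Lset.1 h)⟩,
    fun h => hab (Sum.inr_injective h)⟩

theorem LL_nontrivial {k : ℕ} {i j : Fin k} (hij : i ≠ j) : (Lset k i \ Lset k j).Nontrivial :=
  ⟨Sum.inr i, ⟨inr_mem_Lset.2 rfl, fun h => hij (inr_mem_Lset.1 h)⟩,
    Sum.inl j, ⟨inl_mem_Lset.2 (Ne.symm hij), fun h => (inl_mem_Lset.1 h) rfl⟩, by simp⟩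

theorem RR_nontrivial {k : ℕ} {i j : Fin k} (hij : i ≠ j) : (Rset k i \ Rset k j).Nontrivial :=
  ⟨Sum.inl i, ⟨inl_mem_Rset.2 rfl, fun h => hij (inl_mem_Rset.1 h)⟩,
    Sum.inr j, ⟨inr_mem_Rset.2 (Ne.symm hij), fun h => (inr_mem_Rset.1 h) rfl⟩, by simp⟩

theorem Hyp_nontrivial {k : ℕ} (hk : 4 ≤ k) {A B : Set (Fin k ⊕ Fin k)} (hA : A ∈ Hyp k)
    (hB : B ∈ Hyp k) (hAB : A ≠ B) : (A \ B).Nontrivial := by
  rcases hA with ⟨i, rfl⟩ | ⟨i, rfl⟩ <;> rcases hB with ⟨j, rfl⟩ | ⟨j, rfl⟩
  · exact LL_nontrivial fun h => hAB (by rw [h])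
  · exact LR_nontrivial hk i j
  · exact RL_nontrivial hk i j
  · exact RR_nontrivial fun h => hAB (by rw [h])

theorem exch {k : ℕ} (hk : 4 ≤ k) :
    Matroid.ExchangeProperty (fun B : Set (Fin k ⊕ Fin k) => B.ncard = k ∧ B ∉ Hyp k) := by
  rintro B₁ B₂ ⟨h1, h1'⟩ ⟨h2, h2'⟩ a ha
  have hc : (B₁ \ B₂).ncard = (B₂ \ B₁).ncard := by
    have e1 := Set.ncard_inter_add_ncard_sdiff_eq_ncard B₁ B₂
    have e2 := Set.ncard_inter_add_ncard_sdiff_eq_ncard B₂ B₁
    rw [Set.inter_comm] at e2
    omega
  have hcard : ∀ b ∈ B₂ \ B₁, (insert b (B₁ \ {a})).ncard = k := by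
    intro b hb
    rw [Set.ncard_exchange hb.2 ha.1, h1]
  have hpos : 0 < (B₂ \ B₁).ncard := by
    rw [← hc, Set.ncard_pos]
    exact ⟨a, ha⟩
  obtain ⟨b, hb⟩ := (Set.ncard_pos (Set.toFinite _)).1 hpos
  by_cases hb1 : insert b (B₁ \ {a}) ∈ Hyp k
  · by_cases hsub : (B₂ \ B₁).Nontrivial
    · obtain ⟨c, hc', hcb⟩ := hsub.exists_ne b
      refine ⟨c, hc', hcard c hc', fun hc1 => ?_⟩
      have hne : insert b (B₁ \ {a}) ≠ insert c (B₁ \ {a}) := by
        intro h
        have : b ∈ insert c (B₁ \ {a}) := h ▸ mem_insert _ _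
        rcases this with h3 | h3
        · exact hcb h3.symm
        · exact hb.2 h3.1
      have hnt := Hyp_nontrivial hk hb1 hc1 hne
      have hs : (insert b (B₁ \ {a}) \ insert c (B₁ \ {a})).Subsingleton := by
        rintro x ⟨hx1, hx2⟩ y ⟨hy1, hy2⟩
        rcases hx1 with hx1 | hx1
        · rcases hy1 with hy1 | hy1
          · rw [hx1, hy1]
          · exact absurd (Or.inr hy1) hy2
        · exact absurd (Or.inr hx1) hx2
      exact absurd hs (Set.not_subsingleton_iff.2 hnt)
    · exfalso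
      rw [Set.not_nontrivial_iff] at hsub
      have hs2 : B₂ \ B₁ = {b} := hsub.eq_singleton_of_mem hb
      have hs1 : (B₁ \ B₂).ncard = 1 := by rw [hc, hs2, Set.ncard_singleton]
      obtain ⟨a', ha'⟩ := Set.ncard_eq_one.1 hs1
      have haa : a = a' := by
        have : a ∈ ({a'} : Set _) := ha' ▸ ha
        exact this
      subst haa
      apply h2'
      have : B₂ = insert b (B₁ \ {a}) := by
        ext x
        constructor
        · intro hx
          by_cases hx1 : x ∈ B₁
          · refine Or.inr ⟨hx1, fun hxa => ?_⟩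
            rw [mem_singleton_iff] at hxa
            exact ha.2 (hxa ▸ hx)
          · left
            have : x ∈ ({b} : Set _) := hs2 ▸ ⟨hx, hx1⟩
            exact this
        · rintro (hx | hx)
          · rw [hx]
            exact hb.1
          · by_contra hx2
            apply hx.2
            rw [← ha']
            exact ⟨hx.1, hx2⟩
      rw [this]
      exact hb1
  · exact ⟨b, hb, hcard b hb, hb1⟩

theorem inl_notMem_Hyp {k : ℕ} (hk : 4 ≤ k) : (range Sum.inl : Set (Fin k ⊕ Fin k)) ∉ Hyp k := by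
  rintro (⟨i, hi⟩ | ⟨i, hi⟩)
  · have : Sum.inl i ∈ Lset k i := by
      rw [hi]
      exact mem_range_self i
    exact (inl_mem_Lset.1 this) rfl
  · obtain ⟨a, b, hab, hai, -, -, -⟩ := exists_two hk i i
    have : Sum.inl a ∈ Rset k i := by
      rw [hi]
      exact mem_range_self a
    exact hai (inl_mem_Rset.1 this)

theorem inl_ncard (k : ℕ) : (range Sum.inl : Set (Fin k ⊕ Fin k)).ncard = k := by
  rw [← image_univ, Set.ncard_image_of_injective _ Sum.inl_injective, Set.ncard_univ, Nat.card_fin]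

theorem L_compl {k : ℕ} (i : Fin k) : (Lset k i)ᶜ = Rset k i := by
  ext x
  rcases x with x | x
  · rw [mem_compl_iff, inl_mem_Lset, inl_mem_Rset, not_not]
  · rw [mem_compl_iff, inr_mem_Lset, inr_mem_Rset]

theorem Hyp_compl {k : ℕ} {A : Set (Fin k ⊕ Fin k)} : Aᶜ ∈ Hyp k ↔ A ∈ Hyp k := by
  have key : ∀ A : Set (Fin k ⊕ Fin k), A ∈ Hyp k → Aᶜ ∈ Hyp k := by
    rintro A (⟨i, rfl⟩ | ⟨i, rfl⟩)
    · exact Or.inr ⟨i, (L_compl i).symm⟩
    · exact Or.inl ⟨i, by rw [← L_compl, compl_compl]⟩
  exact ⟨fun h => by simpa using key _ h, key A⟩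

theorem Hyp_card {k : ℕ} (hk : 4 ≤ k) : (Hyp k).ncard = 2 * k := by
  have hL : Function.Injective (Lset k) := by
    intro i j hij
    by_contra hne
    have := LL_nontrivial hne
    rw [hij, sdiff_self] at this
    exact Set.not_nontrivial_empty this
  have hR : Function.Injective (Rset k) := by
    intro i j hij
    by_contra hne
    have := RR_nontrivial hne
    rw [hij, sdiff_self] at this
    exact Set.not_nontrivial_empty this
  rw [Hyp, Set.ncard_union_eq ?_ (Set.toFinite _) (Set.toFinite _), ← image_univ, ← image_univ,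
    Set.ncard_image_of_injective _ hL, Set.ncard_image_of_injective _ hR, Set.ncard_univ,
    Nat.card_fin, two_mul]
  rw [Set.disjoint_left]
  rintro A ⟨i, rfl⟩ ⟨j, hj⟩
  have := LR_nontrivial hk i j
  rw [hj, sdiff_self] at this
  exact Set.not_nontrivial_empty this

theorem sharp {k : ℕ} (hk : 4 ≤ k) : ∃ M : Matroid (Fin k ⊕ Fin k), M.E = univ ∧ M.eRank = k ∧
    (nonbases M k).ncard = 2 * k ∧ ¬ StarK M k := by
  classical
  set M : Matroid (Fin k ⊕ Fin k) := Matroid.ofExistsFiniteIsBase univ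
    (fun B : Set (Fin k ⊕ Fin k) => B.ncard = k ∧ B ∉ Hyp k)
    ⟨range Sum.inl, ⟨inl_ncard k, inl_notMem_Hyp hk⟩, Set.toFinite _⟩ (exch hk)
    (fun _ _ => subset_univ _) with hM
  have hB : ∀ B, M.IsBase B ↔ (B.ncard = k ∧ B ∉ Hyp k) := fun B => Iff.rfl
  have hE : M.E = univ := rfl
  have hX : M.IsBase (range Sum.inl) := (hB _).2 ⟨inl_ncard k, inl_notMem_Hyp hk⟩
  have hdual : M✶ = M := by
    refine Matroid.ext_isBase (by rw [Matroid.dual_ground]) fun B hBE => ?_
    rw [Matroid.dual_isBase_iff', hE, hB, hB, ← compl_eq_univ_sdiff, Hyp_compl, Set.ncard_compl]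
    have e1 : Nat.card (Fin k ⊕ Fin k) = k + k := by simp
    have e2 : B.ncard ≤ k + k := by
      rw [← e1, ← Set.ncard_univ]
      exact Set.ncard_le_ncard (subset_univ _) (Set.toFinite _)
    rw [e1]
    constructor
    · rintro ⟨⟨h1, h2⟩, -⟩
      exact ⟨by omega, h2⟩
    · rintro ⟨h1, h2⟩
      exact ⟨⟨by omega, h2⟩, subset_univ _⟩
  refine ⟨M, hE, ?_, ?_, ?_⟩
  · rw [← hX.encard_eq_eRank, ← Set.Finite.cast_ncard_eq (Set.toFinite _), inl_ncard]
  · have : nonbases M k = Hyp k := by
      ext B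
      constructor
      · rintro ⟨-, h1, h2⟩
        by_contra h3
        exact h2 ((hB B).2 ⟨h1, h3⟩)
      · intro h
        exact ⟨subset_univ _, Hyp_ncard h, fun h2 => ((hB B).1 h2).2 h⟩
    rw [this, Hyp_card hk]
  · intro hstar
    obtain ⟨C, hXC, hC⟩ := hstar (range Sum.inl) (subset_univ _) (inl_ncard k)
    have hCc : M.IsCircuit C := by
      rcases hC with hC | hC
      · exact hC
      · have := hC.isCircuit
        rwa [hdual] at this
    have hne : ∃ i : Fin k, Sum.inr i ∈ C := by
      by_contra hcon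
      push Not at hcon
      apply hCc.not_indep
      refine hX.indep.subset fun y hy => ?_
      rcases y with y | y
      · exact mem_range_self y
      · exact absurd hy (hcon y)
    obtain ⟨i, hi⟩ := hne
    have hsub : Lset k i ⊆ C := by
      rintro y (hy | ⟨j, hj, rfl⟩)
      · rw [hy]
        exact hi
      · exact hXC (mem_range_self j)
    have hLn : ¬ M.Indep (Lset k i) := by
      intro hind
      obtain ⟨B, hBb, hLB⟩ := hind.exists_isBase_superset
      have hBk := (hB B).1 hBb
      have : Lset k i = B := Set.eq_of_subset_of_ncard_le hLB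
        (by rw [hBk.1, Lset_ncard]) (Set.toFinite _)
      apply hBk.2
      rw [← this]
      exact Or.inl ⟨i, rfl⟩
    have heq := hCc.eq_of_not_indep_subset hLn hsub
    have : Sum.inl i ∈ Lset k i := by
      rw [heq]
      exact hXC (mem_range_self i)
    exact (inl_mem_Lset.1 this) rfl

/-- **Few nonbases imply property (star).**  Let `3 ≤ k`, `k ≤ r + 1` and `r + k ≤ n + 1`.  If a
matroid of rank `r` on `n` elements has fewer than `C(n-k, r+1-k) + C(n-k, r-1)` nonbases
(`r`-subsets of the ground set that are not bases), then every set of `k` elements is contained in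
a circuit or in a cocircuit.  For every `k ≥ 4` there is a matroid of rank `k` on `2k` elements with
exactly `C(k, 1) + C(k, k-1) = 2k` nonbases that does not have this property. -/
theorem result :
    (∀ (α : Type) (M : Matroid α) (n r k : ℕ), M.E.Finite → M.E.ncard = n → M.eRank = r →
      3 ≤ k → k ≤ r + 1 →
      (nonbases M r).ncard < (n - k).choose (r + 1 - k) + (n - k).choose (r - 1) → StarK M k) ∧
    (∀ k : ℕ, 4 ≤ k → ∃ M : Matroid (Fin k ⊕ Fin k), M.E = univ ∧ M.eRank = k ∧
      (nonbases M k).ncard =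
        (2 * k - k).choose (k + 1 - k) + (2 * k - k).choose (k - 1) ∧ ¬ StarK M k) := by
  refine ⟨fun α M n r k hE hn _ h3 h4 h5 => main M hE n r k hn h3 h4 h5, fun k hk => ?_⟩
  obtain ⟨M, h1, h2, h3, h4⟩ := sharp hk
  refine ⟨M, h1, h2, ?_, h4⟩
  have e1 : 2 * k - k = k := by omega
  have e2 : k + 1 - k = 1 := by omega
  have e3 : k.choose (k - 1) = k := by
    obtain ⟨m, rfl⟩ : ∃ m, k = m + 1 := ⟨k - 1, by omega⟩
    simp
  rw [h3, e1, e2, e3, Nat.choose_one_right]
  omega

end Pool.Agent.Work.MP_16b4d3_co.OldBasisDensity
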