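import Mathlib

open Set

namespace Pool.MP16b4d3

variable {α : Type*} {M : Matroid α}

/-- The rank of a set, as a natural number. -/
noncomputable def rk (M : Matroid α) (A : Set α) : ℕ := (M.eRk A).toNat

lemma coe_rk [M.RankFinite] (A : Set α) : ((rk M A : ℕ) : ℕ∞) = M.eRk A :=
  ENat.natCast_toNat (Matroid.eRk_ne_top_iff.2 (M.isRkFinite_set A))

lemma rk_mono [M.RankFinite] {A B : Set α} (h : A ⊆ B) : rk M A ≤ rk M B := by
  have := M.eRk_mono h
  rw [← coe_rk, ← coe_rk] at this
  exact_mod_cast this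

lemma rk_submod [M.RankFinite] (A B : Set α) :
    rk M (A ∩ B) + rk M (A ∪ B) ≤ rk M A + rk M B := by
  have := M.eRk_inter_add_eRk_union_le A B
  rw [← coe_rk, ← coe_rk, ← coe_rk, ← coe_rk] at this
  exact_mod_cast this

/-- submodularity, in the flexible form: `S ⊆ A`, `S ⊆ B`, `T ⊆ A ∪ B`. -/
lemma rk_submod' [M.RankFinite] {A B S T : Set α} (hA : S ⊆ A) (hB : S ⊆ B) (hT : T ⊆ A ∪ B) :
    rk M S + rk M T ≤ rk M A + rk M B := by
  have h1 := rk_submod (M := M) A B
  have h2 := rk_mono (M := M) (subset_inter hA hB)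
  have h3 := rk_mono (M := M) hT
  omega

lemma rk_closure [M.RankFinite] (A : Set α) : rk M (M.closure A) = rk M A := by
  unfold rk; rw [Matroid.eRk_closure_eq]

lemma rk_closure_union [M.RankFinite] (A B : Set α) : rk M (M.closure A ∪ B) = rk M (A ∪ B) := by
  unfold rk; rw [Matroid.eRk_union_closure_left_eq]

lemma rk_union_closure [M.RankFinite] (A B : Set α) : rk M (A ∪ M.closure B) = rk M (A ∪ B) := by
  unfold rk; rw [Matroid.eRk_union_closure_right_eq]

lemma rk_insert_le [M.RankFinite] (e : α) (A : Set α) : rk M (insert e A) ≤ rk M A + 1 := by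
  have := M.eRk_insert_le_add_one e A
  rw [← coe_rk, ← coe_rk] at this
  exact_mod_cast this

lemma rk_empty : rk M ∅ = 0 := by simp [rk]

lemma rk_insert_of_notMem [M.RankFinite] {e : α} {A : Set α} (he : e ∈ M.E)
    (h : e ∉ M.closure A) : rk M (insert e A) = rk M A + 1 := by
  have := M.eRk_insert_eq_add_one (e := e) (X := A) ⟨he, h⟩
  rw [← coe_rk, ← coe_rk] at this
  exact_mod_cast this

lemma rk_insert_of_mem [M.RankFinite] {e : α} {A : Set α}
    (h : e ∈ M.closure A) : rk M (insert e A) = rk M A := by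
  rw [← rk_closure, Matroid.closure_insert_eq_of_mem_closure h, rk_closure]

lemma mem_closure_iff_rk [M.RankFinite] {e : α} {A : Set α} (he : e ∈ M.E) :
    e ∈ M.closure A ↔ rk M (insert e A) = rk M A := by
  constructor
  · exact rk_insert_of_mem
  · intro h
    by_contra hc
    have := rk_insert_of_notMem he hc
    omega

lemma rk_union_of_subset_closure [M.RankFinite] {A Z : Set α}
    (h : Z ⊆ M.closure A) : rk M (A ∪ Z) = rk M A := by
  apply le_antisymm
  · have h1 : rk M (A ∪ Z) ≤ rk M (A ∪ M.closure A) := rk_mono (union_subset_union_right _ h)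
    rw [rk_union_closure, union_self] at h1
    exact h1
  · exact rk_mono subset_union_left

lemma subset_closure_of_rk_union_le [M.RankFinite] {A Z : Set α} (hZ : Z ⊆ M.E)
    (h : rk M (A ∪ Z) ≤ rk M A) : Z ⊆ M.closure A := by
  intro z hz
  rw [mem_closure_iff_rk (hZ hz)]
  apply le_antisymm
  · refine le_trans (rk_mono ?_) h
    exact insert_subset (mem_union_right _ hz) subset_union_left
  · exact rk_mono (subset_insert _ _)

lemma subset_closure_iff_rk [M.RankFinite] {A Z : Set α} (hZ : Z ⊆ M.E) :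
    Z ⊆ M.closure A ↔ rk M (A ∪ Z) ≤ rk M A :=
  ⟨fun h => (rk_union_of_subset_closure h).le, subset_closure_of_rk_union_le hZ⟩

lemma indep_rk [M.RankFinite] {I : Set α} (hI : M.Indep I) : rk M I = I.ncard := by
  unfold rk; rw [hI.eRk_eq_encard]; rfl

lemma indep_of_rk [M.Finite] {I : Set α} (hIE : I ⊆ M.E) (h : I.ncard ≤ rk M I) : M.Indep I := by
  have hfin : I.Finite := M.ground_finite.subset hIE
  rw [Matroid.indep_iff_eRk_eq_encard_of_finite hfin]
  apply le_antisymm (M.eRk_le_encard I)
  rw [← coe_rk, ← hfin.cast_ncard_eq]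
  exact_mod_cast h

lemma rk_le_ncard [M.Finite] {A : Set α} (hA : A ⊆ M.E) : rk M A ≤ A.ncard := by
  have hfin : A.Finite := M.ground_finite.subset hA
  have := M.eRk_le_encard A
  rw [← coe_rk, ← hfin.cast_ncard_eq] at this
  exact_mod_cast this

lemma rk_union_le_ncard [M.Finite] {A B : Set α} (hB : B ⊆ M.E) :
    rk M (A ∪ B) ≤ rk M A + B.ncard := by
  have h1 := rk_submod (M := M) A B
  have h2 := rk_le_ncard (M := M) hB
  omega

lemma basis_rk [M.RankFinite] {I A : Set α} (hI : M.IsBasis I A) : I.ncard = rk M A := by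
  unfold rk; rw [← hI.encard_eq_eRk]; rfl

lemma base_rk [M.RankFinite] {B : Set α} (hB : M.IsBase B) : B.ncard = rk M M.E := by
  have : M.IsBasis B M.E := hB.isBasis_ground
  exact basis_rk this

lemma rk_le_ground [M.RankFinite] (A : Set α) : rk M A ≤ rk M M.E := by
  unfold rk
  rw [← M.eRk_inter_ground A]
  exact rk_mono inter_subset_right

lemma closure_eq_of_rk [M.RankFinite] {A B : Set α} (hAB : M.closure A ⊆ M.closure B)
    (h : rk M B ≤ rk M A) : M.closure A = M.closure B := by
  apply subset_antisymm hAB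
  apply subset_closure_of_rk_union_le (M.closure_subset_ground B)
  rw [rk_union_closure]
  have h1 : A ∪ B ∩ M.E ⊆ A ∪ B := by
    apply union_subset_union_right; exact inter_subset_left
  have h2 : rk M (A ∪ B) ≤ rk M (M.closure B) := by
    have : rk M (A ∪ B) = rk M (M.closure A ∪ M.closure B) := by
      rw [rk_closure_union, rk_union_closure]
    rw [this]
    exact rk_mono (union_subset hAB subset_rfl)
  rw [rk_closure] at h2
  omega

lemma ground_subset_closure_of_rk [M.RankFinite] {A : Set α} (h : rk M M.E ≤ rk M A) :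
    M.closure A = M.E := by
  have := closure_eq_of_rk (M := M) (A := A) (B := M.E)
    (by rw [M.closure_ground]; exact M.closure_subset_ground A) h
  rw [this, M.closure_ground]

lemma base_of_rk [M.Finite] {B : Set α} (hBE : B ⊆ M.E) (h1 : rk M M.E ≤ rk M B)
    (h2 : B.ncard ≤ rk M M.E) : M.IsBase B := by
  have hI : M.Indep B := indep_of_rk hBE (by omega)
  rw [Matroid.isBase_iff_indep_closure_eq]
  exact ⟨hI, ground_subset_closure_of_rk h1⟩

end Pool.MP16b4d3
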