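import Mathlib

/-!
Tipless spikes: the matroid with prescribed family of dependent transversals.
-/

set_option autoImplicit false
set_option linter.unusedSectionVars false

namespace Pool.Agent.Work.MP_16b4d3_co.Spike

open Set Function

variable {ι : Type*} [DecidableEq ι]

/-- The transversal of `v`. -/
def trv (v : ι → Bool) : Set (ι × Bool) := {e | e.2 = v e.1}

/-- The transversal of `v` without its element in leg `m`, together with the whole leg `i`. -/
def near (i m : ι) (v : ι → Bool) : Set (ι × Bool) := {e | e.1 = i ∨ (e.1 ≠ m ∧ e.2 = v e.1)}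

/-- The bases of the tipless spike whose dependent transversals are the members of `T`. -/
def IsB (T : Set (ι → Bool)) (B : Set (ι × Bool)) : Prop :=
  (∃ v, v ∉ T ∧ B = trv v) ∨ (∃ i m v, i ≠ m ∧ B = near i m v)

/-- No two members of `T` differ in exactly one place. -/
def Sep (T : Set (ι → Bool)) : Prop := ∀ v ∈ T, ∀ i, update v i (!v i) ∉ T

lemma mem_trv {v : ι → Bool} {e : ι × Bool} : e ∈ trv v ↔ e.2 = v e.1 := Iff.rfl

lemma mem_near {i m : ι} {v : ι → Bool} {e : ι × Bool} :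
    e ∈ near i m v ↔ (e.1 = i ∨ (e.1 ≠ m ∧ e.2 = v e.1)) := Iff.rfl

lemma Sep.pick {T : Set (ι → Bool)} (hT : Sep T) (v : ι → Bool) (m : ι) :
    ∃ d, update v m d ∉ T := by
  by_contra hcon
  push Not at hcon
  have h1 := hT _ (hcon true) m
  apply h1
  have : update (update v m true) m (!update v m true m) = update v m false := by simp
  rw [this]; exact hcon false

lemma ex1 {T : Set (ι → Bool)} (hT : Sep T) (v : ι → Bool) (m : ι) {B : Set (ι × Bool)}
    (hB : IsB T B) : ∃ y ∈ B, y ∉ {e : ι × Bool | e.1 ≠ m ∧ e.2 = v e.1} ∧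
      IsB T (insert y {e : ι × Bool | e.1 ≠ m ∧ e.2 = v e.1}) := by
  by_cases h : ∃ l, l ≠ m ∧ (l, !v l) ∈ B
  · obtain ⟨l, hlm, hl⟩ := h
    refine ⟨(l, !v l), hl, by simp, Or.inr ⟨l, m, v, hlm, ?_⟩⟩
    ext ⟨p, c⟩
    simp only [mem_insert_iff, Prod.mk.injEq, mem_ofPred_eq, mem_near]
    constructor
    · rintro (⟨h1, _⟩ | h1)
      · exact Or.inl h1
      · exact Or.inr h1
    · rintro (h1 | h1)
      · subst h1
        by_cases hc : c = v p
        · right; exact ⟨hlm, hc⟩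
        · left; exact ⟨rfl, by cases c <;> cases hv : v p <;> simp_all⟩
      · exact Or.inr h1
  · push Not at h
    rcases hB with ⟨w, hw, rfl⟩ | ⟨i, n, w, hin, rfl⟩
    · have hwv : ∀ l, l ≠ m → w l = v l := by
        intro l hl
        by_contra hne
        apply h l hl
        rw [mem_trv]
        cases hv : v l <;> cases hw' : w l <;> simp_all
      refine ⟨(m, w m), rfl, by simp, Or.inl ⟨w, hw, ?_⟩⟩
      ext ⟨p, c⟩
      simp only [mem_insert_iff, Prod.mk.injEq, mem_ofPred_eq, mem_trv]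
      constructor
      · rintro (⟨rfl, rfl⟩ | ⟨h1, h2⟩)
        · rfl
        · rw [h2, hwv p h1]
      · intro h1
        by_cases hp : p = m
        · left; subst hp; exact ⟨rfl, h1⟩
        · right; exact ⟨hp, by rw [h1, hwv p hp]⟩
    · have him : i = m := by
        by_contra hne
        exact h i hne (Or.inl rfl)
      subst him
      obtain ⟨d, hd⟩ := hT.pick v i
      refine ⟨(i, d), Or.inl rfl, by simp, Or.inl ⟨update v i d, hd, ?_⟩⟩
      ext ⟨p, c⟩
      simp only [mem_insert_iff, Prod.mk.injEq, mem_ofPred_eq, mem_trv]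
      by_cases hp : p = i
      · subst hp; simp
      · simp [hp]

lemma ex2 {T : Set (ι → Bool)} (v : ι → Bool) {i l m : ι} (hli : l ≠ i) (hmi : m ≠ i)
    (hlm : l ≠ m) {B : Set (ι × Bool)} (hB : IsB T B) :
    ∃ y ∈ B, y ∉ {e : ι × Bool | e.1 = i ∨ (e.1 ≠ m ∧ e.1 ≠ l ∧ e.2 = v e.1)} ∧
      IsB T (insert y {e : ι × Bool | e.1 = i ∨ (e.1 ≠ m ∧ e.1 ≠ l ∧ e.2 = v e.1)}) := by
  have key : (∃ c, (l, c) ∈ B) ∨ (∃ c, (m, c) ∈ B) := by
    rcases hB with ⟨w, _, rfl⟩ | ⟨i', n, w, hin, rfl⟩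
    · exact Or.inl ⟨w l, rfl⟩
    · by_cases h : l = n
      · right; exact ⟨w m, Or.inr ⟨fun h' => hlm (h.trans h'.symm), rfl⟩⟩
      · left; exact ⟨w l, Or.inr ⟨h, rfl⟩⟩
  rcases key with ⟨c, hc⟩ | ⟨c, hc⟩
  · refine ⟨(l, c), hc, by simp [hli], Or.inr ⟨i, m, update v l c, hmi.symm, ?_⟩⟩
    ext ⟨p, d⟩
    simp only [mem_insert_iff, Prod.mk.injEq, mem_ofPred_eq, mem_near]
    by_cases hp : p = l
    · subst hp; simp [hli, hlm]
    · simp [hp]
  · refine ⟨(m, c), hc, by simp [hmi], Or.inr ⟨i, l, update v m c, hli.symm, ?_⟩⟩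
    ext ⟨p, d⟩
    simp only [mem_insert_iff, Prod.mk.injEq, mem_ofPred_eq, mem_near]
    by_cases hp : p = m
    · subst hp; simp [hmi, hlm.symm]
    · simp [hp]

lemma exchange {T : Set (ι → Bool)} (hT : Sep T) : Matroid.ExchangeProperty (IsB T) := by
  have aux : ∀ (X Y A : Set (ι × Bool)) (a : ι × Bool), a ∉ Y → X \ {a} = A →
      (∃ y ∈ Y, y ∉ A ∧ IsB T (insert y A)) → ∃ b ∈ Y \ X, IsB T (insert b (X \ {a})) := by
    intro X Y A a haY hA ⟨y, hy, hyA, hyB⟩
    refine ⟨y, ⟨hy, fun hyX => hyA ?_⟩, by rw [hA]; exact hyB⟩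
    rw [← hA]
    exact ⟨hyX, fun h => haY (by rw [← mem_singleton_iff.1 h]; exact hy)⟩
  rintro X Y (⟨v, hv, rfl⟩ | ⟨i, m, v, him, rfl⟩) hY ⟨p, c⟩ ⟨haX, haY⟩
  · rw [mem_trv] at haX
    simp only at haX
    refine aux _ _ _ _ haY ?_ (ex1 hT v p hY)
    ext ⟨q, d⟩
    simp only [mem_sdiff, mem_singleton_iff, Prod.mk.injEq, mem_ofPred_eq, mem_trv]
    subst haX
    constructor
    · rintro ⟨h1, h2⟩
      exact ⟨fun h => h2 ⟨h, by subst h; exact h1⟩, h1⟩
    · rintro ⟨h1, h2⟩
      exact ⟨h2, fun h => h1 h.1⟩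
  · by_cases hp : p = i
    · subst hp
      refine aux _ _ _ _ haY ?_ (ex1 hT (update v p (!c)) m hY)
      ext ⟨q, d⟩
      simp only [mem_sdiff, mem_singleton_iff, Prod.mk.injEq, mem_ofPred_eq, mem_near]
      by_cases hq : q = p
      · subst hq
        cases c <;> cases d <;> simp [him]
      · simp [hq]
    · have h1 : p ≠ m ∧ c = v p := by
        rcases haX with h | h
        · exact absurd h hp
        · exact h
      obtain ⟨hpm, rfl⟩ := h1
      refine aux _ _ _ _ haY ?_ (ex2 v hp him.symm hpm hY)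
      ext ⟨q, d⟩
      simp only [mem_sdiff, mem_singleton_iff, Prod.mk.injEq, mem_ofPred_eq, mem_near]
      by_cases hq : q = p
      · subst hq
        constructor
        · rintro ⟨h1 | h1, h2⟩
          · exact absurd h1 hp
          · exact absurd ⟨rfl, h1.2⟩ h2
        · rintro (h1 | h1)
          · exact absurd h1 hp
          · exact absurd rfl h1.2.1
      · simp [hq]

/-- Existence of the spike. -/
lemma exists_spike [Finite ι] {T : Set (ι → Bool)} (hT : Sep T) (h2 : ∃ i m : ι, i ≠ m) :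
    ∃ M : Matroid (ι × Bool), M.E = univ ∧ ∀ B, M.IsBase B ↔ IsB T B := by
  obtain ⟨i, m, him⟩ := h2
  refine ⟨Matroid.ofIsBaseOfFinite (E := univ) (toFinite _) (IsB T)
    ⟨near i m (fun _ => true), Or.inr ⟨i, m, _, him, rfl⟩⟩ (exchange hT)
    (fun _ _ => subset_univ _), rfl, fun B => ?_⟩
  rfl

end Pool.Agent.Work.MP_16b4d3_co.Spike
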