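import Pool.Agent.Work.MP_16b4d3_co.Spike1

/-!
Circuits of tipless spikes through four given elements.
-/

set_option autoImplicit false
set_option linter.unusedSectionVars false

namespace Pool.Agent.Work.MP_16b4d3_co.Spike

open Set Function

variable {ι : Type*} [DecidableEq ι] {M : Matroid (ι × Bool)} {T : Set (ι → Bool)}

/-- The circuit consisting of leg `i` and the elements of `v` in the other legs. -/
def span (i : ι) (v : ι → Bool) : Set (ι × Bool) := {e | e.1 = i ∨ e.2 = v e.1}

lemma not_base_of_miss {B : Set (ι × Bool)} (hB : IsB T B) {l m : ι} (hlm : l ≠ m)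
    (hl : ∀ c, (l, c) ∉ B) (hm : ∀ c, (m, c) ∉ B) : False := by
  rcases hB with ⟨w, _, rfl⟩ | ⟨i', n, w, hin, rfl⟩
  · exact hl (w l) rfl
  · by_cases h : l = n
    · exact hm (w m) (Or.inr ⟨fun h' => hlm (h.trans h'.symm), rfl⟩)
    · exact hl (w l) (Or.inr ⟨h, rfl⟩)

section

variable (hE : M.E = univ) (hM : ∀ B, M.IsBase B ↔ IsB T B)

include hE hM

lemma indep_near {i m : ι} (him : i ≠ m) (v : ι → Bool) {I : Set (ι × Bool)}
    (hI : I ⊆ near i m v) : M.Indep I :=
  (((hM _).2 (Or.inr ⟨i, m, v, him, rfl⟩)).indep).subset hI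

lemma indep_trv {v : ι → Bool} (hv : v ∉ T) {I : Set (ι × Bool)}
    (hI : I ⊆ trv v) : M.Indep I :=
  (((hM _).2 (Or.inl ⟨v, hv, rfl⟩)).indep).subset hI

lemma circ_legs {i j m : ι} (hij : i ≠ j) (him : i ≠ m) (hjm : j ≠ m) :
    M.IsCircuit {e : ι × Bool | e.1 = i ∨ e.1 = j} := by
  rw [Matroid.isCircuit_iff_dep_forall_sdiff_singleton_indep]
  refine ⟨⟨fun hI => ?_, by rw [hE]; exact subset_univ _⟩, ?_⟩
  · obtain ⟨B, hB, hsub⟩ := hI.exists_isBase_superset
    rw [hM] at hB
    have hi : ∀ c, (i, c) ∈ B := fun c => hsub (Or.inl rfl)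
    have hj : ∀ c, (j, c) ∈ B := fun c => hsub (Or.inr rfl)
    rcases hB with ⟨w, _, rfl⟩ | ⟨i', n, w, hin, rfl⟩
    · have h1 : (!w i) = w i := hi _
      cases hh : w i <;> simp_all
    · by_cases h : i = i'
      · have h2 : j ≠ i' := fun h' => hij (h.trans h'.symm)
        rcases hj (!w j) with h1 | h1
        · exact h2 h1
        · have h3 : (!w j) = w j := h1.2
          cases hh : w j <;> simp_all
      · rcases hi (!w i) with h1 | h1
        · exact h h1
        · have h3 : (!w i) = w i := h1.2
          cases hh : w i <;> simp_all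
  · rintro ⟨p, c⟩ (hp | hp)
    · simp only at hp
      subst hp
      refine indep_near hE hM hjm (fun _ => !c) ?_
      rintro ⟨q, d⟩ ⟨h1 | h1, h2⟩
      · simp only at h1
        subst h1
        refine Or.inr ⟨him, ?_⟩
        cases c <;> cases d <;> simp_all
      · exact Or.inl h1
    · simp only at hp
      subst hp
      refine indep_near hE hM him (fun _ => !c) ?_
      rintro ⟨q, d⟩ ⟨h1 | h1, h2⟩
      · exact Or.inl h1
      · simp only at h1
        subst h1
        refine Or.inr ⟨hjm, ?_⟩
        cases c <;> cases d <;> simp_all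

lemma circ_T (hT : Sep T) {v : ι → Bool} (hv : v ∈ T) : M.IsCircuit (trv v) := by
  rw [Matroid.isCircuit_iff_dep_forall_sdiff_singleton_indep]
  refine ⟨⟨fun hI => ?_, by rw [hE]; exact subset_univ _⟩, ?_⟩
  · obtain ⟨B, hB, hsub⟩ := hI.exists_isBase_superset
    rw [hM] at hB
    rcases hB with ⟨w, hw, rfl⟩ | ⟨i', n, w, hin, rfl⟩
    · apply hw
      have : w = v := by
        funext l
        have h1 : (l, v l) ∈ trv w := hsub rfl
        exact h1.symm
      rw [this]; exact hv
    · have h1 : (n, v n) ∈ near i' n w := hsub rfl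
      rcases h1 with h2 | h2
      · exact hin h2.symm
      · exact h2.1 rfl
  · rintro ⟨p, c⟩ hp
    have hp' : c = v p := hp
    subst hp'
    refine indep_trv hE hM (hT v hv p) ?_
    rintro ⟨q, d⟩ ⟨h1, h2⟩
    have h1' : d = v q := h1
    rw [mem_trv]
    by_cases hq : q = p
    · subst hq
      subst h1'
      exact absurd rfl h2
    · simp [hq, h1']

lemma circ_span {v : ι → Bool} {i : ι} (hv : v ∉ T) (hvi : update v i (!v i) ∉ T) :
    M.IsCircuit (span i v) := by
  rw [Matroid.isCircuit_iff_dep_forall_sdiff_singleton_indep]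
  refine ⟨⟨fun hI => ?_, by rw [hE]; exact subset_univ _⟩, ?_⟩
  · obtain ⟨B, hB, hsub⟩ := hI.exists_isBase_superset
    rw [hM] at hB
    rcases hB with ⟨w, hw, rfl⟩ | ⟨i', n, w, hin, rfl⟩
    · have h1 : (i, !w i) ∈ trv w := hsub (Or.inl rfl)
      have h2 : (!w i) = w i := h1
      cases hh : w i <;> simp_all
    · have h1 : (n, v n) ∈ near i' n w := hsub (Or.inr rfl)
      rcases h1 with h2 | h2
      · exact hin h2.symm
      · exact h2.1 rfl
  · rintro ⟨p, c⟩ hp
    by_cases hpi : p = i
    · subst hpi
      have hnot : update v p (!c) ∉ T := by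
        by_cases hc : c = v p
        · rw [hc]; exact hvi
        · have : (!c) = v p := by
            cases c <;> cases hh : v p <;> simp_all
          rw [this, update_eq_self]; exact hv
      refine indep_trv hE hM hnot ?_
      rintro ⟨q, d⟩ ⟨h1, h2⟩
      rw [mem_trv]
      by_cases hq : q = p
      · subst hq
        cases c <;> cases d <;> simp_all
      · rcases h1 with h1 | h1
        · exact absurd h1 hq
        · simp only at h1
          simp [hq, h1]
    · refine indep_near hE hM (fun h => hpi h.symm) v ?_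
      rintro ⟨q, d⟩ ⟨h1, h2⟩
      rcases h1 with h1 | h1
      · exact Or.inl h1
      · simp only at h1
        by_cases hq : q = i
        · exact Or.inl hq
        · refine Or.inr ⟨?_, h1⟩
          rintro h3
          simp only at h3
          subst h3
          apply h2
          rcases hp with hp | hp
          · exact absurd hp hpi
          · simp only at hp
            rw [mem_singleton_iff, h1, hp]

/-- A circuit through a leg and two elements in two other legs. -/
lemma conv {C : Set (ι × Bool)} (hC : M.IsCircuit C) {i j k : ι} {a b : Bool}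
    (hij : i ≠ j) (hik : i ≠ k) (hjk : j ≠ k) (hi : ∀ c, (i, c) ∈ C) (hj : (j, a) ∈ C)
    (hk : (k, b) ∈ C) : ∃ v : ι → Bool, v j = a ∧ v k = b ∧ v ∉ T ∧ update v i (!v i) ∉ T := by
  classical
  have hno : ∀ m, m ≠ i → ∀ c, (m, c) ∈ C → (m, !c) ∉ C := by
    intro m hm c h1 h2
    have hm2 : ∀ d, (m, d) ∈ C := by
      intro d
      cases c <;> cases d <;> simp_all
    obtain ⟨l, hl⟩ : ∃ l, i ≠ l ∧ m ≠ l ∧ (l, if l = j then a else b) ∈ C := by
      by_cases h : m = j
      · subst h
        refine ⟨k, hik, hjk, ?_⟩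
        rw [if_neg (fun h => hjk h.symm)]; exact hk
      · exact ⟨j, hij, h, by simpa using hj⟩
    have hcir := circ_legs hE hM hm.symm hl.1 hl.2.1
    have hsub : {e : ι × Bool | e.1 = i ∨ e.1 = m} ⊆ C := by
      rintro ⟨q, d⟩ (h3 | h3)
      · simp only at h3; subst h3; exact hi d
      · simp only at h3; subst h3; exact hm2 d
    have heq := hcir.eq_of_subset_isCircuit hC hsub
    have h4 := hl.2.2
    rw [← heq] at h4
    rcases h4 with h4 | h4
    · exact hl.1 h4.symm
    · exact hl.2.1 h4.symm
  set v : ι → Bool := fun l => decide ((l, true) ∈ C) with hv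
  have hCv : C ⊆ span i v := by
    rintro ⟨q, d⟩ hq
    by_cases h : q = i
    · exact Or.inl h
    · right
      simp only [hv]
      cases d
      · have := hno q h false hq
        simp only [Bool.not_false] at this
        simp [this]
      · simp [hq]
  have hmeet : ∀ m, (m, v m) ∈ C := by
    intro m
    by_contra hcon
    have hmi : i ≠ m := by
      rintro rfl
      exact hcon (hi _)
    refine hC.dep.not_indep (indep_near hE hM hmi v ?_)
    rintro ⟨q, d⟩ hq
    rcases hCv hq with h | h
    · exact Or.inl h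
    · simp only at h
      by_cases hqi : q = i
      · exact Or.inl hqi
      · refine Or.inr ⟨?_, h⟩
        intro h3
        simp only at h3
        subst h3
        rw [h] at hq
        exact hcon hq
  have hval : ∀ m, m ≠ i → ∀ c, (m, c) ∈ C → v m = c := by
    intro m hm c hc
    rcases hCv hc with h | h
    · exact absurd h hm
    · exact h.symm
  have hnT : ∀ c, update v i c ∉ T := by
    intro c hcT
    have h1 : M.Indep (C \ {(i, !c)}) := hC.sdiff_singleton_indep (hi _)
    obtain ⟨B, hB, hsub⟩ := h1.exists_isBase_superset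
    rw [hM] at hB
    have hin : ∀ m, (m, update v i c m) ∈ B := by
      intro m
      apply hsub
      by_cases hm : m = i
      · subst hm
        refine ⟨by simpa using hi c, ?_⟩
        simp
      · refine ⟨by simpa [hm] using hmeet m, ?_⟩
        simp [hm]
    rcases hB with ⟨w, hw, rfl⟩ | ⟨i', n, w, hin', rfl⟩
    · apply hw
      have : w = update v i c := by
        funext l
        exact (hin l).symm
      rw [this]; exact hcT
    · rcases hin n with h2 | h2
      · exact hin' h2.symm
      · exact h2.1 rfl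
  refine ⟨v, hval j hij.symm a hj, hval k hik.symm b hk, ?_, hnT _⟩
  have := hnT (v i)
  rwa [update_eq_self] at this

end

/-- The bases of the dual. -/
lemma dual_isB (hE : M.E = univ) (hM : ∀ B, M.IsBase B ↔ IsB T B) (B : Set (ι × Bool)) :
    M✶.IsBase B ↔ IsB {v | (fun l => !v l) ∈ T} B := by
  have htrv : ∀ v : ι → Bool, (trv v)ᶜ = trv (fun l => !v l) := by
    intro v
    ext ⟨q, d⟩
    simp only [mem_compl_iff, mem_trv]
    cases d <;> cases hh : v q <;> simp
  have hnear : ∀ (i m : ι) (v : ι → Bool), i ≠ m → (near i m v)ᶜ = near m i (fun l => !v l) := by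
    intro i m v him
    ext ⟨q, d⟩
    simp only [mem_compl_iff, mem_near]
    by_cases h1 : q = i
    · subst h1; simp [him]
    · by_cases h2 : q = m
      · subst h2; simp [h1]
      · cases d <;> cases hh : v q <;> simp [h1, h2]
  rw [Matroid.dual_isBase_iff (by rw [hE]; exact subset_univ _), hE, hM, ← compl_eq_univ_sdiff]
  constructor
  · rintro (⟨v, hv, h⟩ | ⟨i, m, v, him, h⟩)
    · left
      refine ⟨fun l => !v l, by simpa using hv, ?_⟩
      rw [← htrv, ← h, compl_compl]
    · right
      refine ⟨m, i, fun l => !v l, him.symm, ?_⟩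
      rw [← hnear _ _ _ him, ← h, compl_compl]
  · rintro (⟨v, hv, rfl⟩ | ⟨i, m, v, him, rfl⟩)
    · left
      exact ⟨fun l => !v l, by simpa using hv, htrv v⟩
    · right
      exact ⟨m, i, fun l => !v l, him.symm, hnear _ _ _ him⟩

end Pool.Agent.Work.MP_16b4d3_co.Spike
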