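import Pool.Agent.Work.MP_16b4d3_co.Spike2

/-!
Which tipless spikes have every four-element set in a circuit or a cocircuit.
-/

set_option autoImplicit false
set_option linter.unusedSectionVars false

namespace Pool.Agent.Work.MP_16b4d3_co.Spike

open Set Function

variable {ι : Type*} [DecidableEq ι] {M : Matroid (ι × Bool)} {T : Set (ι → Bool)}

/-- Every four-element subset of the ground set lies in a circuit or in a cocircuit. -/
def Star {α : Type*} (M : Matroid α) : Prop :=
  ∀ X : Set α, X ⊆ M.E → X.ncard = 4 → ∃ C : Set α, X ⊆ C ∧ (M.IsCircuit C ∨ M.IsCocircuit C)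

/-- The transversals through `a` in leg `j` and `b` in leg `k` are blocked at leg `i`. -/
def Blk (T : Set (ι → Bool)) (i j k : ι) (a b : Bool) : Prop :=
  ∀ v : ι → Bool, v j = a → v k = b → v ∈ T ∨ update v i (!v i) ∈ T

/-- The four-element set. -/
def fset (i j k : ι) (a b : Bool) : Set (ι × Bool) := {(i, true), (i, false), (j, a), (k, b)}

lemma fset_ncard {i j k : ι} (hij : i ≠ j) (hik : i ≠ k) (hjk : j ≠ k) (a b : Bool) :
    (fset i j k a b).ncard = 4 := by
  unfold fset
  rw [ncard_insert_of_notMem, ncard_insert_of_notMem, ncard_pair]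
  · simp [hjk]
  · simp [hij, hik]
  · simp [hij, hik]

lemma circ_iff (hE : M.E = univ) (hM : ∀ B, M.IsBase B ↔ IsB T B) {i j k : ι}
    (hij : i ≠ j) (hik : i ≠ k) (hjk : j ≠ k) (a b : Bool) :
    (∃ C, fset i j k a b ⊆ C ∧ M.IsCircuit C) ↔ ¬ Blk T i j k a b := by
  unfold Blk fset
  push Not
  constructor
  · rintro ⟨C, hsub, hC⟩
    exact conv hE hM hC hij hik hjk (fun c => hsub (by cases c <;> simp)) (hsub (by simp))
      (hsub (by simp))
  · rintro ⟨v, hj, hk, hv, hvi⟩
    refine ⟨span i v, ?_, circ_span hE hM hv hvi⟩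
    rintro e (rfl | rfl | rfl | rfl)
    · exact Or.inl rfl
    · exact Or.inl rfl
    · exact Or.inr hj.symm
    · exact Or.inr hk.symm

lemma blk_dual {i j k : ι} {a b : Bool} :
    Blk {v | (fun l => !v l) ∈ T} i j k a b ↔ Blk T i j k (!a) (!b) := by
  have hu : ∀ (v : ι → Bool) (c : Bool),
      (fun l => !(update v i c l)) = update (fun l => !v l) i (!c) := by
    intro v c
    funext l
    by_cases h : l = i
    · subst h; simp
    · simp [h]
  unfold Blk
  constructor
  · intro h v hj hk
    have := h (fun l => !v l) (by simp [hj]) (by simp [hk])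
    simp only [mem_ofPred_eq, hu, Bool.not_not] at this
    exact this
  · intro h v hj hk
    have := h (fun l => !v l) (by simp [hj]) (by simp [hk])
    simp only [mem_ofPred_eq, hu, Bool.not_not] at this ⊢
    exact this

/-- A partial transversal missing some leg lies in a circuit. -/
lemma partial_ok (hE : M.E = univ) (hM : ∀ B, M.IsBase B ↔ IsB T B) (hT : Sep T)
    {X : Set (ι × Bool)} {v : ι → Bool} (hX : X ⊆ trv v) {i p : ι} (hpi : p ≠ i)
    (hp : ∀ c, (p, c) ∉ X) : ∃ C, X ⊆ C ∧ M.IsCircuit C := by
  have hXp : X ⊆ trv (update v p (!v p)) := by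
    rintro ⟨q, d⟩ h
    have h1 : d = v q := hX h
    have hq : q ≠ p := by
      rintro rfl
      exact hp _ h
    rw [mem_trv]; simp [hq, h1]
  have hspan : ∀ w : ι → Bool, X ⊆ trv w → X ⊆ span i w := fun w hw e he => Or.inr (hw he)
  by_cases h1 : v ∈ T
  · exact ⟨_, hX, circ_T hE hM hT h1⟩
  by_cases h2 : update v p (!v p) ∈ T
  · exact ⟨_, hXp, circ_T hE hM hT h2⟩
  by_cases h3 : update v i (!v i) ∈ T
  · refine ⟨_, hspan _ hXp, circ_span hE hM h2 ?_⟩
    have h4 := hT _ h3 p
    have h5 : update (update v p (!v p)) i (!update v p (!v p) i)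
        = update (update v i (!v i)) p (!update v i (!v i) p) := by
      rw [update_of_ne hpi.symm, update_of_ne hpi, update_comm hpi.symm]
    rw [h5]; exact h4
  · exact ⟨_, hspan _ hX, circ_span hE hM h1 h3⟩

lemma star_fails_iff [Fintype ι] (hι : 5 ≤ Fintype.card ι) (hE : M.E = univ)
    (hM : ∀ B, M.IsBase B ↔ IsB T B) (hT : Sep T) :
    ¬ Star M ↔ ∃ i j k : ι, ∃ a b : Bool, i ≠ j ∧ i ≠ k ∧ j ≠ k ∧
      Blk T i j k a b ∧ Blk T i j k (!a) (!b) := by
  classical
  have hEd : M✶.E = univ := by rw [Matroid.dual_ground, hE]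
  have hMd : ∀ B, M✶.IsBase B ↔ IsB {v | (fun l => !v l) ∈ T} B := dual_isB hE hM
  constructor
  · intro hns
    unfold Star at hns
    push Not at hns
    obtain ⟨X, -, hX4, hX⟩ := hns
    have hXfin : X.Finite := toFinite _
    by_cases hleg : ∃ i, ∀ c, (i, c) ∈ X
    · obtain ⟨i, hi⟩ := hleg
      have hsub : ({(i, true), (i, false)} : Set (ι × Bool)) ⊆ X := by
        rintro e (rfl | rfl)
        · exact hi _
        · exact hi _
      have h2 : (X \ {(i, true), (i, false)}).ncard = 2 := by
        rw [ncard_sdiff hsub, hX4, ncard_pair (by simp)]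
      obtain ⟨⟨j, a⟩, ⟨k, b⟩, hne, hpq⟩ := ncard_eq_two.1 h2
      have hj : (j, a) ∈ X \ {(i, true), (i, false)} := by rw [hpq]; simp
      have hk : (k, b) ∈ X \ {(i, true), (i, false)} := by rw [hpq]; simp
      have hij : i ≠ j := by
        rintro rfl
        apply hj.2
        cases a <;> simp
      have hik : i ≠ k := by
        rintro rfl
        apply hk.2
        cases b <;> simp
      have hXe : X = fset i j k a b := by
        rw [← union_sdiff_cancel hsub, hpq]
        unfold fset
        ext e
        simp only [mem_union, mem_insert_iff, mem_singleton_iff, or_assoc]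
      by_cases hjk : j = k
      · exfalso
        subst hjk
        obtain ⟨m, hm⟩ : ∃ m, m ∉ ({i, j} : Finset ι) := by
          by_contra hcon
          push Not at hcon
          have := Finset.card_le_card (fun x _ => hcon x : (Finset.univ : Finset ι) ⊆ {i, j})
          have h3 := Finset.card_le_two (a := i) (b := j)
          rw [Finset.card_univ] at this
          omega
        simp only [Finset.mem_insert, Finset.mem_singleton, not_or] at hm
        refine (hX _ ?_).1 (circ_legs hE hM hij (Ne.symm hm.1) (Ne.symm hm.2))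
        rw [hXe]
        rintro e (rfl | rfl | rfl | rfl)
        · exact Or.inl rfl
        · exact Or.inl rfl
        · exact Or.inr rfl
        · exact Or.inr rfl
      · refine ⟨i, j, k, a, b, hij, hik, hjk, ?_, ?_⟩
        · by_contra hcon
          rw [← circ_iff hE hM hij hik hjk] at hcon
          obtain ⟨C, hC1, hC2⟩ := hcon
          rw [← hXe] at hC1
          exact (hX C hC1).1 hC2
        · rw [← blk_dual]
          by_contra hcon
          rw [← circ_iff hEd hMd hij hik hjk] at hcon
          obtain ⟨C, hC1, hC2⟩ := hcon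
          rw [← hXe] at hC1
          exact (hX C hC1).2 hC2
    · exfalso
      push Not at hleg
      have hXv : X ⊆ trv (fun l => decide ((l, true) ∈ X)) := by
        rintro ⟨q, d⟩ hq
        rw [mem_trv]
        obtain ⟨c, hc⟩ := hleg q
        cases d
        · have h1 : (q, true) ∉ X := by
            cases c
            · exact absurd hq hc
            · exact hc
          simp [h1]
        · simp [hq]
      obtain ⟨p, hp⟩ : ∃ p, ∀ c, (p, c) ∉ X := by
        by_contra hcon
        push Not at hcon
        choose f hf using hcon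
        have hinj : Function.Injective (fun p => (p, f p) : ι → ι × Bool) := by
          intro p q hpq
          exact (Prod.mk.inj hpq).1
        have h1 : (Set.range (fun p => (p, f p) : ι → ι × Bool)).ncard = Fintype.card ι := by
          rw [← image_univ, ncard_image_of_injective _ hinj, ncard_univ, Nat.card_eq_fintype_card]
        have h2 := ncard_le_ncard (range_subset_iff.2 hf) hXfin
        omega
      obtain ⟨i, hi⟩ : ∃ i, i ≠ p := by
        have : Nontrivial ι := Fintype.one_lt_card_iff_nontrivial.1 (by omega)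
        exact exists_ne p
      obtain ⟨C, hC1, hC2⟩ := partial_ok hE hM hT hXv (Ne.symm hi) hp
      exact (hX C hC1).1 hC2
  · rintro ⟨i, j, k, a, b, hij, hik, hjk, h1, h2⟩ hstar
    obtain ⟨C, hC, hC' | hC'⟩ := hstar (fset i j k a b) (by rw [hE]; exact subset_univ _)
      (fset_ncard hij hik hjk a b)
    · exact (circ_iff hE hM hij hik hjk a b).1 ⟨C, hC, hC'⟩ h1
    · rw [← blk_dual] at h2
      exact (circ_iff hEd hMd hij hik hjk a b).1 ⟨C, hC, hC'⟩ h2

end Pool.Agent.Work.MP_16b4d3_co.Spike
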