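import Pool.Agent.Work.MP_16b4d3_co.Spike3

/-!
Parity classes of subcubes and the tight family of dependent transversals.
-/

set_option autoImplicit false
set_option linter.unusedSectionVars false

namespace Pool.Agent.Work.MP_16b4d3_co.Spike

open Set Function

variable {ι : Type*} [DecidableEq ι] [Fintype ι] {M : Matroid (ι × Bool)} {T : Set (ι → Bool)}

lemma even_flip (v w : ι → Bool) (l : ι) :
    Even (hammingDist (update v l (!v l)) w) ↔ ¬ Even (hammingDist v w) := by
  unfold hammingDist
  by_cases h : v l = w l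
  · have h1 : (Finset.univ.filter fun i => update v l (!v l) i ≠ w i)
        = insert l (Finset.univ.filter fun i => v i ≠ w i) := by
      ext q
      simp only [Finset.mem_filter, Finset.mem_univ, true_and, Finset.mem_insert]
      by_cases hq : q = l
      · subst hq; simp [h]
      · simp [hq]
    rw [h1, Finset.card_insert_of_notMem (by simp [h]), Nat.even_add_one]
  · have h1 : (Finset.univ.filter fun i => v i ≠ w i)
        = insert l (Finset.univ.filter fun i => update v l (!v l) i ≠ w i) := by
      ext q
      simp only [Finset.mem_filter, Finset.mem_univ, true_and, Finset.mem_insert]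
      by_cases hq : q = l
      · subst hq; simp [h]
      · simp [hq]
    have h2 : l ∉ (Finset.univ.filter fun i => update v l (!v l) i ≠ w i) := by
      simp only [Finset.mem_filter, Finset.mem_univ, true_and, update_self, not_not]
      cases hv : v l <;> cases hw : w l <;> simp_all
    rw [h1, Finset.card_insert_of_notMem h2, Nat.even_add_one, not_not]

lemma dist_flip {v w : ι → Bool} {l : ι} (hl : v l ≠ w l) :
    hammingDist (update v l (!v l)) w + 1 = hammingDist v w := by
  unfold hammingDist
  have h1 : (Finset.univ.filter fun i => v i ≠ w i)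
      = insert l (Finset.univ.filter fun i => update v l (!v l) i ≠ w i) := by
    ext q
    simp only [Finset.mem_filter, Finset.mem_univ, true_and, Finset.mem_insert]
    by_cases hq : q = l
    · subst hq; simp [hl]
    · simp [hq]
  have h2 : l ∉ (Finset.univ.filter fun i => update v l (!v l) i ≠ w i) := by
    simp only [Finset.mem_filter, Finset.mem_univ, true_and, update_self, not_not]
    cases hv : v l <;> cases hw : w l <;> simp_all
  rw [h1, Finset.card_insert_of_notMem h2]

lemma par_tri (u z : ι → Bool) : ∀ (n : ℕ) (v : ι → Bool), hammingDist v u = n →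
    (Even (hammingDist v z) ↔ (Even n ↔ Even (hammingDist u z))) := by
  intro n
  induction n with
  | zero =>
    intro v h0
    rw [hammingDist_eq_zero] at h0
    subst h0
    simp
  | succ n ih =>
    intro v hn
    obtain ⟨l, hl⟩ : ∃ l, v l ≠ u l := by
      by_contra hcon
      push Not at hcon
      have : v = u := funext hcon
      subst this
      simp at hn
    have hd : hammingDist (update v l (!v l)) u = n := by
      have := dist_flip hl
      omega
    have h3 := ih (update v l (!v l)) hd
    rw [even_flip] at h3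
    rw [Nat.even_add_one]
    tauto

lemma flip_flip (v : ι → Bool) (l : ι) :
    update (update v l (!v l)) l (!update v l (!v l) l) = v := by
  simp

lemma Blk.one {i j k : ι} {a b : Bool} (h : Blk T i j k a b) (hT : Sep T)
    (hij : i ≠ j) (hik : i ≠ k) {l : ι} (hlj : l ≠ j) (hlk : l ≠ k) {v : ι → Bool}
    (hj : v j = a) (hk : v k = b) : v ∈ T ↔ update v l (!v l) ∉ T := by
  refine ⟨fun hv => hT v hv l, fun hv => ?_⟩
  by_contra hcon
  by_cases hli : l = i
  · subst hli
    rcases h v hj hk with h1 | h1
    · exact hcon h1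
    · exact hv h1
  · have h1 := (h v hj hk).resolve_left hcon
    have h2 := (h (update v l (!v l)) (by simp [hlj.symm, hj]) (by simp [hlk.symm, hk])).resolve_left hv
    apply hT _ h1 l
    have : update (update v i (!v i)) l (!update v i (!v i) l)
        = update (update v l (!v l)) i (!update v l (!v l) i) := by
      rw [update_of_ne hli, update_of_ne (Ne.symm hli), update_comm hli]
    rw [this]; exact h2

lemma Blk.par {i j k : ι} {a b : Bool} (h : Blk T i j k a b) (hT : Sep T)
    (hij : i ≠ j) (hik : i ≠ k) {w : ι → Bool} (hwT : w ∈ T) (hwj : w j = a) (hwk : w k = b) :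
    ∀ (n : ℕ) (v : ι → Bool), v j = a → v k = b → hammingDist v w = n → (v ∈ T ↔ Even n) := by
  intro n
  induction n with
  | zero =>
    intro v _ _ h0
    rw [hammingDist_eq_zero] at h0
    subst h0
    simp [hwT]
  | succ n ih =>
    intro v hj hk hn
    obtain ⟨l, hl⟩ : ∃ l, v l ≠ w l := by
      by_contra hcon
      push Not at hcon
      have : v = w := funext hcon
      subst this
      simp at hn
    have hlj : l ≠ j := by
      rintro rfl
      exact hl (hj.trans hwj.symm)
    have hlk : l ≠ k := by
      rintro rfl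
      exact hl (hk.trans hwk.symm)
    have hd : hammingDist (update v l (!v l)) w = n := by
      have := dist_flip hl
      omega
    have h3 := ih (update v l (!v l)) (by simp [hlj.symm, hj]) (by simp [hlk.symm, hk]) hd
    rw [h.one hT hij hik hlj hlk hj hk, h3, Nat.even_add_one]

lemma blk_iff {i j k : ι} {a b : Bool} (hT : Sep T) (hij : i ≠ j) (hik : i ≠ k) (hjk : j ≠ k) :
    Blk T i j k a b ↔ ∃ w : ι → Bool, w j = a ∧ w k = b ∧
      ∀ v : ι → Bool, v j = w j → v k = w k → Even (hammingDist v w) → v ∈ T := by
  constructor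
  · intro h
    obtain ⟨w, hwT, hwj, hwk⟩ : ∃ w ∈ T, w j = a ∧ w k = b := by
      set v0 : ι → Bool := update (update (fun _ => false) j a) k b with hv0
      have hj : v0 j = a := by simp [hv0, hjk]
      have hk : v0 k = b := by simp [hv0]
      rcases h v0 hj hk with h1 | h1
      · exact ⟨_, h1, hj, hk⟩
      · exact ⟨_, h1, by simp [hij.symm, hj], by simp [hik.symm, hk]⟩
    refine ⟨w, hwj, hwk, fun v hj hk he => ?_⟩
    exact (h.par hT hij hik hwT hwj hwk _ v (hj.trans hwj) (hk.trans hwk) rfl).2 he
  · rintro ⟨w, rfl, rfl, h⟩ v hj hk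
    by_cases he : Even (hammingDist v w)
    · exact Or.inl (h v hj hk he)
    · right
      refine h _ (by simp [hij.symm, hj]) (by simp [hik.symm, hk]) ?_
      rw [even_flip]; exact he

/-- `T` contains the parity class of `w` in the subcube of codimension two through `w` fixing
legs `j` and `k`. -/
def Full (T : Set (ι → Bool)) (j k : ι) (w : ι → Bool) : Prop :=
  ∀ v : ι → Bool, v j = w j → v k = w k → Even (hammingDist v w) → v ∈ T

theorem criterion (hι : 5 ≤ Fintype.card ι) (hE : M.E = univ)
    (hM : ∀ B, M.IsBase B ↔ IsB T B) (hT : Sep T) :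
    ¬ Star M ↔ ∃ j k : ι, j ≠ k ∧ ∃ w w' : ι → Bool, w' j = (!w j) ∧ w' k = (!w k) ∧
      Full T j k w ∧ Full T j k w' := by
  rw [star_fails_iff hι hE hM hT]
  constructor
  · rintro ⟨i, j, k, a, b, hij, hik, hjk, h1, h2⟩
    obtain ⟨w, hj, hk, hw⟩ := (blk_iff hT hij hik hjk).1 h1
    obtain ⟨w', hj', hk', hw'⟩ := (blk_iff hT hij hik hjk).1 h2
    exact ⟨j, k, hjk, w, w', by rw [hj', hj], by rw [hk', hk], hw, hw'⟩
  · rintro ⟨j, k, hjk, w, w', hj, hk, h1, h2⟩
    obtain ⟨i, hi⟩ : ∃ i, i ∉ ({j, k} : Finset ι) := by
      by_contra hcon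
      push Not at hcon
      have := Finset.card_le_card (fun x _ => hcon x : (Finset.univ : Finset ι) ⊆ {j, k})
      have h3 := Finset.card_le_two (a := j) (b := k)
      rw [Finset.card_univ] at this
      omega
    simp only [Finset.mem_insert, Finset.mem_singleton, not_or] at hi
    exact ⟨i, j, k, w j, w k, hi.1, hi.2, hjk, (blk_iff hT hi.1 hi.2 hjk).2 ⟨w, rfl, rfl, h1⟩,
      (blk_iff hT hi.1 hi.2 hjk).2 ⟨w', hj, hk, h2⟩⟩

/-- The even vectors with equal values at `p` and `q`. -/
def T0 (p q : ι) : Set (ι → Bool) := {v | Even (hammingDist v (fun _ => false)) ∧ v p = v q}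

lemma T0_sep (p q : ι) : Sep (T0 p q) := by
  intro v hv l hl
  exact (even_flip v _ l).1 hl.1 hv.1

lemma Sep.mono {S : Set (ι → Bool)} (hT : Sep T) (h : S ⊆ T) : Sep S :=
  fun v hv l hl => hT v (h hv) l (h hl)

/-- If a subset of `T0 p q` contains two opposite parity classes then it is all of `T0 p q`. -/
lemma T0_tight (hι : 5 ≤ Fintype.card ι) {p q : ι} (hpq : p ≠ q) {S : Set (ι → Bool)}
    (hS : S ⊆ T0 p q) {j k : ι} (hjk : j ≠ k) {w w' : ι → Bool} (hj : w' j = (!w j))
    (hk : w' k = (!w k)) (h1 : Full S j k w) (h2 : Full S j k w') : T0 p q ⊆ S := by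
  have hw : w ∈ T0 p q := hS (h1 w rfl rfl (by simp))
  have hw' : w' ∈ T0 p q := hS (h2 w' rfl rfl (by simp))
  -- the fixed legs are p and q
  have key : ∀ x y : ι, x ≠ y → (∀ v ∈ T0 p q, v x = v y) → x = j ∨ x = k := by
    intro x y hxy hv
    by_contra hcon
    push Not at hcon
    obtain ⟨l, hl⟩ : ∃ l, l ∉ ({j, k, x, y} : Finset ι) := by
      by_contra hcon
      push Not at hcon
      have := Finset.card_le_card (fun z _ => hcon z : (Finset.univ : Finset ι) ⊆ {j, k, x, y})
      have h3 := Finset.card_le_four (a := j) (b := k) (c := x) (d := y)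
      rw [Finset.card_univ] at this
      omega
    simp only [Finset.mem_insert, Finset.mem_singleton, not_or] at hl
    obtain ⟨hlj, hlk, hlx, hly⟩ := hl
    set v := update (update w x (!w x)) l (!(update w x (!w x)) l) with hvdef
    have hvS : v ∈ S := by
      refine h1 v ?_ ?_ ?_
      · simp [hvdef, Ne.symm hlj, Ne.symm hcon.1]
      · simp [hvdef, Ne.symm hlk, Ne.symm hcon.2]
      · rw [hvdef, even_flip, even_flip]; simp
    have h3 := hv v (hS hvS)
    have h4 := hv w hw
    have h5 : v x = !w x := by simp [hvdef, Ne.symm hlx]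
    have h6 : v y = w y := by simp [hvdef, Ne.symm hly, Ne.symm hxy]
    rw [h5, h6, ← h4] at h3
    cases hh : w x <;> simp_all
  have hp := key p q hpq (fun v hv => hv.2)
  have hq := key q p hpq.symm (fun v hv => hv.2.symm)
  have hpar : ∀ u : ι → Bool, u ∈ T0 p q → ∀ v : ι → Bool, v ∈ T0 p q →
      Even (hammingDist v u) := by
    intro u hu v hv
    have := par_tri u (fun _ => false) _ v rfl
    exact (this.1 hv.1).2 hu.1
  intro v hv
  have hjk' : (p = j ∧ q = k) ∨ (p = k ∧ q = j) := by
    rcases hp with rfl | rfl <;> rcases hq with rfl | rfl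
    · exact absurd rfl hpq
    · exact Or.inl ⟨rfl, rfl⟩
    · exact Or.inr ⟨rfl, rfl⟩
    · exact absurd rfl hpq
  by_cases hvj : v j = w j
  · refine h1 v hvj ?_ (hpar w hw v hv)
    rcases hjk' with ⟨rfl, rfl⟩ | ⟨rfl, rfl⟩
    · rw [← hv.2, ← hw.2]; exact hvj
    · rw [hv.2, hw.2]; exact hvj
  · have hvj' : v j = w' j := by
      rw [hj]
      cases h7 : v j <;> cases h8 : w j <;> simp_all
    refine h2 v hvj' ?_ (hpar w' hw' v hv)
    rcases hjk' with ⟨rfl, rfl⟩ | ⟨rfl, rfl⟩
    · rw [← hv.2, ← hw'.2]; exact hvj'
    · rw [hv.2, hw'.2]; exact hvj'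

/-- The number of members of `T0 p q`. -/
lemma T0_card {p q s : ι} (hpq : p ≠ q) (hsp : s ≠ p) (hsq : s ≠ q) :
    2 ^ (Fintype.card ι - 2) ≤ (T0 p q).ncard := by
  classical
  set f : (ι → Bool) → (ι → Bool) := fun v =>
    if Even (hammingDist (update v q (v p)) (fun _ => false)) then update v q (v p)
    else update (update v q (v p)) s (!(update v q (v p)) s) with hf
  have hf1 : ∀ v, f v ∈ T0 p q := by
    intro v
    by_cases h : Even (hammingDist (update v q (v p)) (fun _ => false))
    · simp only [hf, if_pos h]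
      exact ⟨h, by simp [hpq]⟩
    · simp only [hf, if_neg h]
      refine ⟨(even_flip _ _ _).2 h, by simp [hpq, hsp.symm, hsq.symm]⟩
  have hf2 : ∀ v l, l ≠ q → l ≠ s → f v l = v l := by
    intro v l hl1 hl2
    by_cases h : Even (hammingDist (update v q (v p)) (fun _ => false))
    · simp only [hf, if_pos h]; simp [hl1]
    · simp only [hf, if_neg h]; simp [hl1, hl2]
  have hcard := Finset.card_le_mul_card_image (s := (Finset.univ : Finset (ι → Bool))) (f := f) 4 (by
    intro a _
    have h1 : ((Finset.univ.filter fun v => f v = a).image fun v => (v q, v s)).card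
        = (Finset.univ.filter fun v => f v = a).card := by
      apply Finset.card_image_of_injOn
      intro v hv v' hv' heq
      simp only [Finset.coe_filter, Finset.mem_univ, true_and, mem_ofPred_eq] at hv hv'
      simp only [Prod.mk.injEq] at heq
      funext l
      by_cases h1 : l = q
      · subst h1; exact heq.1
      by_cases h2 : l = s
      · subst h2; exact heq.2
      rw [← hf2 v l h1 h2, ← hf2 v' l h1 h2, hv, hv']
    rw [← h1]
    exact (Finset.card_le_univ _).trans (by simp))
  have h2 : (Finset.univ.image f).card ≤ (T0 p q).ncard := by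
    rw [← ncard_coe_finset]
    apply ncard_le_ncard _ (toFinite _)
    intro x hx
    simp only [Finset.coe_image, Finset.coe_univ, image_univ, mem_range] at hx
    obtain ⟨v, rfl⟩ := hx
    exact hf1 v
  have h3 : (Finset.univ : Finset (ι → Bool)).card = 2 ^ Fintype.card ι := by
    rw [Finset.card_univ, Fintype.card_fun, Fintype.card_bool]
  rw [h3] at hcard
  have h4 : 2 ≤ Fintype.card ι := by
    have h5 := Finset.card_le_univ ({p, q} : Finset ι)
    rw [Finset.card_pair hpq] at h5
    exact h5
  have h6 : 2 ^ Fintype.card ι = 4 * 2 ^ (Fintype.card ι - 2) := by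
    rw [show (4 : ℕ) = 2 ^ 2 by norm_num, ← pow_add]
    congr 1; omega
  rw [h6] at hcard
  omega

end Pool.Agent.Work.MP_16b4d3_co.Spike
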