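import Pool.Agent.Work.MP_16b4d3_co.Spike4

/-!
Certificates, in terms of independence queries, for the property and for its failure.
-/

set_option autoImplicit false
set_option linter.unusedSectionVars false

namespace Pool.Agent.Work.MP_16b4d3_co.Spike

open Set Function

section lower

variable {ι : Type*} [DecidableEq ι] [Fintype ι]

/-- Failure of the property has no short certificate. -/
theorem lower (hι : 5 ≤ Fintype.card ι) {p q : ι} (hpq : p ≠ q) {M : Matroid (ι × Bool)}
    (hE : M.E = univ) (hM : ∀ B, M.IsBase B ↔ IsB (T0 p q) B) : ¬ Star M ∧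
    ∀ Q : Set (Set (ι × Bool)), (∀ M' : Matroid (ι × Bool), M'.E = univ →
      (∀ A ∈ Q, (M'.Indep A ↔ M.Indep A)) → ¬ Star M') →
      2 ^ (Fintype.card ι - 2) ≤ Q.ncard := by
  classical
  obtain ⟨s, hs⟩ : ∃ s, s ∉ ({p, q} : Finset ι) := by
    by_contra hcon
    push Not at hcon
    have := Finset.card_le_card (fun x _ => hcon x : (Finset.univ : Finset ι) ⊆ {p, q})
    have h3 := Finset.card_le_two (a := p) (b := q)
    rw [Finset.card_univ] at this
    omega
  simp only [Finset.mem_insert, Finset.mem_singleton, not_or] at hs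
  refine ⟨?_, ?_⟩
  · rw [criterion hι hE hM (T0_sep p q)]
    refine ⟨p, q, hpq, fun _ => false, update (update (fun _ => false) p (!false)) q (!false),
      ?_, ?_, ?_, ?_⟩
    · simp [hpq]
    · simp
    · intro v h1 h2 h3
      exact ⟨h3, h1.trans h2.symm⟩
    · intro v h1 h2 h3
      have h4 : Even (hammingDist (update (update (fun _ : ι => false) p (!false)) q (!false))
          (fun _ => false)) := by
        have e1 := even_flip (update (fun _ : ι => false) p (!false)) (fun _ => false) q
        have e2 := even_flip (fun _ : ι => false) (fun _ => false) p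
        rw [update_of_ne hpq.symm] at e1
        rw [e1, e2]
        simp
      refine ⟨?_, ?_⟩
      · rw [par_tri (update (update (fun _ : ι => false) p (!false)) q (!false)) _ _ v rfl]
        exact ⟨fun _ => h4, fun _ => h3⟩
      · rw [h1, h2]; simp [hpq]
  · intro Q hQ
    have hin : ∀ v ∈ T0 p q, trv v ∈ Q := by
      intro v hv
      by_contra hvQ
      have hsub : T0 p q \ {v} ⊆ T0 p q := sdiff_subset
      obtain ⟨M', hE', hM'⟩ := exists_spike ((T0_sep p q).mono hsub) ⟨p, q, hpq⟩
      have hst : Star M' := by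
        by_contra hcon
        rw [criterion hι hE' hM' ((T0_sep p q).mono hsub)] at hcon
        obtain ⟨j, k, hjk, w, w', h1, h2, h3, h4⟩ := hcon
        exact (T0_tight hι hpq hsub hjk h1 h2 h3 h4 hv).2 rfl
      refine hQ M' hE' (fun A hA => ?_) hst
      constructor
      · intro h
        obtain ⟨B, hB, hAB⟩ := h.exists_isBase_superset
        rw [hM'] at hB
        rcases hB with ⟨u, hu, rfl⟩ | ⟨i, m, u, him, rfl⟩
        · by_cases huv : u = v
          · subst huv
            have hcirc := circ_T hE hM (T0_sep p q) hv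
            refine hcirc.ssubset_indep (hAB.ssubset_of_ne ?_)
            rintro rfl
            exact hvQ hA
          · refine (((hM _).2 (Or.inl ⟨u, fun hu' => hu ⟨hu', huv⟩, rfl⟩)).indep).subset hAB
        · exact (((hM _).2 (Or.inr ⟨i, m, u, him, rfl⟩)).indep).subset hAB
      · intro h
        obtain ⟨B, hB, hAB⟩ := h.exists_isBase_superset
        rw [hM] at hB
        rcases hB with ⟨u, hu, rfl⟩ | ⟨i, m, u, him, rfl⟩
        · refine (((hM' _).2 (Or.inl ⟨u, fun hu' => hu hu'.1, rfl⟩)).indep).subset hAB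
        · exact (((hM' _).2 (Or.inr ⟨i, m, u, him, rfl⟩)).indep).subset hAB
    have hinj : Function.Injective (trv : (ι → Bool) → Set (ι × Bool)) := by
      intro u v huv
      funext l
      have h1 : (l, u l) ∈ trv u := rfl
      rw [huv] at h1
      exact h1
    refine (T0_card hpq hs.1 hs.2).trans ?_
    rw [← ncard_image_of_injective (T0 p q) hinj]
    exact ncard_le_ncard (image_subset_iff.2 hin) (toFinite _)

end lower

section upper

variable {α : Type*} [Fintype α] {M : Matroid α}

lemma cert_circuit {C : Set α} (hC : M.IsCircuit C) :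
    ∃ Q : Set (Set α), Q.ncard ≤ 2 * Fintype.card α + 1 ∧ ∀ M' : Matroid α, M'.E = univ →
      (∀ A ∈ Q, (M'.Indep A ↔ M.Indep A)) → M'.IsCircuit C := by
  refine ⟨insert C ((fun e => C \ {e}) '' univ), ?_, ?_⟩
  · refine (ncard_insert_le _ _).trans ?_
    have h1 := ncard_image_le (s := (univ : Set α)) (f := fun e => C \ {e}) (toFinite _)
    rw [ncard_univ, Nat.card_eq_fintype_card] at h1
    omega
  · intro M' hE' h
    rw [Matroid.isCircuit_iff_dep_forall_sdiff_singleton_indep]
    refine ⟨⟨?_, by rw [hE']; exact subset_univ _⟩, ?_⟩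
    · rw [h C (mem_insert _ _)]; exact hC.dep.not_indep
    · intro e he
      rw [h _ (mem_insert_of_mem _ ⟨e, mem_univ _, rfl⟩)]
      exact hC.sdiff_singleton_indep he

lemma cert_cocircuit {D : Set α} (hD : M.IsCocircuit D) :
    ∃ Q : Set (Set α), Q.ncard ≤ 2 * Fintype.card α + 1 ∧ ∀ M' : Matroid α, M'.E = univ →
      (∀ A ∈ Q, (M'.Indep A ↔ M.Indep A)) → M'.IsCocircuit D := by
  classical
  have hfin : ∀ S : Set α, S.Finite := fun S => toFinite S
  have hdep : ∀ B, M.IsBase B → (D ∩ B).Nonempty := (Matroid.dual_dep_iff_forall.1 hD.dep).1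
  have hbase : ∀ d ∈ D, ∃ B, M.IsBase B ∧ D ∩ B = {d} := by
    intro d hd
    have h1 : M✶.Indep (D \ {d}) := hD.sdiff_singleton_indep hd
    rw [Matroid.dual_indep_iff_exists'] at h1
    obtain ⟨-, B, hB, hdis⟩ := h1
    refine ⟨B, hB, ?_⟩
    obtain ⟨x, hx⟩ := hdep B hB
    have h2 : ∀ y ∈ D ∩ B, y = d := by
      intro y hy
      by_contra hne
      exact (disjoint_left.1 hdis) ⟨hy.1, hne⟩ hy.2
    ext y
    refine ⟨fun hy => h2 y hy, fun hy => ?_⟩
    rw [mem_singleton_iff.1 hy, ← h2 x hx]; exact hx
  obtain ⟨d0, hd0⟩ := hD.nonempty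
  obtain ⟨B0, hB0, hDB0⟩ := hbase d0 hd0
  have hd0B : d0 ∈ B0 := by
    have : d0 ∈ D ∩ B0 := by rw [hDB0]; rfl
    exact this.2
  set I := B0 \ {d0} with hI
  have hd0I : d0 ∉ I := fun h => h.2 rfl
  have hins : insert d0 I = B0 := insert_sdiff_self_of_mem hd0B
  have hID : ∀ x ∈ I, x ∉ D := by
    intro x hx hxD
    have : x ∈ D ∩ B0 := ⟨hxD, hx.1⟩
    rw [hDB0] at this
    exact hx.2 this
  have hIindep : M.Indep I := hB0.indep.subset sdiff_subset
  have hcardI : ∀ B, M.IsBase B → I.encard < B.encard := by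
    intro B hB
    rw [hB.encard_eq_encard_of_isBase hB0, ← hins, encard_insert_of_notMem hd0I]
    exact ENat.lt_add_one_iff (by rw [encard_ne_top_iff]; exact hfin _) |>.2 le_rfl
  -- nothing outside D can be added
  have hout : ∀ x, x ∉ D → x ∉ I → ¬ M.Indep (insert x I) := by
    intro x hxD hxI hx
    have h1 : M.IsBase (insert x I) := by
      obtain ⟨B, hB, hsub⟩ := hx.exists_isBase_superset
      have h2 : (insert x I).encard = B.encard := by
        rw [hB.encard_eq_encard_of_isBase hB0, ← hins, encard_insert_of_notMem hd0I,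
          encard_insert_of_notMem hxI]
      rw [(hfin B).eq_of_subset_of_encard_le' hsub h2.ge]
      exact hB
    obtain ⟨y, hyD, hy⟩ := hdep _ h1
    rcases hy with rfl | hy
    · exact hxD hyD
    · exact hID y hy hyD
  have hinD : ∀ d ∈ D, M.Indep (insert d I) := by
    intro d hd
    obtain ⟨B, hB, hDB⟩ := hbase d hd
    obtain ⟨y, hy, hyI⟩ := hIindep.augment hB.indep (hcardI B hB)
    by_cases hyD : y ∈ D
    · have : y ∈ D ∩ B := ⟨hyD, hy.1⟩
      rw [hDB] at this
      rw [← mem_singleton_iff.1 this]; exact hyI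
    · exact absurd hyI (hout y hyD hy.2)
  refine ⟨(fun x => insert x I) '' univ ∪ (fun x => insert x (insert d0 I)) '' univ, ?_, ?_⟩
  · refine (ncard_union_le _ _).trans ?_
    have h1 := ncard_image_le (s := (univ : Set α)) (f := fun x => insert x I) (toFinite _)
    have h2 := ncard_image_le (s := (univ : Set α)) (f := fun x => insert x (insert d0 I))
      (toFinite _)
    rw [ncard_univ, Nat.card_eq_fintype_card] at h1 h2
    omega
  · intro M' hE' h
    have g1 : ∀ x, (M'.Indep (insert x I) ↔ M.Indep (insert x I)) :=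
      fun x => h _ (Or.inl ⟨x, mem_univ _, rfl⟩)
    have g2 : ∀ x, (M'.Indep (insert x (insert d0 I)) ↔ M.Indep (insert x (insert d0 I))) :=
      fun x => h _ (Or.inr ⟨x, mem_univ _, rfl⟩)
    have hb0 : M'.IsBase (insert d0 I) := by
      refine Matroid.Indep.isBase_of_forall_insert ((g1 d0).2 (hinD d0 hd0)) ?_
      intro e he
      rw [g2, hins]
      rw [hins] at he
      exact fun hcon => he.2 (hB0.mem_of_insert_indep hcon)
    have hI' : M'.Indep I := hb0.indep.subset (subset_insert _ _)
    rw [Matroid.isCocircuit_def, Matroid.isCircuit_iff_dep_forall_sdiff_singleton_indep]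
    refine ⟨?_, ?_⟩
    · rw [Matroid.dual_dep_iff_forall]
      refine ⟨fun B hB => ?_, by rw [hE']; exact subset_univ _⟩
      by_contra hcon
      rw [not_nonempty_iff_eq_empty] at hcon
      have hlt : I.encard < B.encard := by
        rw [hB.encard_eq_encard_of_isBase hb0, encard_insert_of_notMem hd0I]
        exact ENat.lt_add_one_iff (by rw [encard_ne_top_iff]; exact hfin _) |>.2 le_rfl
      obtain ⟨y, hy, hyI⟩ := hI'.augment hB.indep hlt
      have hyD : y ∉ D := by
        intro hyD
        have : y ∈ D ∩ B := ⟨hyD, hy.1⟩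
        rw [hcon] at this
        exact this
      exact hout y hyD hy.2 ((g1 y).1 hyI)
    · intro d hd
      rw [Matroid.dual_indep_iff_exists']
      refine ⟨by rw [hE']; exact subset_univ _, insert d I, ?_, ?_⟩
      · have h1 : M'.Indep (insert d I) := (g1 d).2 (hinD d hd)
        obtain ⟨B, hB, hsub⟩ := h1.exists_isBase_superset
        have hdI : d ∉ I := fun h => hID d h hd
        have h2 : (insert d I).encard = B.encard := by
          rw [hB.encard_eq_encard_of_isBase hb0, encard_insert_of_notMem hd0I,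
            encard_insert_of_notMem hdI]
        rw [(hfin B).eq_of_subset_of_encard_le' hsub h2.ge]
        exact hB
      · rw [disjoint_left]
        rintro x ⟨hx1, hx2⟩ (rfl | hx3)
        · exact hx2 rfl
        · exact hID x hx3 hx1

/-- The property has a short certificate. -/
theorem upper (hE : M.E = univ) (hM : Star M) :
    ∃ Q : Set (Set α), Q.ncard ≤ Fintype.card α ^ 5 ∧ ∀ M' : Matroid α, M'.E = univ →
      (∀ A ∈ Q, (M'.Indep A ↔ M.Indep A)) → Star M' := by
  classical
  have key : ∀ X : Finset α, ∃ Q : Set (Set α), Q.ncard ≤ 2 * Fintype.card α + 1 ∧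
      (X.card = 4 → ∀ M' : Matroid α, M'.E = univ → (∀ A ∈ Q, (M'.Indep A ↔ M.Indep A)) →
        ∃ C : Set α, (X : Set α) ⊆ C ∧ (M'.IsCircuit C ∨ M'.IsCocircuit C)) := by
    intro X
    by_cases hX : X.card = 4
    · obtain ⟨C, hXC, hC | hC⟩ := hM X (by rw [hE]; exact subset_univ _)
        (by rw [ncard_coe_finset]; exact hX)
      · obtain ⟨Q, hQ1, hQ2⟩ := cert_circuit hC
        exact ⟨Q, hQ1, fun _ M' hE' h => ⟨C, hXC, Or.inl (hQ2 M' hE' h)⟩⟩
      · obtain ⟨Q, hQ1, hQ2⟩ := cert_cocircuit hC
        exact ⟨Q, hQ1, fun _ M' hE' h => ⟨C, hXC, Or.inr (hQ2 M' hE' h)⟩⟩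
    · exact ⟨∅, by simp, fun h => absurd h hX⟩
  choose Q hQ1 hQ2 using key
  refine ⟨⋃ X ∈ (Finset.univ : Finset α).powersetCard 4, Q X, ?_, ?_⟩
  · have h1 : (⋃ X ∈ (Finset.univ : Finset α).powersetCard 4, Q X).ncard
        ≤ ∑ X ∈ (Finset.univ : Finset α).powersetCard 4, (Q X).ncard := by
      generalize (Finset.univ : Finset α).powersetCard 4 = F
      induction F using Finset.induction_on with
      | empty => simp
      | insert a s ha ih =>
        rw [Finset.set_biUnion_insert, Finset.sum_insert ha]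
        exact (ncard_union_le _ _).trans (Nat.add_le_add_left ih _)
    have h2 : ∑ X ∈ (Finset.univ : Finset α).powersetCard 4, (Q X).ncard
        ≤ (Fintype.card α).choose 4 * (2 * Fintype.card α + 1) := by
      refine (Finset.sum_le_card_nsmul _ _ (2 * Fintype.card α + 1) (fun X _ => hQ1 X)).trans ?_
      rw [Finset.card_powersetCard, Finset.card_univ, smul_eq_mul]
    refine h1.trans (h2.trans ?_)
    set n := Fintype.card α with hn
    have h3 : 24 * n.choose 4 ≤ n ^ 4 := by
      have h4 := Nat.descFactorial_eq_factorial_mul_choose n 4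
      have h5 := Nat.descFactorial_le_pow n 4
      have h6 : (4 : ℕ).factorial = 24 := rfl
      rw [h6] at h4
      omega
    rcases Nat.eq_zero_or_pos n with h0 | h0
    · rw [h0]; simp
    · have h4 : 24 * (n.choose 4 * (2 * n + 1)) ≤ 24 * n ^ 5 := by
        calc 24 * (n.choose 4 * (2 * n + 1)) = (24 * n.choose 4) * (2 * n + 1) := by ring
          _ ≤ n ^ 4 * (2 * n + 1) := Nat.mul_le_mul_right _ h3
          _ ≤ n ^ 4 * (24 * n) := Nat.mul_le_mul_left _ (by omega)
          _ = 24 * n ^ 5 := by ring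
      omega
  · intro M' hE' h X hX hX4
    have hXfin : X.Finite := toFinite X
    obtain ⟨C, hC1, hC2⟩ := hQ2 hXfin.toFinset (by rw [← ncard_eq_toFinset_card X hXfin]; exact hX4)
      M' hE' (fun A hA => h A (by
        simp only [mem_iUnion]
        exact ⟨hXfin.toFinset, by
          rw [Finset.mem_powersetCard]
          exact ⟨Finset.subset_univ _, by rw [← ncard_eq_toFinset_card X hXfin]; exact hX4⟩, hA⟩))
    rw [Set.Finite.coe_toFinset] at hC1
    exact ⟨C, hC1, hC2⟩

end upper

end Pool.Agent.Work.MP_16b4d3_co.Spike
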