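import Pool.Agent.Work.MP_16b4d3_co.Core

open Set

namespace Pool.MP16b4d3

variable {α : Type*} {M : Matroid α}

lemma rk_lt_of_not_subset [M.Finite] {A Z : Set α} (hZ : Z ⊆ M.E)
    (h : ¬ (Z ⊆ M.closure A)) : rk M A < rk M (A ∪ Z) := by
  by_contra hc
  exact h (subset_closure_of_rk_union_le hZ (by omega))

lemma Thick.mono_num {s t : ℕ} {C Z : Set α} (hs : 1 ≤ s) (hst : s ≤ t) (h : Thick M t C Z) :
    Thick M s C Z := by
  intro H hH
  have : Nonempty (Fin s) := ⟨⟨0, hs⟩⟩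
  exact h.apply (by simpa using hst) H hH

lemma Thick.congr_closure {s : ℕ} {C C' Z : Set α} (hC : M.closure C = M.closure C')
    (h : Thick M s C Z) : Thick M s C' Z := by
  intro H hH
  obtain ⟨i, hi⟩ := h H hH
  refine ⟨i, ?_⟩
  rw [M.closure_union_congr_left hC] at hi
  exact hi

lemma Thick.remove {s t : ℕ} (hs : 1 ≤ s) {C Z : Set α} {ι : Type*} [Fintype ι]
    (hι : Fintype.card ι ≤ t) (S : ι → Set α) (hS : ∀ j, ¬ (Z ⊆ M.closure (C ∪ (S j ∩ Z))))
    (h : Thick M (s + t) C Z) :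
    Thick M s C (Z \ ⋃ j, S j) ∧ Z ⊆ M.closure (C ∪ (Z \ ⋃ j, S j)) := by
  classical
  have hne : Nonempty (Fin s) := ⟨⟨0, hs⟩⟩
  have key : ∀ H : Fin s → Set α, Z \ (⋃ j, S j) ⊆ ⋃ i, H i →
      ∃ i, Z ⊆ M.closure (C ∪ (H i ∩ (Z \ ⋃ j, S j))) := by
    intro H hH
    have hcard : Fintype.card (Fin s ⊕ ι) ≤ s + t := by
      rw [Fintype.card_sum, Fintype.card_fin]; omega
    obtain ⟨i, hi⟩ := h.apply hcard (Sum.elim (fun i => H i ∩ (Z \ ⋃ j, S j)) S) (by
      intro z hz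
      by_cases hzS : z ∈ ⋃ j, S j
      · obtain ⟨j, hj⟩ := mem_iUnion.1 hzS
        exact mem_iUnion.2 ⟨Sum.inr j, hj⟩
      · obtain ⟨i, hi⟩ := mem_iUnion.1 (hH ⟨hz, hzS⟩)
        exact mem_iUnion.2 ⟨Sum.inl i, hi, hz, hzS⟩)
    rcases i with i | j
    · refine ⟨i, hi.trans (M.closure_subset_closure ?_)⟩
      exact union_subset_union_right _ inter_subset_left
    · exact absurd hi (hS j)
  constructor
  · intro H hH
    obtain ⟨i, hi⟩ := key H hH
    exact ⟨i, sdiff_subset.trans hi⟩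
  · obtain ⟨i, hi⟩ := key (fun _ => univ) (by
      intro z _; exact mem_iUnion.2 ⟨Classical.arbitrary _, mem_univ z⟩)
    rwa [univ_inter] at hi

/-- (F1): thickness survives un-contracting one element, at a quadratic cost. -/
lemma uncontract_one [M.Finite] {s : ℕ} (hs : 1 ≤ s) {C Z : Set α} {c : α}
    (hZ : Z ⊆ M.E) (h : Thick M (s * s) (insert c C) Z) :
    ∃ Z' ⊆ Z, Thick M s C Z' ∧ Z ⊆ M.closure (insert c C ∪ Z') := by
  classical
  by_cases hT : Thick M s C Z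
  · exact ⟨Z, subset_rfl, hT, M.subset_closure_of_subset' subset_union_right hZ⟩
  unfold Thick at hT
  push Not at hT
  obtain ⟨H, hH, hHn⟩ := hT
  by_contra hcon
  push Not at hcon
  have hex : ∀ i : Fin s, ∃ L : Fin s → Set α, (H i ∩ Z ⊆ ⋃ j, L j) ∧
      ∀ j, ¬ (Z ⊆ M.closure (insert c C ∪ (L j ∩ Z))) := by
    intro i
    by_cases hTi : Thick M s C (H i ∩ Z)
    · refine ⟨fun _ => H i ∩ Z, ?_, ?_⟩
      · intro z hz
        exact mem_iUnion.2 ⟨⟨0, hs⟩, hz⟩
      · intro _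
        have h1 := hcon (H i ∩ Z) inter_subset_right hTi
        rw [inter_assoc, inter_self]
        exact h1
    · unfold Thick at hTi
      push Not at hTi
      obtain ⟨K, hK, hKn⟩ := hTi
      refine ⟨fun j => K j ∩ (H i ∩ Z), ?_, ?_⟩
      · intro z hz
        obtain ⟨j, hj⟩ := mem_iUnion.1 (hK hz)
        exact mem_iUnion.2 ⟨j, hj, hz⟩
      · intro j hcl
        have e0 : K j ∩ (H i ∩ Z) ∩ Z = K j ∩ (H i ∩ Z) := by
          ext a; simp only [mem_inter_iff]; tauto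
        rw [e0] at hcl
        have r1 := rk_lt_of_not_subset (inter_subset_right.trans hZ) (hKn j)
        have r2 := rk_lt_of_not_subset hZ (hHn i)
        have e1 : C ∪ K j ∩ (H i ∩ Z) ∪ H i ∩ Z = C ∪ (H i ∩ Z) := by
          ext a; simp only [mem_union, mem_inter_iff]; tauto
        have e2 : C ∪ H i ∩ Z ∪ Z = C ∪ Z := by
          ext a; simp only [mem_union, mem_inter_iff]; tauto
        rw [e1] at r1
        rw [e2] at r2
        have r3 := rk_insert_le (M := M) c (C ∪ K j ∩ (H i ∩ Z))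
        have r4 := rk_union_of_subset_closure hcl
        have r5 : rk M (C ∪ Z) ≤ rk M (insert c C ∪ K j ∩ (H i ∩ Z) ∪ Z) := by
          apply rk_mono
          rintro a (ha | ha)
          · exact Or.inl (Or.inl (Or.inr ha))
          · exact Or.inr ha
        rw [← insert_union] at r3
        omega
  choose L hL1 hL2 using hex
  have hne : Nonempty (Fin s) := ⟨⟨0, hs⟩⟩
  obtain ⟨⟨i, j⟩, hij⟩ := h.apply (ι := Fin s × Fin s) (by simp) (fun p => L p.1 p.2) (by
    intro z hz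
    obtain ⟨i, hi⟩ := mem_iUnion.1 (hH hz)
    obtain ⟨j, hj⟩ := mem_iUnion.1 (hL1 i ⟨hi, hz⟩)
    exact mem_iUnion.2 ⟨(i, j), hj⟩)
  exact hL2 i j hij

/-- iterated un-contraction. -/
lemma uncontract [M.Finite] {s : ℕ} (hs : 1 ≤ s) {C : Set α} (hC : C ⊆ M.E) (J : Finset α) :
    (J : Set α) ⊆ M.E → ∀ Z ⊆ M.E, Thick M (s ^ (2 ^ J.card)) (↑J ∪ C) Z →
    ∃ Z' ⊆ Z, Thick M s C Z' ∧ Z ⊆ M.closure (↑J ∪ C ∪ Z') := by
  classical
  induction J using Finset.induction_on with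
  | empty =>
    intro _ Z hZ h
    simp only [Finset.card_empty, pow_zero, pow_one, Finset.coe_empty, empty_union] at h
    refine ⟨Z, subset_rfl, h, ?_⟩
    exact M.subset_closure_of_subset' subset_union_right hZ
  | insert c J hcJ ih =>
    intro hJ Z hZ h
    rw [Finset.coe_insert] at hJ
    have hcE : c ∈ M.E := hJ (mem_insert _ _)
    have hJE : (J : Set α) ⊆ M.E := (subset_insert _ _).trans hJ
    rw [Finset.card_insert_of_notMem hcJ, pow_succ, pow_mul, pow_two, Finset.coe_insert,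
      insert_union] at h
    obtain ⟨Z1, hZ1, hT1, hcl1⟩ := uncontract_one (Nat.one_le_pow _ _ hs) hZ h
    obtain ⟨Z2, hZ2, hT2, hcl2⟩ := ih hJE Z1 (hZ1.trans hZ) hT1
    refine ⟨Z2, hZ2.trans hZ1, hT2, ?_⟩
    refine hcl1.trans (M.closure_subset_closure_of_subset_closure ?_)
    rintro a ((rfl | ha | ha) | ha)
    · exact M.mem_closure_of_mem' (Or.inl (Or.inl (Finset.mem_coe.2 (Finset.mem_insert_self _ _)))) hcE
    · exact M.mem_closure_of_mem' (Or.inl (Or.inl (Finset.mem_coe.2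
        (Finset.mem_insert_of_mem (Finset.mem_coe.1 ha))))) (hJE ha)
    · exact M.mem_closure_of_mem' (Or.inl (Or.inr ha)) (hC ha)
    · refine M.closure_subset_closure ?_ (hcl2 ha)
      apply union_subset_union_left
      apply union_subset_union_left
      rw [Finset.coe_insert]
      exact subset_insert _ _

/-- dropping a set which is free over `C ∪ Z`. -/
lemma Thick.drop [M.Finite] {s : ℕ} {C J Z : Set α} (hJ : J ⊆ M.E) (hZ : Z ⊆ M.E)
    (hfree : rk M (C ∪ Z) + J.ncard ≤ rk M (J ∪ (C ∪ Z))) (h : Thick M s (J ∪ C) Z) :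
    Thick M s C Z := by
  intro H hH
  obtain ⟨i, hi⟩ := h H hH
  refine ⟨i, subset_closure_of_rk_union_le hZ ?_⟩
  have h1 := free_mono (M := M) (I := J) (P := C ∪ Z) (P' := C ∪ (H i ∩ Z))
    (union_subset_union_right _ inter_subset_right) hJ hfree
  have h2 := rk_union_of_subset_closure hi
  have e1 : J ∪ C ∪ H i ∩ Z ∪ Z = J ∪ (C ∪ Z) := by
    ext a; simp only [mem_union, mem_inter_iff]; tauto
  have e2 : J ∪ C ∪ H i ∩ Z = J ∪ (C ∪ (H i ∩ Z)) := by
    rw [union_assoc]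
  have e3 : C ∪ H i ∩ Z ∪ Z = C ∪ Z := by
    ext a; simp only [mem_union, mem_inter_iff]; tauto
  rw [e1, e2] at h2
  rw [e3]
  omega

/-- relative basis: a free subset of `D` over `C` extends to a basis of `D` over `C`. -/
lemma exists_relBasis [M.Finite] {C D I0 : Set α} (hD : D ⊆ M.E) (hI0 : I0 ⊆ D)
    (h0 : rk M (I0 ∪ C) = rk M C + I0.ncard) :
    ∃ J, I0 ⊆ J ∧ J ⊆ D ∧ rk M (J ∪ C) = rk M C + J.ncard ∧ rk M (J ∪ C) = rk M (D ∪ C) := by
  classical
  have hfin : {J : Set α | I0 ⊆ J ∧ J ⊆ D ∧ rk M (J ∪ C) = rk M C + J.ncard}.Finite := by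
    apply (M.ground_finite.finite_subsets).subset
    rintro J ⟨-, h, -⟩
    exact h.trans hD
  obtain ⟨J, ⟨hJ1, hJ2, hJ3⟩, hmax⟩ := hfin.exists_maximal ⟨I0, subset_rfl, hI0, h0⟩
  refine ⟨J, hJ1, hJ2, hJ3, ?_⟩
  apply le_antisymm (rk_mono (union_subset_union_left _ hJ2))
  by_contra hc
  have hnot : ¬ (D ⊆ M.closure (J ∪ C)) := by
    intro h
    have h1 := rk_union_of_subset_closure h
    have h2 : rk M (D ∪ C) ≤ rk M (J ∪ C ∪ D) := by
      apply rk_mono
      rintro a (ha | ha)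
      · exact Or.inr ha
      · exact Or.inl (Or.inr ha)
    omega
  rw [not_subset] at hnot
  obtain ⟨d, hd, hdcl⟩ := hnot
  have hJf : J.Finite := M.ground_finite.subset (hJ2.trans hD)
  have hdJ : d ∉ J := fun h => hdcl (M.mem_closure_of_mem' (Or.inl h) (hD hd))
  have h1 := rk_insert_of_notMem (hD hd) hdcl
  apply hdJ
  apply hmax (y := insert d J)
  · refine ⟨hJ1.trans (subset_insert _ _), insert_subset hd hJ2, ?_⟩
    rw [Set.ncard_insert_of_notMem hdJ hJf, insert_union]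
    omega
  · exact subset_insert _ _
  · exact mem_insert _ _

end Pool.MP16b4d3
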